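import Pool.Agent.Lib.MP_95bb8c_al.BU.Defs
import Pool.Agent.Lib.MP_95bb8c_al.Tiling

set_option autoImplicit false
set_option linter.unusedSectionVars false

namespace Pool.Agent.Lib.MP_95bb8c_al.BU

open Finset

variable {V E K : Type} [Fintype V] [DecidableEq V] [Fintype E] [DecidableEq E] [DecidableEq K]
variable {s t : E → V} {bar : V → V} {sig : V → E → E}

theorem Conn2.inv' (h : Conn2 s t bar sig) (v : V) {e : E} (he : e ∈ cut s t {bar v}) :
    sig (bar v) e ∈ cut s t {v} ∧ sig v (sig (bar v) e) = e := by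
  have h1 := h.mem (bar v) e he
  have h2 := h.inv (bar v) e he
  rw [h.bar_bar] at h1 h2
  exact ⟨h1, h2⟩

theorem Conn2.sig_inj (h : Conn2 s t bar sig) (v : V) : ∀ e ∈ cut s t {v}, ∀ f ∈ cut s t {v},
    sig v e = sig v f → e = f := by
  intro e he f hf hef
  rw [← h.inv v e he, hef, h.inv v f hf]

theorem Conn2.dg_bar (h : Conn2 s t bar sig) (v : V) : dg s t (bar v) = dg s t v := by
  unfold dg
  refine Finset.card_nbij' (sig (bar v)) (sig v) (fun e he => (h.inv' v he).1)
    (fun e he => h.mem v e he) (fun e he => (h.inv' v he).2) (fun e he => h.inv v e he)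

theorem Conn2.wgood (h : Conn2 s t bar sig) : WGood s t :=
  fun v => ⟨bar v, h.bar_ne v, fun S h1 h2 => h.lam v S h1 h2⟩

/-- A class which is more than half of the edges at `v` joins `v` and `bar v`. -/
theorem dom_end (h : Conn2 s t bar sig) {b : E → K} (hb : Cls s t sig b) {v : V} {e : E}
    (he : e ∈ cut s t {v}) (hd : Dom (cut s t {v}) b e) : e ∈ cut s t {bar v} := by
  -- the other end of `e`
  obtain ⟨w, hw, hew⟩ : ∃ w, w ≠ v ∧ e ∈ cut s t {w} := by
    have h1 := (mem_star h.hl).1 he
    rcases h1 with h1 | h1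
    · exact ⟨t e, fun h2 => h.hl e (h1.trans h2.symm), (mem_star h.hl).2 (Or.inr rfl)⟩
    · exact ⟨s e, fun h2 => h.hl e (h2.trans h1.symm), (mem_star h.hl).2 (Or.inl rfl)⟩
  by_cases hwb : w = bar v
  · rw [← hwb]
    exact hew
  exfalso
  have h1 : bar w ∉ ({w, v} : Finset V) := by
    rw [Finset.mem_insert, Finset.mem_singleton]
    rintro (h2 | h2)
    · exact h.bar_ne w h2
    · apply hwb
      rw [← h2, h.bar_bar]
  have h2 := h.lam w {w, v} (Finset.mem_insert_self _ _) h1
  set F := (cut s t {v}).filter fun f => b f = b e with hF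
  have hFv : F ⊆ cut s t {v} := Finset.filter_subset _ _
  have hFw : F ⊆ cut s t {w} := by
    intro f hf
    exact hb.par e f (Finset.mem_filter.1 hf).2.symm w hew
  have h3 : cut s t {w, v} ⊆ (cut s t {v} \ F) ∪ (cut s t {w} \ F) := by
    intro f hf
    have hfF : f ∉ F := by
      intro h4
      have h5 := (mem_star h.hl).1 (hFv h4)
      have h6 := (mem_star h.hl).1 (hFw h4)
      rw [mem_cut] at hf
      apply hf
      have h7 : s f ∈ ({w, v} : Finset V) := by
        rw [Finset.mem_insert, Finset.mem_singleton]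
        rcases h5 with h5 | h5
        · exact Or.inr h5
        · rcases h6 with h6 | h6
          · exact Or.inl h6
          · exact absurd (h6.symm.trans h5) hw
      have h8 : t f ∈ ({w, v} : Finset V) := by
        rw [Finset.mem_insert, Finset.mem_singleton]
        rcases h5 with h5 | h5
        · rcases h6 with h6 | h6
          · exact absurd (h6.symm.trans h5) hw
          · exact Or.inl h6
        · exact Or.inr h5
      exact iff_of_true h7 h8
    rw [mem_cut] at hf
    have h4 : s f ∈ ({w, v} : Finset V) ∨ t f ∈ ({w, v} : Finset V) := by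
      by_contra h5
      push Not at h5
      exact hf (iff_of_false h5.1 h5.2)
    rw [Finset.mem_insert, Finset.mem_singleton, Finset.mem_insert, Finset.mem_singleton] at h4
    rw [Finset.mem_union, Finset.mem_sdiff, Finset.mem_sdiff, mem_star h.hl, mem_star h.hl]
    tauto
  have h4 := Finset.card_le_card h3
  have h5 := Finset.card_union_le (cut s t {v} \ F) (cut s t {w} \ F)
  rw [Finset.card_sdiff_of_subset hFv, Finset.card_sdiff_of_subset hFw] at h5
  have h6 := Finset.card_le_card hFv
  have h7 := Finset.card_le_card hFw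
  unfold Dom at hd
  unfold dg at h2
  rw [← hF] at hd
  omega

theorem Cls.class_sig (h : Conn2 s t bar sig) {b : E → K} (hb : Cls s t sig b) {v : V} {e : E}
    (he : e ∈ cut s t {v}) :
    ((cut s t {bar v}).filter fun f => b f = b (sig v e)).card =
      ((cut s t {v}).filter fun f => b f = b e).card := by
  refine Finset.card_nbij' (sig (bar v)) (sig v) ?_ ?_ ?_ ?_
  · intro f hf
    have hf' := Finset.mem_filter.1 (Finset.mem_coe.1 hf)
    rw [Finset.mem_coe, Finset.mem_filter]
    refine ⟨(h.inv' v hf'.1).1, ?_⟩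
    have h3 := hb.sig (bar v) f hf'.1 (sig v e) (h.mem v e he) hf'.2
    rw [h.inv v e he] at h3
    exact h3
  · intro f hf
    have hf' := Finset.mem_filter.1 (Finset.mem_coe.1 hf)
    rw [Finset.mem_coe, Finset.mem_filter]
    exact ⟨h.mem v f hf'.1, hb.sig v f hf'.1 e he hf'.2⟩
  · intro f hf
    exact (h.inv' v (Finset.mem_filter.1 (Finset.mem_coe.1 hf)).1).2
  · intro f hf
    exact h.inv v f (Finset.mem_filter.1 (Finset.mem_coe.1 hf)).1

theorem Cls.dom_sig (h : Conn2 s t bar sig) {b : E → K} (hb : Cls s t sig b) {v : V} {e : E}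
    (he : e ∈ cut s t {v}) : Dom (cut s t {bar v}) b (sig v e) ↔ Dom (cut s t {v}) b e := by
  unfold Dom
  rw [Cls.class_sig h hb he]
  have h1 := h.dg_bar v
  unfold dg at h1
  rw [h1]

end Pool.Agent.Lib.MP_95bb8c_al.BU
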