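import Pool.Agent.Lib.MP_95bb8c_al.BU.LP
import Pool.Agent.Lib.MP_95bb8c_al.BU.Basic

set_option autoImplicit false
set_option linter.unusedSectionVars false

namespace Pool.Agent.Lib.MP_95bb8c_al.BU

open Finset

variable {V E K L : Type} [Fintype V] [DecidableEq V] [Fintype E] [DecidableEq E]
  [Fintype K] [DecidableEq K] [DecidableEq L]
variable {s t : E → V} {bar : V → V} {sig : V → E → E}

/-- the involution `bar` as an equivalence -/
def barEquiv (h : Conn2 s t bar sig) : V ≃ V := ⟨bar, bar, h.bar_bar, h.bar_bar⟩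

theorem sum_bar (h : Conn2 s t bar sig) {F : Type} [AddCommMonoid F] (G : V → F) :
    ∑ v, G (bar v) = ∑ v, G v :=
  Equiv.sum_comp (barEquiv h) G

theorem sum_star (h : Conn2 s t bar sig) {F : Type} [AddCommMonoid F] (v : V) (G : E → F) :
    ∑ e ∈ cut s t {v}, G (sig v e) = ∑ e ∈ cut s t {bar v}, G e := by
  refine Finset.sum_nbij' (sig v) (sig (bar v)) (fun e he => h.mem v e he)
    (fun e he => (h.inv' v he).1) (fun e he => h.inv v e he) (fun e he => (h.inv' v he).2)
    (fun e he => rfl)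

theorem sum_star2 (h : Conn2 s t bar sig) {F : Type} [AddCommMonoid F] (v : V) {e : E}
    (he : e ∈ cut s t {v}) (G : E → F) :
    ∑ f ∈ (cut s t {v}).erase e, G (sig v f) =
      ∑ f ∈ (cut s t {bar v}).erase (sig v e), G f := by
  refine Finset.sum_nbij' (sig v) (sig (bar v)) ?_ ?_ ?_ ?_ (fun e he => rfl)
  · intro f hf
    rw [Finset.mem_erase] at hf ⊢
    exact ⟨fun h1 => hf.1 (h.sig_inj v f hf.2 e he h1), h.mem v f hf.2⟩
  · intro f hf
    rw [Finset.mem_erase] at hf ⊢
    refine ⟨fun h1 => hf.1 ?_, (h.inv' v hf.2).1⟩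
    rw [← h1, (h.inv' v hf.2).2]
  · intro f hf
    exact h.inv v f (Finset.mem_erase.1 hf).2
  · intro f hf
    exact (h.inv' v (Finset.mem_erase.1 hf).2).2

/-- Reindexing all turns by the connecting maps. -/
theorem sum_turns (h : Conn2 s t bar sig) {F : Type} [AddCommMonoid F] (G : V → E → E → F) :
    ∑ v, ∑ e ∈ cut s t {v}, ∑ f ∈ (cut s t {v}).erase e, G (bar v) (sig v e) (sig v f) =
      ∑ v, ∑ e ∈ cut s t {v}, ∑ f ∈ (cut s t {v}).erase e, G v e f := by
  rw [← sum_bar h (fun v => ∑ e ∈ cut s t {v}, ∑ f ∈ (cut s t {v}).erase e, G v e f)]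
  refine Finset.sum_congr rfl fun v _ => ?_
  rw [← sum_star h v]
  refine Finset.sum_congr rfl fun e he => ?_
  rw [← sum_star2 h v he]

/-- Sums over pairs of classes are sums over all turns. -/
theorem sum_classes {F : Type} [CommRing F] (D : Finset E) (b : E → K) (g : K → K → F)
    (x : E → E → F) :
    ∑ k, ∑ k', g k k' * ∑ e ∈ D.filter (fun e => b e = k),
      ∑ f ∈ (D.filter (fun f => b f = k')).erase e, x e f =
    ∑ e ∈ D, ∑ f ∈ D.erase e, g (b e) (b f) * x e f := by
  have h1 : ∀ e ∈ D, ∑ f ∈ D.erase e, g (b e) (b f) * x e f =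
      ∑ k', ∑ f ∈ (D.filter (fun f => b f = k')).erase e, g (b e) k' * x e f := by
    intro e _
    rw [← Finset.sum_fiberwise (D.erase e) b]
    refine Finset.sum_congr rfl fun k' _ => ?_
    have h2 : (D.erase e).filter (fun f => b f = k') = (D.filter (fun f => b f = k')).erase e := by
      ext f
      simp only [Finset.mem_filter, Finset.mem_erase]
      tauto
    rw [h2]
    refine Finset.sum_congr rfl fun f hf => ?_
    rw [Finset.mem_erase, Finset.mem_filter] at hf
    rw [hf.2.2]
  rw [Finset.sum_congr rfl h1, ← Finset.sum_fiberwise D b]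
  refine Finset.sum_congr rfl fun k _ => ?_
  rw [Finset.sum_comm]
  refine Finset.sum_congr rfl fun k' _ => ?_
  rw [Finset.mul_sum]
  refine Finset.sum_congr rfl fun e he => ?_
  rw [Finset.mem_filter] at he
  rw [Finset.mul_sum, he.2]

/-- The turns of a cycle at a vertex, weighted by a function of the first edge. -/
theorem turn_sum {C : Finset E} (hC : IsCycle s t C) (v : V) (A : E → ℝ) :
    ∑ e ∈ cut s t {v}, ∑ f ∈ (cut s t {v}).erase e, (if e ∈ C ∧ f ∈ C then A e else 0) =
      ∑ e ∈ cut s t {v}, if e ∈ C then A e else 0 := by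
  refine Finset.sum_congr rfl fun e he => ?_
  by_cases heC : e ∈ C
  · rw [if_pos heC]
    have h1 : (C ∩ cut s t {v}).card = 2 := by
      rcases hC.deg v with h | h
      · exact absurd (Finset.card_eq_zero.1 h)
          (Finset.nonempty_iff_ne_empty.1 ⟨e, Finset.mem_inter.2 ⟨heC, he⟩⟩)
      · exact h
    have h2 : ∀ f ∈ (cut s t {v}).erase e, (if e ∈ C ∧ f ∈ C then A e else 0) =
        if f ∈ C then A e else 0 := by
      intro f _
      simp [heC]
    rw [Finset.sum_congr rfl h2, ← Finset.sum_filter, Finset.sum_const]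
    have h3 : ((cut s t {v}).erase e).filter (fun f => f ∈ C) = (C ∩ cut s t {v}).erase e := by
      ext f
      simp only [Finset.mem_filter, Finset.mem_erase, Finset.mem_inter]
      tauto
    rw [h3, Finset.card_erase_of_mem (Finset.mem_inter.2 ⟨heC, he⟩), h1]
    simp
  · simp [heC]

/-- Swapping the two edges of a turn. -/
theorem swap_turns {F : Type} [AddCommMonoid F] (D : Finset E) (G : E → E → F) :
    ∑ e ∈ D, ∑ f ∈ D.erase e, G e f = ∑ e ∈ D, ∑ f ∈ D.erase e, G f e := by
  refine Finset.sum_comm' ?_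
  intro e f
  simp only [Finset.mem_erase]
  constructor
  · rintro ⟨h1, h2, h3⟩
    exact ⟨⟨fun h => h2 h.symm, h1⟩, h3⟩
  · rintro ⟨⟨h1, h2⟩, h3⟩
    exact ⟨h2, fun h => h1 h.symm, h3⟩

/-- The dual estimate: for real costs that vanish at `X` there is an allowed law with nonpositive
total cost. -/
theorem exists_law_nonpos₀ [Nonempty L] (h : Conn2 s t bar sig) (pos : V → Bool)
    (hpos : ∀ v, pos (bar v) = !pos v) {b : E → K} (hb : Cls s t sig b) {X : Finset V}
    (hX : ∀ v ∈ X, bar v ∈ X) (hstar : StarX L s t sig X)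
    (hpot : ∀ v, v ∉ X → PotH L (cut s t {v}) b) (g : V → K → K → ℝ)
    (hg : ∀ v ∈ X, ∀ k k', g v k k' = 0) :
    ∃ u : Finset E → ℚ, ALaw s t b X u ∧ (∀ v ∈ X, ∀ e ∈ cut s t {v}, ∀ f ∈ cut s t {v}, e ≠ f →
        pw u e f = pw u (sig v e) (sig v f)) ∧
      ∑ C, (u C : ℝ) * (∑ v, ∑ e ∈ cut s t {v}, ∑ f ∈ (cut s t {v}).erase e,
        g v (b e) (b f) * ((if e ∈ C ∧ f ∈ C then 1 else 0) -
          (if sig v e ∈ C ∧ sig v f ∈ C then 1 else 0))) ≤ 0 := by
  classical
  set a : V → E → E → ℝ := fun v e f =>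
    g v (b e) (b f) - g (bar v) (b (sig v e)) (b (sig v f)) with ha
  set c : V → E → E → ℝ := fun v e f => a v e f + a v f e with hc
  have hanti : ∀ v, ∀ e ∈ cut s t {v}, ∀ f ∈ cut s t {v},
      a (bar v) (sig v e) (sig v f) = - a v e f := by
    intro v e he f hf
    simp only [ha]
    rw [h.bar_bar, h.inv v e he, h.inv v f hf]
    ring
  have hcanti : ∀ v, ∀ e ∈ cut s t {v}, ∀ f ∈ cut s t {v},
      c (bar v) (sig v e) (sig v f) = - c v e f := by
    intro v e he f hf
    simp only [hc]
    rw [hanti v e he f hf, hanti v f hf e he]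
    ring
  have hinv : ∀ v, ∀ e ∈ cut s t {v}, ∀ e' ∈ cut s t {v}, ∀ f ∈ cut s t {v},
      ∀ f' ∈ cut s t {v}, b e = b e' → b f = b f' → a v e f = a v e' f' := by
    intro v e he e' he' f hf f' hf' h1 h2
    simp only [ha]
    rw [h1, h2, hb.sig v e he e' he' h1, hb.sig v f hf f' hf' h2]
  have hX' : ∀ v, v ∉ X → bar v ∉ X := by
    intro v hv h1
    apply hv
    have h2 := hX _ h1
    rw [h.bar_bar] at h2
    exact h2
  have hP := fun v (hv : v ∉ X) => hpot v hv (c v) (fun e _ f _ => by simp only [hc]; ring)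
    (fun e he e' he' f hf f' hf' h1 h2 => by
      simp only [hc]
      rw [hinv v e he e' he' f hf f' hf' h1 h2, hinv v f hf f' hf' e he e' he' h2 h1])
  choose! α P Q hP1 hQ1 hP2 hQ2 using hP
  set A : V → E → ℝ := fun v e =>
    if v ∈ X then 0 else if pos v then α v e else - α (bar v) (sig v e) with hA
  set π : V → E → L := fun v e => if pos v then P v e else Q (bar v) (sig v e) with hπ
  have hacross : ∀ v, v ∉ X → ∀ e ∈ cut s t {v}, ∀ f ∈ cut s t {v}, π v e ≠ π v f →
      c v e f ≤ A v e + A v f ∧ (b e = b f → Dom (cut s t {v}) b e) := by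
    intro v hvX e he f hf hne
    by_cases hv : pos v = true
    · simp only [hπ, hA, hv, hvX, if_true, if_false] at hne ⊢
      exact hP2 v hvX e he f hf hne
    · simp only [hπ, hA, hv, hvX] at hne ⊢
      simp only [Bool.false_eq_true, if_false] at hne ⊢
      have h1 := hQ2 (bar v) (hX' v hvX) (sig v e) (h.mem v e he) (sig v f) (h.mem v f hf) hne
      rw [hcanti v e he f hf] at h1
      refine ⟨by linarith [h1.1], fun h2 => ?_⟩
      exact (Cls.dom_sig h hb he).1 (h1.2 (hb.sig v e he f hf h2))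
  have hparts : ∀ v, v ∉ X → ∀ l, 2 * (part s t π v l).card ≤ dg s t v := by
    intro v hvX l
    by_cases hv : pos v = true
    · have h1 : part s t π v l = (cut s t {v}).filter fun e => P v e = l := by
        unfold part
        refine Finset.filter_congr fun e _ => ?_
        simp only [hπ, hv, if_true]
      rw [h1]
      exact hP1 v hvX l
    · have h1 : part s t π v l = (cut s t {v}).filter fun e => Q (bar v) (sig v e) = l := by
        unfold part
        refine Finset.filter_congr fun e _ => ?_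
        simp only [hπ, hv]
        simp
      have h2 : ((cut s t {v}).filter fun e => Q (bar v) (sig v e) = l).card ≤
          ((cut s t {bar v}).filter fun e => Q (bar v) e = l).card := by
        apply Finset.card_le_card_of_injOn (sig v)
        · intro e he
          have he' := Finset.mem_filter.1 he
          exact Finset.mem_filter.2 ⟨h.mem v e he'.1, he'.2⟩
        · intro e he f hf hef
          have he' := Finset.mem_filter.1 he
          have hf' := Finset.mem_filter.1 hf
          exact h.sig_inj v e he'.1 f hf'.1 hef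
      rw [h1]
      have h3 := hQ1 (bar v) (hX' v hvX) l
      have h4 := h.dg_bar v
      unfold dg at h4 ⊢
      omega
  obtain ⟨u, hu0, hu1, hu2, hu3⟩ := hstar π hparts
  have hlaw : ALaw s t b X u := by
    refine ⟨hu0, fun C hC => ⟨(hu1 C hC).1, ?_⟩, hu2⟩
    intro v hv e he f hf hev hfv hef hbef
    exact (hacross v hv e hev f hfv ((hu1 C hC).2 v hv e he f hf hev hfv hef)).2 hbef
  refine ⟨u, hlaw, hu3, ?_⟩
  -- rewrite the cost of a cycle
  have hcost : ∀ C : Finset E, ∑ v, ∑ e ∈ cut s t {v}, ∑ f ∈ (cut s t {v}).erase e,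
      g v (b e) (b f) * ((if e ∈ C ∧ f ∈ C then (1 : ℝ) else 0) -
          (if sig v e ∈ C ∧ sig v f ∈ C then 1 else 0)) =
      ∑ v, ∑ e ∈ cut s t {v}, ∑ f ∈ (cut s t {v}).erase e,
        (if e ∈ C ∧ f ∈ C then a v e f else 0) := by
    intro C
    have h1 := sum_turns h (fun v e f => g (bar v) (b (sig v e)) (b (sig v f)) *
      (if e ∈ C ∧ f ∈ C then (1 : ℝ) else 0))
    have h2 : ∑ v, ∑ e ∈ cut s t {v}, ∑ f ∈ (cut s t {v}).erase e,
        g (bar (bar v)) (b (sig (bar v) (sig v e))) (b (sig (bar v) (sig v f))) *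
          (if sig v e ∈ C ∧ sig v f ∈ C then (1 : ℝ) else 0) =
        ∑ v, ∑ e ∈ cut s t {v}, ∑ f ∈ (cut s t {v}).erase e,
          g v (b e) (b f) * (if sig v e ∈ C ∧ sig v f ∈ C then (1 : ℝ) else 0) := by
      refine Finset.sum_congr rfl fun v _ => Finset.sum_congr rfl fun e he =>
        Finset.sum_congr rfl fun f hf => ?_
      rw [h.bar_bar, h.inv v e he, h.inv v f (Finset.mem_erase.1 hf).2]
    rw [h2] at h1
    simp_rw [mul_sub, Finset.sum_sub_distrib]
    rw [h1]
    rw [← Finset.sum_sub_distrib]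
    refine Finset.sum_congr rfl fun v _ => ?_
    rw [← Finset.sum_sub_distrib]
    refine Finset.sum_congr rfl fun e he => ?_
    rw [← Finset.sum_sub_distrib]
    refine Finset.sum_congr rfl fun f hf => ?_
    simp only [ha]
    split_ifs <;> ring
  -- the potentials are an upper bound for the cost of a cycle of the law
  have hle : ∀ C : Finset E, u C ≠ 0 →
      ∑ v, ∑ e ∈ cut s t {v}, ∑ f ∈ (cut s t {v}).erase e,
        (if e ∈ C ∧ f ∈ C then a v e f else 0) ≤
      ∑ v, ∑ e ∈ cut s t {v}, if e ∈ C then A v e else 0 := by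
    intro C hC
    refine Finset.sum_le_sum fun v _ => ?_
    by_cases hvX : v ∈ X
    · have h1 : ∀ e f, a v e f = 0 := by
        intro e f
        simp only [ha]
        rw [hg v hvX, hg (bar v) (hX v hvX), sub_zero]
      have h2 : ∀ e, A v e = 0 := by
        intro e
        simp only [hA]
        rw [if_pos hvX]
      simp [h1, h2]
    rw [← turn_sum (hu1 C hC).1 v (A v)]
    have h1 := swap_turns (cut s t {v}) (fun e f => if e ∈ C ∧ f ∈ C then a v e f else 0)
    have h2 := swap_turns (cut s t {v}) (fun e f => if e ∈ C ∧ f ∈ C then A v e else 0)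
    have h3 : ∑ e ∈ cut s t {v}, ∑ f ∈ (cut s t {v}).erase e,
        ((if e ∈ C ∧ f ∈ C then a v e f else 0) + (if f ∈ C ∧ e ∈ C then a v f e else 0)) ≤
        ∑ e ∈ cut s t {v}, ∑ f ∈ (cut s t {v}).erase e,
        ((if e ∈ C ∧ f ∈ C then A v e else 0) + (if f ∈ C ∧ e ∈ C then A v f else 0)) := by
      refine Finset.sum_le_sum fun e he => Finset.sum_le_sum fun f hf => ?_
      have hf' := Finset.mem_erase.1 hf
      by_cases hef : e ∈ C ∧ f ∈ C
      · have hef' : f ∈ C ∧ e ∈ C := ⟨hef.2, hef.1⟩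
        rw [if_pos hef, if_pos hef', if_pos hef, if_pos hef']
        exact (hacross v hvX e he f hf'.2
          ((hu1 C hC).2 v hvX e hef.1 f hef.2 he hf'.2 (fun h => hf'.1 h.symm))).1
      · have hef' : ¬ (f ∈ C ∧ e ∈ C) := fun h => hef ⟨h.2, h.1⟩
        rw [if_neg hef, if_neg hef', if_neg hef, if_neg hef']
    simp_rw [Finset.sum_add_distrib] at h3
    rw [← h1, ← h2] at h3
    linarith
  -- total potential
  have hT : ∀ v, ∑ e ∈ cut s t {bar v}, A (bar v) e = - ∑ e ∈ cut s t {v}, A v e := by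
    intro v
    rw [← sum_star h v, ← Finset.sum_neg_distrib]
    refine Finset.sum_congr rfl fun e he => ?_
    simp only [hA]
    rw [hpos v, h.bar_bar, h.inv v e he]
    by_cases hvX : v ∈ X
    · rw [if_pos hvX, if_pos (hX v hvX), neg_zero]
    rw [if_neg hvX, if_neg (hX' v hvX)]
    by_cases hv : pos v = true
    · simp [hv]
    · simp [hv]
  have hT0 : ∑ v, ∑ e ∈ cut s t {v}, A v e = 0 := by
    have h1 := sum_bar h (fun v => ∑ e ∈ cut s t {v}, A v e)
    simp_rw [hT, Finset.sum_neg_distrib] at h1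
    linarith
  have hmarg : ∀ e, ∑ C, (if e ∈ C then (u C : ℝ) else 0) = 1 := by
    intro e
    have h1 := congrArg (fun q : ℚ => (q : ℝ)) (hu2 e)
    simp only [Rat.cast_sum, Rat.cast_one] at h1
    refine (Finset.sum_congr rfl fun C _ => ?_).trans h1
    split_ifs <;> simp
  calc ∑ C, (u C : ℝ) * (∑ v, ∑ e ∈ cut s t {v}, ∑ f ∈ (cut s t {v}).erase e,
        g v (b e) (b f) * ((if e ∈ C ∧ f ∈ C then 1 else 0) -
          (if sig v e ∈ C ∧ sig v f ∈ C then 1 else 0)))
      = ∑ C, (u C : ℝ) * ∑ v, ∑ e ∈ cut s t {v}, ∑ f ∈ (cut s t {v}).erase e,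
        (if e ∈ C ∧ f ∈ C then a v e f else 0) :=
        Finset.sum_congr rfl fun C _ => by rw [hcost C]
    _ ≤ ∑ C, (u C : ℝ) * ∑ v, ∑ e ∈ cut s t {v}, (if e ∈ C then A v e else 0) := by
        refine Finset.sum_le_sum fun C _ => ?_
        by_cases hC : u C = 0
        · rw [hC]
          simp
        · exact mul_le_mul_of_nonneg_left (hle C hC) (by exact_mod_cast hu0 C)
    _ = ∑ v, ∑ e ∈ cut s t {v}, A v e * ∑ C, (if e ∈ C then (u C : ℝ) else 0) := by
        simp_rw [Finset.mul_sum]
        rw [Finset.sum_comm]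
        refine Finset.sum_congr rfl fun v _ => ?_
        rw [Finset.sum_comm]
        refine Finset.sum_congr rfl fun e _ => Finset.sum_congr rfl fun C _ => ?_
        split_ifs <;> ring
    _ = 0 := by
        simp_rw [hmarg, mul_one]
        exact hT0
    _ ≤ 0 := le_refl _

/-- The dual estimate: for real costs there is an allowed law with nonpositive total cost. -/
theorem exists_law_nonpos [Nonempty L] (h : Conn2 s t bar sig) (pos : V → Bool)
    (hpos : ∀ v, pos (bar v) = !pos v) {b : E → K} (hb : Cls s t sig b) {X : Finset V}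
    (hX : ∀ v ∈ X, bar v ∈ X) (hstar : StarX L s t sig X)
    (hpot : ∀ v, v ∉ X → PotH L (cut s t {v}) b) (g : V → K → K → ℝ) :
    ∃ u : Finset E → ℚ, ALaw s t b X u ∧
      ∑ C, (u C : ℝ) * (∑ v, ∑ e ∈ cut s t {v}, ∑ f ∈ (cut s t {v}).erase e,
        g v (b e) (b f) * ((if e ∈ C ∧ f ∈ C then 1 else 0) -
          (if sig v e ∈ C ∧ sig v f ∈ C then 1 else 0))) ≤ 0 := by
  obtain ⟨u, hu, hbal, hcost⟩ := exists_law_nonpos₀ h pos hpos hb hX hstar hpot
    (fun v k k' => if v ∈ X then 0 else g v k k') (fun v hv k k' => if_pos hv)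
  refine ⟨u, hu, ?_⟩
  have hpwr : ∀ e f, ((pw u e f : ℚ) : ℝ) = ∑ C, if e ∈ C ∧ f ∈ C then (u C : ℝ) else 0 := by
    intro e f
    unfold pw
    rw [Rat.cast_sum]
    refine Finset.sum_congr rfl fun C _ => ?_
    split_ifs <;> simp
  have hlin : ∀ G : V → K → K → ℝ, ∑ C, (u C : ℝ) * (∑ v, ∑ e ∈ cut s t {v},
      ∑ f ∈ (cut s t {v}).erase e, G v (b e) (b f) * ((if e ∈ C ∧ f ∈ C then 1 else 0) -
          (if sig v e ∈ C ∧ sig v f ∈ C then 1 else 0))) =
      ∑ v, ∑ e ∈ cut s t {v}, ∑ f ∈ (cut s t {v}).erase e,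
        G v (b e) (b f) * (((pw u e f : ℚ) : ℝ) - ((pw u (sig v e) (sig v f) : ℚ) : ℝ)) := by
    intro G
    simp_rw [Finset.mul_sum]
    rw [Finset.sum_comm]
    refine Finset.sum_congr rfl fun v _ => ?_
    rw [Finset.sum_comm]
    refine Finset.sum_congr rfl fun e _ => ?_
    rw [Finset.sum_comm]
    refine Finset.sum_congr rfl fun f _ => ?_
    rw [hpwr, hpwr, ← Finset.sum_sub_distrib, Finset.mul_sum]
    refine Finset.sum_congr rfl fun C _ => ?_
    split_ifs <;> ring
  rw [hlin (fun v k k' => if v ∈ X then 0 else g v k k')] at hcost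
  rw [hlin g]
  refine le_trans (le_of_eq ?_) hcost
  refine Finset.sum_congr rfl fun v _ => Finset.sum_congr rfl fun e he =>
    Finset.sum_congr rfl fun f hf => ?_
  rw [Finset.mem_erase] at hf
  by_cases hv : v ∈ X
  · have h1 := hbal v hv e he f hf.2 (fun h1 => hf.1 h1.symm)
    rw [h1]
    ring
  · rw [if_neg hv]

/-- A law on allowed cycles which is balanced on the level of classes. -/
theorem class_law [Nonempty L] (h : Conn2 s t bar sig) (pos : V → Bool)
    (hpos : ∀ v, pos (bar v) = !pos v) {b : E → K} (hb : Cls s t sig b) {X : Finset V}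
    (hX : ∀ v ∈ X, bar v ∈ X) (hstar : StarX L s t sig X)
    (hpot : ∀ v, v ∉ X → PotH L (cut s t {v}) b) :
    ∃ u : Finset E → ℚ, ALaw s t b X u ∧ ∀ v (k k' : K),
      ∑ e ∈ (cut s t {v}).filter (fun e => b e = k),
        ∑ f ∈ ((cut s t {v}).filter (fun f => b f = k')).erase e,
          (pw u e f - pw u (sig v e) (sig v f)) = 0 := by
  classical
  let Ω : Type := {C : Finset E // IsCycle s t C ∧ Allowed s t b X C}
  have hsum : ∀ {F : Type} [AddCommMonoid F] (G : Finset E → F),
      (∀ C, ¬ (IsCycle s t C ∧ Allowed s t b X C) → G C = 0) → ∑ C : Ω, G C.1 = ∑ C, G C := by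
    intro F _ G hG
    rw [← Finset.sum_filter_add_sum_filter_not univ
      (fun C => IsCycle s t C ∧ Allowed s t b X C) G]
    rw [Finset.sum_eq_zero (s := univ.filter fun C => ¬ (IsCycle s t C ∧ Allowed s t b X C))
      (fun C hC => hG C (Finset.mem_filter.1 hC).2), add_zero]
    exact (Finset.sum_subtype (univ.filter fun C => IsCycle s t C ∧ Allowed s t b X C)
      (fun C => by simp) G).symm
  let M : E → Ω → ℚ := fun e C => if e ∈ C.1 then 1 else 0
  let Y : V → E → E → Finset E → ℚ := fun v e f C =>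
    (if e ∈ C ∧ f ∈ C then 1 else 0) - (if sig v e ∈ C ∧ sig v f ∈ C then 1 else 0)
  let B : (V × K × K) → Ω → ℚ := fun j C =>
    ∑ e ∈ (cut s t {j.1}).filter (fun e => b e = j.2.1),
      ∑ f ∈ ((cut s t {j.1}).filter (fun f => b f = j.2.2)).erase e, Y j.1 e f C.1
  obtain ⟨μ, hμ0, hμ1, hμ2⟩ := lp_dual M B
    (by
      intro e C
      simp only [M]
      split_ifs <;> norm_num)
    (by
      intro C
      obtain ⟨e, he⟩ := C.2.1.nonempty
      exact ⟨e, by simp [M, he]⟩)
    (by
      intro ℓ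
      obtain ⟨u, hu, hcost⟩ := exists_law_nonpos h pos hpos hb hX hstar hpot
        (fun v k k' => ℓ (v, k, k'))
      refine ⟨fun C => (u C.1 : ℝ), fun C => ?_, ?_, ?_⟩
      · show (0 : ℝ) ≤ ((u C.1 : ℚ) : ℝ)
        exact_mod_cast hu.nonneg C.1
      · intro e
        have h1 := hsum (fun C => ((if e ∈ C then u C else 0 : ℚ) : ℝ)) (by
          intro C hC
          have : u C = 0 := by
            by_contra h2
            exact hC (hu.cyc C h2)
          simp [this])
        have h2 := congrArg (fun q : ℚ => (q : ℝ)) (hu.marg e)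
        push_cast at h2 h1
        rw [← h1] at h2
        rw [← h2]
        refine Finset.sum_congr rfl fun C _ => ?_
        simp only [M]
        split_ifs <;> simp
      · have h1 := hsum (fun C => (u C : ℝ) * (∑ v, ∑ e ∈ cut s t {v},
          ∑ f ∈ (cut s t {v}).erase e, ℓ (v, b e, b f) *
            ((if e ∈ C ∧ f ∈ C then 1 else 0) -
              (if sig v e ∈ C ∧ sig v f ∈ C then 1 else 0)))) (by
          intro C hC
          have : u C = 0 := by
            by_contra h2
            exact hC (hu.cyc C h2)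
          simp [this])
        rw [← h1] at hcost
        refine le_trans (le_of_eq ?_) hcost
        refine Finset.sum_congr rfl fun C _ => ?_
        congr 1
        rw [Fintype.sum_prod_type]
        refine Finset.sum_congr rfl fun v _ => ?_
        rw [Fintype.sum_prod_type]
        rw [← sum_classes (cut s t {v}) b (fun k k' => ℓ (v, k, k'))
          (fun e f => (if e ∈ C.1 ∧ f ∈ C.1 then (1 : ℝ) else 0) -
            (if sig v e ∈ C.1 ∧ sig v f ∈ C.1 then 1 else 0))]
        refine Finset.sum_congr rfl fun k _ => Finset.sum_congr rfl fun k' _ => ?_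
        simp only [B, Y]
        congr 1
        rw [Rat.cast_sum]
        refine Finset.sum_congr rfl fun e _ => ?_
        rw [Rat.cast_sum]
        refine Finset.sum_congr rfl fun f _ => ?_
        split_ifs <;> simp)
  let u : Finset E → ℚ := fun C =>
    if hC : IsCycle s t C ∧ Allowed s t b X C then μ ⟨C, hC⟩ else 0
  have hu : ∀ C : Ω, u C.1 = μ C := by
    intro C
    simp only [u]
    rw [dif_pos C.2]
  have hu' : ∀ C, ¬ (IsCycle s t C ∧ Allowed s t b X C) → u C = 0 := by
    intro C hC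
    simp only [u]
    rw [dif_neg hC]
  refine ⟨u, ⟨?_, ?_, ?_⟩, ?_⟩
  · intro C
    by_cases hC : IsCycle s t C ∧ Allowed s t b X C
    · rw [hu ⟨C, hC⟩]
      exact hμ0 _
    · rw [hu' C hC]
  · intro C hC
    by_contra h2
    exact hC (hu' C h2)
  · intro e
    rw [← hsum (fun C => if e ∈ C then u C else 0) (by
      intro C hC
      simp [hu' C hC]), ← hμ1 e]
    refine Finset.sum_congr rfl fun C _ => ?_
    simp only [M, hu]
    split_ifs <;> ring
  · intro v k k'
    rw [← hμ2 (v, k, k')]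
    have h1 : ∀ e f, pw u e f - pw u (sig v e) (sig v f) = ∑ C : Ω, Y v e f C.1 * μ C := by
      intro e f
      unfold pw
      rw [← Finset.sum_sub_distrib]
      rw [← hsum (fun C => (if e ∈ C ∧ f ∈ C then u C else 0) -
        (if sig v e ∈ C ∧ sig v f ∈ C then u C else 0)) (by
          intro C hC
          simp [hu' C hC])]
      refine Finset.sum_congr rfl fun C _ => ?_
      simp only [Y, hu]
      split_ifs <;> ring
    have h2 : ∀ (S : Finset E) (T : E → Finset E) (G : E → E → Ω → ℚ),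
        ∑ e ∈ S, ∑ f ∈ T e, ∑ C, G e f C = ∑ C, ∑ e ∈ S, ∑ f ∈ T e, G e f C := by
      intro S T G
      rw [Finset.sum_comm (s := univ)]
      refine Finset.sum_congr rfl fun e _ => ?_
      rw [Finset.sum_comm]
    simp_rw [h1]
    rw [h2]
    refine Finset.sum_congr rfl fun C _ => ?_
    simp only [B]
    rw [Finset.sum_mul]
    refine Finset.sum_congr rfl fun e _ => ?_
    rw [Finset.sum_mul]

end Pool.Agent.Lib.MP_95bb8c_al.BU
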