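import Pool.Agent.Lib.MP_95bb8c_al.OE.ListOf
import Pool.Agent.Lib.MP_95bb8c_al.OE.Exact

set_option autoImplicit false
set_option linter.unusedSectionVars false

/-!
# Definitions for the theorem on few readings
-/

namespace Pool.Agent.Lib.MP_95bb8c_al.BU

open Finset

section Gadget

variable {V E : Type} [Fintype V] [DecidableEq V] [Fintype E] [DecidableEq E]

/-- Seymour's cut condition: in each cut no edge weighs more than all others together. -/
def CutCond (s t : E → V) (y : E → ℚ) : Prop :=
  ∀ S : Finset V, ∀ e ∈ cut s t S, y e ≤ ∑ f ∈ (cut s t S).erase e, y f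

end Gadget

section Star

variable {V E L : Type} [Fintype V] [DecidableEq V] [Fintype E] [DecidableEq E]
  [Fintype L] [DecidableEq L]

/-- The part `l` of the partition of the edges at `v`. -/
def part (s t : E → V) (π : V → E → L) (v : V) (l : L) : Finset E :=
  (cut s t {v}).filter fun e => π v e = l

/-- The vertices of the star graph: the hubs and the leaves. -/
abbrev SV (V L : Type) : Type := V ⊕ (V × L)

/-- The edges of the star graph: the old edges and one edge for each leaf. -/
abbrev SE (V E L : Type) : Type := E ⊕ (V × L)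

/-- First endpoints in the star graph. -/
def ss (s : E → V) (π : V → E → L) : SE V E L → SV V L :=
  Sum.elim (fun e => Sum.inr (s e, π (s e) e)) (fun p => Sum.inl p.1)

/-- Second endpoints in the star graph. -/
def st (t : E → V) (π : V → E → L) : SE V E L → SV V L :=
  Sum.elim (fun e => Sum.inr (t e, π (t e) e)) (fun p => Sum.inr p)

/-- The weights in the star graph: a leaf edge weighs as much as its part. -/
def sy (s t : E → V) (π : V → E → L) : SE V E L → ℚ :=
  Sum.elim (fun _ => 1) (fun p => ((part s t π p.1 p.2).card : ℚ))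

/-- Each vertex has a partner from which it is separated only by cuts that are at least as large
as its degree. -/
def WGood (s t : E → V) : Prop :=
  ∀ v, ∃ w, w ≠ v ∧ ∀ S : Finset V, v ∈ S → w ∉ S → dg s t v ≤ (cut s t S).card

end Star

section Potentials

variable {E K L : Type} [DecidableEq E] [DecidableEq K] [DecidableEq L]

/-- The class of `e` is more than half of `D`. -/
def Dom (D : Finset E) (b : E → K) (e : E) : Prop :=
  D.card < 2 * (D.filter fun f => b f = b e).card

/-- For all costs of pairs of classes there are potentials and two partitions of `D` into parts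
with at most half of the elements, such that the reduced costs are `≤ 0` across the first and
`≥ 0` across the second; classes are only split if they are more than half of `D`. -/
def PotH (L : Type) [DecidableEq L] (D : Finset E) (b : E → K) : Prop :=
  ∀ c : E → E → ℝ, (∀ e ∈ D, ∀ f ∈ D, c e f = c f e) →
    (∀ e ∈ D, ∀ e' ∈ D, ∀ f ∈ D, ∀ f' ∈ D, b e = b e' → b f = b f' → c e f = c e' f') →
    ∃ (α : E → ℝ) (P Q : E → L),
      (∀ l, 2 * (D.filter fun e => P e = l).card ≤ D.card) ∧
      (∀ l, 2 * (D.filter fun e => Q e = l).card ≤ D.card) ∧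
      (∀ e ∈ D, ∀ f ∈ D, P e ≠ P f → c e f ≤ α e + α f ∧ (b e = b f → Dom D b e)) ∧
      ∀ e ∈ D, ∀ f ∈ D, Q e ≠ Q f → α e + α f ≤ c e f ∧ (b e = b f → Dom D b e)

end Potentials

section Laws

variable {V E K : Type} [Fintype V] [DecidableEq V] [Fintype E] [DecidableEq E]
  [DecidableEq K]

/-- A cycle is allowed if it does not turn inside a class, except in classes which are more than
half of the edges at the vertex, and except at the vertices of `X`. -/
def Allowed (s t : E → V) (b : E → K) (X : Finset V) (C : Finset E) : Prop :=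
  ∀ v, v ∉ X → ∀ e ∈ C, ∀ f ∈ C, e ∈ cut s t {v} → f ∈ cut s t {v} → e ≠ f → b e = b f →
    Dom (cut s t {v}) b e

/-- A rational law on allowed cycles in which each edge has weight `1`. -/
structure ALaw (s t : E → V) (b : E → K) (X : Finset V) (u : Finset E → ℚ) : Prop where
  nonneg : ∀ C, 0 ≤ u C
  cyc : ∀ C, u C ≠ 0 → IsCycle s t C ∧ Allowed s t b X C
  marg : ∀ e, ∑ C, (if e ∈ C then u C else 0) = 1

/-- The weight of the cycles through `e` and `f`. -/
def pw {F : Type} [AddCommMonoid F] (u : Finset E → F) (e f : E) : F :=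
  ∑ C, if e ∈ C ∧ f ∈ C then u C else 0

/-- For all partitions at the vertices outside `X`, in which each part is at most half of the edges,
there is a law on cycles which never turn inside a part outside `X`, in which each edge has weight
`1`, and which is balanced at the vertices of `X`. -/
def StarX (L : Type) [DecidableEq L] (s t : E → V) (sig : V → E → E)
    (X : Finset V) : Prop :=
  ∀ π : V → E → L, (∀ v, v ∉ X → ∀ l, 2 * (part s t π v l).card ≤ dg s t v) →
    ∃ u : Finset E → ℚ, (∀ C, 0 ≤ u C) ∧
      (∀ C, u C ≠ 0 → IsCycle s t C ∧ ∀ v, v ∉ X → ∀ e ∈ C, ∀ f ∈ C, e ∈ cut s t {v} →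
        f ∈ cut s t {v} → e ≠ f → π v e ≠ π v f) ∧
      (∀ e, ∑ C, (if e ∈ C then u C else 0) = 1) ∧
      ∀ v ∈ X, ∀ e ∈ cut s t {v}, ∀ f ∈ cut s t {v}, e ≠ f →
        pw u e f = pw u (sig v e) (sig v f)

/-- A connecting map: the data of the involution `bar` and the bijections `sig`. -/
structure Conn2 (s t : E → V) (bar : V → V) (sig : V → E → E) : Prop where
  hl : ∀ e, s e ≠ t e
  bar_bar : ∀ v, bar (bar v) = v
  bar_ne : ∀ v, bar v ≠ v
  mem : ∀ v, ∀ e ∈ cut s t {v}, sig v e ∈ cut s t {bar v}
  inv : ∀ v, ∀ e ∈ cut s t {v}, sig (bar v) (sig v e) = e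
  lam : ∀ v S, v ∈ S → bar v ∉ S → dg s t v ≤ (cut s t S).card

/-- Classes of edges: the edges of a class are parallel, and the classes are stable under `sig`. -/
structure Cls (s t : E → V) (sig : V → E → E) (b : E → K) : Prop where
  par : ∀ e f, b e = b f → ∀ v, e ∈ cut s t {v} → f ∈ cut s t {v}
  sig : ∀ v, ∀ e ∈ cut s t {v}, ∀ f ∈ cut s t {v}, b e = b f → b (sig v e) = b (sig v f)

end Laws

end Pool.Agent.Lib.MP_95bb8c_al.BU
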