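import Pool.Agent.Lib.MP_95bb8c_al.Law

set_option autoImplicit false

namespace Pool.Agent.Lib.MP_95bb8c_al.BU

open Finset

variable {V E : Type} [Fintype V] [DecidableEq V] [Fintype E] [DecidableEq E]
variable {s t : E → V}

/-- Handshake for a set of edges of a loopless multigraph. -/
theorem handshake (hl : ∀ e, s e ≠ t e) (Z : Finset E) :
    ∑ v, (Z ∩ cut s t {v}).card = 2 * Z.card := by
  have h1 : ∀ v, (Z ∩ cut s t {v}).card = ∑ e ∈ Z, (if e ∈ cut s t {v} then 1 else 0) := by
    intro v
    rw [← Finset.filter_mem_eq_inter, Finset.card_filter]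
  simp_rw [h1]
  rw [Finset.sum_comm, Finset.card_eq_sum_ones, Finset.mul_sum]
  apply Finset.sum_congr rfl
  intro e _
  have h2 : ∀ v, (if e ∈ cut s t {v} then 1 else 0) =
      (if v = s e then 1 else 0) + (if v = t e then 1 else 0) := by
    intro v
    simp only [mem_cut_singleton]
    have := hl e
    by_cases h3 : v = s e <;> by_cases h4 : v = t e <;> simp_all [eq_comm]
  simp_rw [h2]
  rw [Finset.sum_add_distrib]
  simp

/-- A set of edges in which each nonempty subset has a vertex of degree one is a forest. -/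
theorem forest_card (hl : ∀ e, s e ≠ t e) : ∀ (k : ℕ) (F : Finset E), F.card = k → F.Nonempty →
    (∀ Z ⊆ F, Z.Nonempty → ∃ v, (Z ∩ cut s t {v}).card = 1) →
    F.card + 1 ≤ (univ.filter fun v => (F ∩ cut s t {v}).Nonempty).card := by
  intro k
  induction k with
  | zero =>
    intro F hk hne
    rw [Finset.card_eq_zero] at hk
    simp [hk] at hne
  | succ k IH =>
    intro F hk hne hF
    obtain ⟨v, hv⟩ := hF F subset_rfl hne
    obtain ⟨f, hf⟩ := Finset.card_eq_one.mp hv
    have hfF : f ∈ F ∩ cut s t {v} := by rw [hf]; simp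
    rw [Finset.mem_inter] at hfF
    have hk' : (F.erase f).card = k := by
      rw [Finset.card_erase_of_mem hfF.1, hk]; rfl
    have hvF : (F.erase f ∩ cut s t {v}) = ∅ := by
      rw [Finset.eq_empty_iff_forall_notMem]
      intro e he
      rw [Finset.mem_inter, Finset.mem_erase] at he
      have : e ∈ F ∩ cut s t {v} := Finset.mem_inter.mpr ⟨he.1.2, he.2⟩
      rw [hf, Finset.mem_singleton] at this
      exact he.1.1 this
    rcases (F.erase f).eq_empty_or_nonempty with h0 | h0
    · have h1 : F.card = 1 := by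
        have := Finset.card_erase_of_mem hfF.1
        rw [h0] at this
        simp at this
        have h2 := Finset.card_pos.mpr hne
        omega
      rw [h1]
      have h2 : ({s f, t f} : Finset V) ⊆ univ.filter fun v => (F ∩ cut s t {v}).Nonempty := by
        intro w hw
        rw [Finset.mem_insert, Finset.mem_singleton] at hw
        rw [Finset.mem_filter]
        refine ⟨Finset.mem_univ _, f, ?_⟩
        rw [Finset.mem_inter]
        refine ⟨hfF.1, ?_⟩
        rcases hw with rfl | rfl
        · exact mem_cut_s (hl f)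
        · exact mem_cut_t (hl f)
      have h3 := Finset.card_le_card h2
      rw [Finset.card_pair (hl f)] at h3
      exact h3
    · have h1 := IH (F.erase f) hk' h0 fun Z hZ hZn =>
        hF Z (hZ.trans (Finset.erase_subset _ _)) hZn
      have h2 : (univ.filter fun w => (F.erase f ∩ cut s t {w}).Nonempty) ⊆
          (univ.filter fun w => (F ∩ cut s t {w}).Nonempty).erase v := by
        intro w hw
        rw [Finset.mem_filter] at hw
        rw [Finset.mem_erase, Finset.mem_filter]
        refine ⟨?_, Finset.mem_univ _, ?_⟩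
        · rintro rfl
          rw [hvF] at hw
          simp at hw
        · exact hw.2.mono (Finset.inter_subset_inter_right (Finset.erase_subset _ _))
      have h3 := Finset.card_le_card h2
      have h4 : v ∈ (univ.filter fun w => (F ∩ cut s t {w}).Nonempty) := by
        rw [Finset.mem_filter]
        exact ⟨Finset.mem_univ _, f, Finset.mem_inter.mpr hfF⟩
      rw [Finset.card_erase_of_mem h4] at h3
      have h5 := Finset.card_pos.mpr ⟨v, h4⟩
      omega

/-- A nonempty set of edges without vertices of degree one contains a nonempty set with all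
degrees `0` or `2`. -/
theorem exists_deg02 (hl : ∀ e, s e ≠ t e) (X : Finset E) (hne : X.Nonempty)
    (hX : ∀ v, (X ∩ cut s t {v}).card ≠ 1) : ∃ Z ⊆ X, Z.Nonempty ∧ Deg02 s t Z := by
  classical
  obtain ⟨Z, hZ, hmin⟩ := Finset.exists_min_image
    (X.powerset.filter fun Y => Y.Nonempty ∧ ∀ v, (Y ∩ cut s t {v}).card ≠ 1) Finset.card
    ⟨X, Finset.mem_filter.mpr ⟨Finset.mem_powerset_self X, hne, hX⟩⟩
  rw [Finset.mem_filter, Finset.mem_powerset] at hZ
  obtain ⟨hZX, hZne, hZ1⟩ := hZ
  refine ⟨Z, hZX, hZne, ?_⟩
  obtain ⟨e, he⟩ := hZne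
  have hsub : ∀ Y ⊆ Z.erase e, Y.Nonempty → ∃ v, (Y ∩ cut s t {v}).card = 1 := by
    intro Y hY hYn
    by_contra hcon
    push Not at hcon
    have h1 := hmin Y (Finset.mem_filter.mpr ⟨Finset.mem_powerset.mpr
      ((hY.trans (Finset.erase_subset _ _)).trans hZX), hYn, hcon⟩)
    have h2 := Finset.card_le_card hY
    rw [Finset.card_erase_of_mem he] at h2
    have h3 := Finset.card_pos.mpr ⟨e, he⟩
    omega
  have hF : (Z.erase e).Nonempty := by
    rw [Finset.nonempty_iff_ne_empty]
    intro h
    have h1 : Z = {e} := by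
      ext x
      rw [Finset.mem_singleton]
      constructor
      · intro hx
        by_contra hxe
        have : x ∈ Z.erase e := Finset.mem_erase.mpr ⟨hxe, hx⟩
        rw [h] at this
        simp at this
      · rintro rfl
        exact he
    apply hZ1 (s e)
    rw [h1, Finset.card_eq_one]
    refine ⟨e, ?_⟩
    ext x
    rw [Finset.mem_inter, Finset.mem_singleton]
    constructor
    · exact fun h => h.1
    · rintro rfl
      exact ⟨rfl, mem_cut_s (hl x)⟩
  have h1 := forest_card hl _ (Z.erase e) rfl hF hsub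
  have h2 : (univ.filter fun w => (Z.erase e ∩ cut s t {w}).Nonempty) ⊆
      (univ.filter fun w => (Z ∩ cut s t {w}).Nonempty) := by
    intro w hw
    rw [Finset.mem_filter] at hw ⊢
    exact ⟨Finset.mem_univ _, hw.2.mono
      (Finset.inter_subset_inter_right (Finset.erase_subset _ _))⟩
  have h3 := Finset.card_le_card h2
  rw [Finset.card_erase_of_mem he] at h1
  have h4 := Finset.card_pos.mpr ⟨e, he⟩
  have h5 := handshake hl Z
  have h6 : ∑ v, (Z ∩ cut s t {v}).card =
      ∑ v ∈ univ.filter (fun w => (Z ∩ cut s t {w}).Nonempty), (Z ∩ cut s t {v}).card := by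
    rw [Finset.sum_filter]
    apply Finset.sum_congr rfl
    intro v _
    split_ifs with h
    · rfl
    · rw [Finset.card_eq_zero]
      exact Finset.not_nonempty_iff_eq_empty.mp h
  have h7 : ∀ v ∈ univ.filter (fun w => (Z ∩ cut s t {w}).Nonempty),
      2 ≤ (Z ∩ cut s t {v}).card := by
    intro v hv
    rw [Finset.mem_filter] at hv
    have := Finset.card_pos.mpr hv.2
    have := hZ1 v
    omega
  intro v
  by_contra hcon
  push Not at hcon
  have h8 : v ∈ univ.filter (fun w => (Z ∩ cut s t {w}).Nonempty) := by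
    rw [Finset.mem_filter]
    exact ⟨Finset.mem_univ _, Finset.card_pos.mp (Nat.pos_of_ne_zero hcon.1)⟩
  have h9 : ∑ v ∈ univ.filter (fun w => (Z ∩ cut s t {w}).Nonempty), 2 <
      ∑ v ∈ univ.filter (fun w => (Z ∩ cut s t {w}).Nonempty), (Z ∩ cut s t {v}).card := by
    apply Finset.sum_lt_sum h7
    refine ⟨v, h8, ?_⟩
    have := h7 v h8
    omega
  rw [← h6, h5, Finset.sum_const, smul_eq_mul] at h9
  omega

/-- An even set of edges is a disjoint union of cycles. -/
theorem even_decomp (hl : ∀ e, s e ≠ t e) : ∀ (k : ℕ) (X : Finset E), X.card = k →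
    (∀ v, Even (X ∩ cut s t {v}).card) →
    ∃ L : List (Finset E), (∀ C ∈ L, IsCycle s t C) ∧
      ∀ e, (L.countP fun C => e ∈ C) = if e ∈ X then 1 else 0 := by
  intro k
  induction k using Nat.strong_induction_on with
  | _ k IH =>
  intro X hk hX
  rcases X.eq_empty_or_nonempty with rfl | hne
  · exact ⟨[], by simp, by simp⟩
  obtain ⟨Z, hZX, hZne, hZ⟩ := exists_deg02 hl X hne fun v h => by
    have := hX v
    rw [h] at this
    exact absurd this (by decide)
  have hcard : ∀ v, ((X \ Z) ∩ cut s t {v}).card + (Z ∩ cut s t {v}).card =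
      (X ∩ cut s t {v}).card := by
    intro v
    rw [← Finset.card_union_of_disjoint]
    · congr 1
      ext e
      simp only [Finset.mem_union, Finset.mem_inter, Finset.mem_sdiff]
      have := @hZX e
      tauto
    · rw [Finset.disjoint_left]
      intro e he he'
      rw [Finset.mem_inter, Finset.mem_sdiff] at he
      exact he.1.2 (Finset.mem_inter.mp he').1
  have hXZ : ∀ v, Even ((X \ Z) ∩ cut s t {v}).card := by
    intro v
    have h1 := hcard v
    have h2 := hX v
    rw [← h1] at h2
    rcases hZ v with h3 | h3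
    · rw [h3] at h2; exact h2
    · rw [h3, Nat.even_add] at h2
      exact h2.mpr (by decide)
  have hlt : (X \ Z).card < k := by
    rw [← hk]
    apply Finset.card_lt_card
    refine ⟨Finset.sdiff_subset, fun h => ?_⟩
    obtain ⟨g, hg⟩ := hZne
    exact (Finset.mem_sdiff.mp (h (hZX hg))).2 hg
  obtain ⟨L, hL1, hL2⟩ := IH _ hlt _ rfl hXZ
  obtain ⟨L', hL1', hL2'⟩ := decomp hl _ Z rfl hZ
  refine ⟨L' ++ L, ?_, ?_⟩
  · intro C hC
    rw [List.mem_append] at hC
    rcases hC with hC | hC
    · exact hL1' C hC
    · exact hL1 C hC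
  · intro e
    have h1 := hL2' (s e) e (mem_cut_s (hl e)) e (mem_cut_s (hl e))
    simp only [and_self] at h1
    rw [List.countP_append, hL2 e, h1]
    have h2 := @hZX e
    simp only [Finset.mem_sdiff]
    by_cases h3 : e ∈ Z <;> by_cases h4 : e ∈ X <;> simp_all

end Pool.Agent.Lib.MP_95bb8c_al.BU
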