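import Pool.Agent.Lib.MP_95bb8c_al.BU.Seymour
import Pool.Agent.Lib.MP_95bb8c_al.OE.Main3
import Pool.Agent.Lib.MP_95bb8c_al.BU.Defs

set_option autoImplicit false
set_option linter.unusedSectionVars false
set_option synthInstance.maxSize 1024

/-!
# Seymour's sums of circuits theorem with one balanced pair of vertices

The hub graph of `BU/Seymour.lean` with single vertices instead of the hubs of `a` and `b`, and the
three laws of `OE/Main3.lean` for it.
-/

namespace Pool.Agent.Lib.MP_95bb8c_al.BU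

open Finset Pool.Agent.Lib.MP_95bb8c_al.OE

section Gadget

variable {V E : Type} [Fintype V] [DecidableEq V] [Fintype E] [DecidableEq E]

/-- The position in a hub; the hubs of the terminals are single vertices. -/
def ti (a b v : V) (i : Fin 4) : Fin 4 := if v = a ∨ v = b then 0 else i

/-- First endpoints. -/
def bs (a b : V) : HE V E → HP V E :=
  Sum.elim (fun e => Sum.inl (e, false))
    (Sum.elim (fun q => Sum.inl q.1) (fun r => Sum.inr (r.1, ti a b r.1 r.2.1)))

/-- Second endpoints. -/
def bt (s t : E → V) (a b : V) : HE V E → HP V E :=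
  Sum.elim (fun e => Sum.inl (e, true))
    (Sum.elim (fun q => Sum.inr (fe s t q.1, ti a b (fe s t q.1) q.2))
      (fun r => Sum.inr (r.1, ti a b r.1 r.2.2)))

/-- The weights of the edges inside the hubs. -/
def hw (s t : E → V) (p : E → ℚ) (a b : V) (c : ℚ) (v : V) : ℚ :=
  if v = a ∨ v = b then 0 else (c - wdeg s t p v / 4) / 6

/-- The weights. -/
def bx (s t : E → V) (p : E → ℚ) (a b : V) (c : ℚ) : HE V E → ℚ :=
  Sum.elim (fun e => c - p e)
    (Sum.elim (fun q => p q.1.1 / 4)
      (fun r => if r.2.1 = r.2.2 then 0 else hw s t p a b c r.1))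

/-- The ordinary vertices: the ports and the hub vertices. -/
def bT (E : Type) [Fintype E] (a b : V) : Finset (HP V E) :=
  (univ : Finset (E × Bool)).disjSum (univ.filter fun r : V × Fin 4 => ¬ (r.1 = a ∨ r.1 = b))

variable {s t : E → V} {p : E → ℚ} {a b : V} {c k : ℚ}

theorem ti_term {v : V} (h : v = a ∨ v = b) (i : Fin 4) : ti a b v i = 0 := if_pos h

theorem ti_reg {v : V} (h : ¬ (v = a ∨ v = b)) (i : Fin 4) : ti a b v i = i := if_neg h

theorem ti_zero (v : V) : ti a b v 0 = 0 := by
  unfold ti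
  split_ifs <;> rfl

theorem mem_bT_inl (q : E × Bool) : (Sum.inl q : HP V E) ∈ bT E a b := by
  unfold bT
  rw [Finset.inl_mem_disjSum]
  exact Finset.mem_univ _

theorem mem_bT_inr (r : V × Fin 4) : (Sum.inr r : HP V E) ∈ bT E a b ↔ ¬ (r.1 = a ∨ r.1 = b) := by
  unfold bT
  rw [Finset.inr_mem_disjSum, Finset.mem_filter]
  exact ⟨fun h => h.2, fun h => ⟨Finset.mem_univ _, h⟩⟩

/-- The three parts of a cut. -/
theorem bal_cut (S : Finset (HP V E)) :
    cw (bs a b) (bt s t a b) (bx s t p a b c) S =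
      ∑ e, (if ¬ ((Sum.inl (e, false) : HP V E) ∈ S ↔ (Sum.inl (e, true) : HP V E) ∈ S)
        then c - p e else 0) +
      (∑ q : E × Bool, ∑ i : Fin 4,
        (if ¬ ((Sum.inl q : HP V E) ∈ S ↔
          (Sum.inr (fe s t q, ti a b (fe s t q) i) : HP V E) ∈ S)
          then p q.1 / 4 else 0) +
      ∑ v : V, ∑ i : Fin 4, ∑ j : Fin 4,
        (if ¬ ((Sum.inr (v, ti a b v i) : HP V E) ∈ S ↔ (Sum.inr (v, ti a b v j) : HP V E) ∈ S)
          then hw s t p a b c v else 0)) := by
  unfold cw cut
  rw [Finset.sum_filter, Fintype.sum_sum_type, Fintype.sum_sum_type]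
  congr 1
  congr 1
  · rw [Fintype.sum_prod_type]
    rfl
  · rw [Fintype.sum_prod_type]
    apply Finset.sum_congr rfl
    intro v _
    rw [Fintype.sum_prod_type]
    apply Finset.sum_congr rfl
    intro i _
    apply Finset.sum_congr rfl
    intro j _
    simp only [bs, bt, bx, Sum.elim_inr]
    by_cases h : i = j
    · subst h
      simp
    · simp [h]

theorem sum_flag' (hl : ∀ e, s e ≠ t e) {R : Type} [AddCommMonoid R] (F : E × Bool → R) (v : V) :
    ∑ q : E × Bool, (if fe s t q = v then F q else 0) =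
      ∑ e ∈ cut s t {v}, F (e, decide (t e = v)) := by
  rw [Fintype.sum_prod_type]
  unfold cut
  rw [Finset.sum_filter]
  apply Finset.sum_congr rfl
  intro e _
  have := hl e
  rw [Fintype.sum_bool]
  simp only [fe, Finset.mem_singleton, if_true, Bool.false_eq_true, if_false]
  by_cases h3 : s e = v <;> by_cases h4 : t e = v <;> simp_all

theorem hw_nonneg (h4 : ∀ v, wdeg s t p v ≤ 4 * c) (v : V) : 0 ≤ hw s t p a b c v := by
  unfold hw
  split_ifs
  · exact le_rfl
  · have := h4 v
    apply div_nonneg _ (by norm_num)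
    linarith

theorem n1_nonneg (h2 : ∀ e, p e ≤ c) (S : Finset (HP V E)) (e : E) :
    0 ≤ (if ¬ ((Sum.inl (e, false) : HP V E) ∈ S ↔
      (Sum.inl (e, true) : HP V E) ∈ S) then c - p e else 0) := by
  have := h2 e
  split_ifs
  · exact le_rfl
  · linarith

theorem n2_nonneg (h0 : ∀ e, 0 ≤ p e) (S : Finset (HP V E)) (q : E × Bool) :
    0 ≤ ∑ i : Fin 4,
        (if ¬ ((Sum.inl q : HP V E) ∈ S ↔
          (Sum.inr (fe s t q, ti a b (fe s t q) i) : HP V E) ∈ S)
          then p q.1 / 4 else 0) := by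
  apply Finset.sum_nonneg
  intro i _
  have := h0 q.1
  split_ifs
  · exact le_rfl
  · positivity

theorem n3_nonneg (h4 : ∀ v, wdeg s t p v ≤ 4 * c) (S : Finset (HP V E)) (v : V) :
    0 ≤ ∑ i : Fin 4, ∑ j : Fin 4,
        (if ¬ ((Sum.inr (v, ti a b v i) : HP V E) ∈ S ↔ (Sum.inr (v, ti a b v j) : HP V E) ∈ S)
          then hw s t p a b c v else 0) := by
  apply Finset.sum_nonneg
  intro i _
  apply Finset.sum_nonneg
  intro j _
  split_ifs
  · exact le_rfl
  · exact hw_nonneg h4 v

/-- Sets which split a hub. -/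
theorem bal_split (hl : ∀ e, s e ≠ t e) (h0 : ∀ e, 0 ≤ p e) (h2 : ∀ e, p e ≤ c)
    (h4 : ∀ v, wdeg s t p v ≤ 4 * c) (S : Finset (HP V E))
    (hsp : ∃ v i j, (Sum.inr (v, ti a b v i) : HP V E) ∈ S ∧
      (Sum.inr (v, ti a b v j) : HP V E) ∉ S) :
    c ≤ cw (bs a b) (bt s t a b) (bx s t p a b c) S := by
  obtain ⟨v, i, j, hi, hj⟩ := hsp
  have hv : ¬ (v = a ∨ v = b) := by
    intro h
    rw [ti_term h] at hi hj
    exact hj hi
  rw [bal_cut]
  have a1 := hub_split (fun k => (Sum.inr (v, ti a b v k) : HP V E) ∈ S)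
    (hw s t p a b c v) (hw_nonneg h4 v) ⟨i, j, hi, hj⟩
  have a2 : wdeg s t p v / 4 ≤ ∑ q : E × Bool, ∑ i : Fin 4,
      (if ¬ ((Sum.inl q : HP V E) ∈ S ↔
        (Sum.inr (fe s t q, ti a b (fe s t q) i) : HP V E) ∈ S)
      then p q.1 / 4 else 0) := by
    unfold wdeg
    rw [← sum_flag hl p v, Finset.sum_div]
    apply Finset.sum_le_sum
    intro q _
    split_ifs with hq
    · apply spoke_split _ (fun k => (Sum.inr (fe s t q, ti a b (fe s t q) k) : HP V E) ∈ S) _
        (h0 _)
      exact ⟨i, j, by rw [hq]; exact hi, by rw [hq]; exact hj⟩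
    · rw [zero_div]
      exact n2_nonneg h0 S q
  have a3 := Finset.single_le_sum (fun v _ => n3_nonneg (a := a) (b := b) h4 S v)
    (Finset.mem_univ v)
  have a4 := Finset.sum_nonneg fun e (_ : e ∈ (univ : Finset E)) => n1_nonneg h2 S e
  have a5 : 6 * hw s t p a b c v = c - wdeg s t p v / 4 := by
    unfold hw
    rw [if_neg hv]
    ring
  linarith

/-- Sets which split no hub. -/
theorem bal_nosplit (h4 : ∀ v, wdeg s t p v ≤ 4 * c)
    (S : Finset (HP V E)) (X : Finset V)
    (hXm : ∀ v i, (Sum.inr (v, ti a b v i) : HP V E) ∈ S ↔ v ∈ X) :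
    ∑ e, (if ¬ ((Sum.inl (e, false) : HP V E) ∈ S ↔ (Sum.inl (e, true) : HP V E) ∈ S)
        then c - p e else 0) +
      ∑ e, ∑ i : Bool, (if ¬ ((Sum.inl (e, i) : HP V E) ∈ S ↔ fe s t (e, i) ∈ X)
        then p e else 0) ≤
    cw (bs a b) (bt s t a b) (bx s t p a b c) S := by
  rw [bal_cut]
  have b1 : ∀ q : E × Bool, ∑ i : Fin 4,
      (if ¬ ((Sum.inl q : HP V E) ∈ S ↔
        (Sum.inr (fe s t q, ti a b (fe s t q) i) : HP V E) ∈ S)
      then p q.1 / 4 else 0) =
      if ¬ ((Sum.inl q : HP V E) ∈ S ↔ fe s t q ∈ X) then p q.1 else 0 := by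
    intro q
    exact spoke_eq _ (fun i => (Sum.inr (fe s t q, ti a b (fe s t q) i) : HP V E) ∈ S) _ _
      (fun i => hXm _ i)
  have b2 := Finset.sum_nonneg fun v (_ : v ∈ (univ : Finset V)) =>
    n3_nonneg (a := a) (b := b) h4 S v
  rw [Finset.sum_congr rfl fun q _ => b1 q]
  rw [Fintype.sum_prod_type (f := fun q : E × Bool =>
    (if ¬ ((Sum.inl q : HP V E) ∈ S ↔ fe s t q ∈ X) then p q.1 else 0))]
  linarith

/-- Two kinds of flags of an edge. -/
theorem bal_flag (h0 : ∀ e, 0 ≤ p e) (S : Finset (HP V E)) (X : Finset V) (e : E)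
    (h : ¬ (((Sum.inl (e, false) : HP V E) ∈ S ↔ (Sum.inl (e, true) : HP V E) ∈ S) ↔
      (s e ∈ X ↔ t e ∈ X))) :
    p e ≤ ∑ i : Bool, (if ¬ ((Sum.inl (e, i) : HP V E) ∈ S ↔ fe s t (e, i) ∈ X)
      then p e else 0) := by
  rw [Fintype.sum_bool]
  exact flag_le _ _ _ _ _ (h0 e) h

/-- The hub graph lies in the cone `K`. -/
theorem bal_KK (hl : ∀ e, s e ≠ t e) (h0 : ∀ e, 0 ≤ p e) (h2 : ∀ e, 2 * p e ≤ c)
    (h3 : ∀ e, p e + k ≤ c) (h4 : ∀ v, wdeg s t p v ≤ 4 * c) (hkc : k ≤ c) (hc : CutCond s t p)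
    (hab : a ≠ b) (ha : wdeg s t p a = k) (hb : wdeg s t p b = k)
    (hsep : ∀ S : Finset V, a ∈ S → b ∉ S → k ≤ ∑ e ∈ cut s t S, p e) :
    KK (bs a b) (bt s t a b) (bT E a b) (Sum.inr (a, 0)) (Sum.inr (b, 0)) c k
      (bx s t p a b c) := by
  have h2' : ∀ e, p e ≤ c := fun e => by
    have := h2 e
    have := h0 e
    linarith
  have hterm : ∀ x, (x = a ∨ x = b) →
      cw (bs a b) (bt s t a b) (bx s t p a b c) {(Sum.inr (x, 0) : HP V E)} = wdeg s t p x := by
    intro x hx
    rw [bal_cut]
    have e1 : ∑ q' : E × Bool, ∑ i : Fin 4,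
        (if ¬ ((Sum.inl q' : HP V E) ∈ ({Sum.inr (x, 0)} : Finset (HP V E)) ↔
          (Sum.inr (fe s t q', ti a b (fe s t q') i) : HP V E) ∈
            ({Sum.inr (x, 0)} : Finset (HP V E)))
        then p q'.1 / 4 else 0) = wdeg s t p x := by
      unfold wdeg
      rw [← sum_flag hl p x]
      apply Finset.sum_congr rfl
      intro q' _
      by_cases h : fe s t q' = x
      · rw [h]
        simp only [ti_term hx, Finset.mem_singleton, reduceCtorEq, iff_true,
          not_false_eq_true, if_true, Fin.sum_univ_four]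
        ring
      · simp [h]
    have e2 : ∑ v' : V, ∑ i : Fin 4, ∑ j : Fin 4,
        (if ¬ ((Sum.inr (v', ti a b v' i) : HP V E) ∈ ({Sum.inr (x, 0)} : Finset (HP V E)) ↔
          (Sum.inr (v', ti a b v' j) : HP V E) ∈ ({Sum.inr (x, 0)} : Finset (HP V E)))
          then hw s t p a b c v' else 0) = 0 := by
      apply Finset.sum_eq_zero
      intro v' _
      apply Finset.sum_eq_zero
      intro i _
      apply Finset.sum_eq_zero
      intro j _
      by_cases h : v' = x
      · rw [if_neg]
        rw [h, ti_term hx, ti_term hx]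
        simp
      · rw [if_neg]
        simp [h]
    rw [e1, e2]
    simp
  refine ⟨⟨?_, ?_, ?_, ?_, ?_⟩, ?_, ?_, ?_, ?_, ?_, ?_⟩
  · intro h
    have h1 := Sum.inr.inj h
    exact hab (congrArg Prod.fst h1)
  · rw [mem_bT_inr]
    simp
  · rw [mem_bT_inr]
    simp
  · rintro (e | q | r)
    · exact Or.inl (mem_bT_inl _)
    · exact Or.inl (mem_bT_inl _)
    · by_cases h : r.1 = a ∨ r.1 = b
      · right
        rcases h with h | h
        · left
          simp [bs, h, ti]
        · right
          simp [bs, h, ti]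
      · left
        simp only [bs, Sum.elim_inr]
        rw [mem_bT_inr]
        exact h
  · rintro (e | q | r)
    · exact Or.inl (mem_bT_inl _)
    · by_cases h : fe s t q.1 = a ∨ fe s t q.1 = b
      · right
        rcases h with h | h
        · left
          simp [bt, h, ti]
        · right
          simp [bt, h, ti]
      · left
        simp only [bt, Sum.elim_inr, Sum.elim_inl]
        rw [mem_bT_inr]
        exact h
    · by_cases h : r.1 = a ∨ r.1 = b
      · right
        rcases h with h | h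
        · left
          simp [bt, h, ti]
        · right
          simp [bt, h, ti]
      · left
        simp only [bt, Sum.elim_inr]
        rw [mem_bT_inr]
        exact h
  · rintro (e | q | r)
    · have := h2' e
      simp only [bx, Sum.elim_inl]
      linarith
    · have := h0 q.1.1
      simp only [bx, Sum.elim_inl, Sum.elim_inr]
      positivity
    · simp only [bx, Sum.elim_inr]
      split_ifs
      · exact le_rfl
      · exact hw_nonneg h4 _
  · rintro (q | r) hr
    · rw [bal_cut]
      have e1 : ∑ e, (if ¬ ((Sum.inl (e, false) : HP V E) ∈ ({Sum.inl q} : Finset (HP V E)) ↔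
          (Sum.inl (e, true) : HP V E) ∈ ({Sum.inl q} : Finset (HP V E)))
          then c - p e else 0) = c - p q.1 := by
        rw [Finset.sum_eq_single q.1]
        · obtain ⟨e, i⟩ := q
          cases i <;> simp
        · intro e _ he
          rw [if_neg]
          obtain ⟨e', i⟩ := q
          simp only [Finset.mem_singleton, Sum.inl.injEq, Prod.mk.injEq, not_not]
          have : e ≠ e' := he
          simp [this]
        · intro h; exact absurd (Finset.mem_univ _) h
      have e2 : ∑ q' : E × Bool, ∑ i : Fin 4,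
          (if ¬ ((Sum.inl q' : HP V E) ∈ ({Sum.inl q} : Finset (HP V E)) ↔
            (Sum.inr (fe s t q', ti a b (fe s t q') i) : HP V E) ∈
              ({Sum.inl q} : Finset (HP V E)))
          then p q'.1 / 4 else 0) = p q.1 := by
        rw [Finset.sum_eq_single q]
        · simp only [Finset.mem_singleton, reduceCtorEq, iff_false, not_true_eq_false,
            not_false_eq_true, if_true, Fin.sum_univ_four]
          ring
        · intro q' _ hq
          simp [hq]
        · intro h; exact absurd (Finset.mem_univ _) h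
      rw [e1, e2]
      simp
    · rw [mem_bT_inr] at hr
      rw [bal_cut]
      obtain ⟨v, m⟩ := r
      replace hr : ¬ (v = a ∨ v = b) := hr
      have e1 : ∑ q' : E × Bool, ∑ i : Fin 4,
          (if ¬ ((Sum.inl q' : HP V E) ∈ ({Sum.inr (v, m)} : Finset (HP V E)) ↔
            (Sum.inr (fe s t q', ti a b (fe s t q') i) : HP V E) ∈
              ({Sum.inr (v, m)} : Finset (HP V E)))
          then p q'.1 / 4 else 0) = wdeg s t p v / 4 := by
        unfold wdeg
        rw [← sum_flag hl p v, Finset.sum_div]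
        apply Finset.sum_congr rfl
        intro q' _
        by_cases h : fe s t q' = v
        · rw [Finset.sum_eq_single m]
          · rw [h, ti_reg hr]
            simp
          · intro i _ hi
            rw [h, ti_reg hr]
            simp [hi]
          · intro h; exact absurd (Finset.mem_univ _) h
        · simp [h]
      have e2 : ∑ v' : V, ∑ i : Fin 4, ∑ j : Fin 4,
          (if ¬ ((Sum.inr (v', ti a b v' i) : HP V E) ∈ ({Sum.inr (v, m)} : Finset (HP V E)) ↔
            (Sum.inr (v', ti a b v' j) : HP V E) ∈ ({Sum.inr (v, m)} : Finset (HP V E)))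
          then hw s t p a b c v' else 0) = c - wdeg s t p v / 4 := by
        rw [Finset.sum_eq_single v]
        · simp only [ti_reg hr, Finset.mem_singleton, Sum.inr.injEq, Prod.mk.injEq, true_and,
            Fin.sum_univ_four, hw, if_neg hr]
          fin_cases m <;> simp <;> ring
        · intro v' _ hv
          simp [hv]
        · intro h; exact absurd (Finset.mem_univ _) h
      rw [e1, e2]
      simp
  · rw [hterm a (Or.inl rfl), ha]
  · rw [hterm b (Or.inr rfl), hb]
  · intro S hS
    by_cases hsp : ∃ v i j, (Sum.inr (v, ti a b v i) : HP V E) ∈ S ∧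
        (Sum.inr (v, ti a b v j) : HP V E) ∉ S
    · exact bal_split hl h0 h2' h4 S hsp
    push Not at hsp
    set X : Finset V := univ.filter fun v => (Sum.inr (v, (0 : Fin 4)) : HP V E) ∈ S with hX
    have hXm : ∀ v i, (Sum.inr (v, ti a b v i) : HP V E) ∈ S ↔ v ∈ X := by
      intro v i
      rw [hX, Finset.mem_filter]
      constructor
      · intro h
        have h1 := hsp v i 0 h
        rw [ti_zero] at h1
        exact ⟨Finset.mem_univ _, h1⟩
      · intro h
        have h1 := hsp v 0 i (by rw [ti_zero]; exact h.2)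
        exact h1
    refine le_trans ?_ (bal_nosplit h4 S X hXm)
    -- some external edge is cut
    have hex : ∃ e, ¬ ((Sum.inl (e, false) : HP V E) ∈ S ↔ (Sum.inl (e, true) : HP V E) ∈ S) := by
      by_contra hcon
      push Not at hcon
      have c1 : (S ∩ bT E a b).card = ∑ x : HP V E, (if x ∈ S ∩ bT E a b then 1 else 0) := by
        rw [Finset.sum_boole, Finset.filter_mem_eq_inter, Finset.univ_inter, Nat.cast_id]
      rw [c1, Fintype.sum_sum_type, Fintype.sum_prod_type, Fintype.sum_prod_type] at hS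
      have c2 : Even (∑ e : E, ∑ b' : Bool,
          (if (Sum.inl (e, b') : HP V E) ∈ S ∩ bT E a b then 1 else 0 : ℕ)) := by
        apply Finset.even_sum
        intro e _
        rw [Fintype.sum_bool]
        have := hcon e
        simp only [Finset.mem_inter, mem_bT_inl, and_true]
        by_cases h : (Sum.inl (e, true) : HP V E) ∈ S
        · rw [if_pos h, if_pos (this.mpr h)]
          decide
        · rw [if_neg h, if_neg (fun h' => h (this.mp h'))]
          decide
      have c3 : Even (∑ v : V, ∑ i : Fin 4,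
          (if (Sum.inr (v, i) : HP V E) ∈ S ∩ bT E a b then 1 else 0 : ℕ)) := by
        apply Finset.even_sum
        intro v _
        by_cases hv : v = a ∨ v = b
        · have : ∀ i : Fin 4, (Sum.inr (v, i) : HP V E) ∉ S ∩ bT E a b := by
            intro i h
            rw [Finset.mem_inter, mem_bT_inr] at h
            exact h.2 hv
          simp [this]
        · have : ∀ i : Fin 4, (Sum.inr (v, i) : HP V E) ∈ S ∩ bT E a b ↔ v ∈ X := by
            intro i
            rw [Finset.mem_inter, mem_bT_inr, ← hXm v i, ti_reg hv]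
            exact ⟨fun h => h.1, fun h => ⟨h, hv⟩⟩
          simp only [this]
          rw [Fin.sum_univ_four]
          by_cases h : v ∈ X <;> simp only [h, if_true, if_false] <;> decide
      exact (Nat.not_even_iff_odd.mpr hS) (c2.add c3)
    obtain ⟨e0, he0⟩ := hex
    have n1 := n1_nonneg (p := p) h2' S
    have d3 : ∀ e, 0 ≤ ∑ i : Bool, (if ¬ ((Sum.inl (e, i) : HP V E) ∈ S ↔
        fe s t (e, i) ∈ X) then p e else 0) := by
      intro e
      apply Finset.sum_nonneg
      intro i _
      have := h0 e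
      split_ifs
      · exact le_rfl
      · exact this
    have b3 := Finset.sum_nonneg fun e (_ : e ∈ (univ : Finset E)) => d3 e
    by_cases hex2 : ∃ e1, e1 ≠ e0 ∧
        ¬ ((Sum.inl (e1, false) : HP V E) ∈ S ↔ (Sum.inl (e1, true) : HP V E) ∈ S)
    · obtain ⟨e1, he1, he1'⟩ := hex2
      have d1 : (c - p e0) + (c - p e1) ≤ ∑ e, (if ¬ ((Sum.inl (e, false) : HP V E) ∈ S ↔
          (Sum.inl (e, true) : HP V E) ∈ S) then c - p e else 0) := by
        have := Finset.sum_le_sum_of_subset_of_nonneg (Finset.subset_univ {e0, e1})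
          (f := fun e => (if ¬ ((Sum.inl (e, false) : HP V E) ∈ S ↔
            (Sum.inl (e, true) : HP V E) ∈ S) then c - p e else 0)) (fun e _ _ => n1 e)
        rw [Finset.sum_pair he1.symm, if_pos he0, if_pos he1'] at this
        exact this
      have := h2 e0
      have := h2 e1
      linarith
    · push Not at hex2
      have d1 := Finset.single_le_sum (fun e _ => n1 e) (Finset.mem_univ e0)
      rw [if_pos he0] at d1
      by_cases hce : e0 ∈ cut s t X
      · have d4 : ∑ f ∈ (cut s t X).erase e0, p f ≤ ∑ e, ∑ i : Bool,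
            (if ¬ ((Sum.inl (e, i) : HP V E) ∈ S ↔ fe s t (e, i) ∈ X)
              then p e else 0) := by
          refine le_trans ?_ (Finset.sum_le_sum_of_subset_of_nonneg
            (Finset.subset_univ ((cut s t X).erase e0)) fun e _ _ => d3 e)
          apply Finset.sum_le_sum
          intro e he
          rw [Finset.mem_erase, mem_cut] at he
          have hh := hex2 e he.1
          refine bal_flag h0 S X e ?_
          tauto
        have d5 := hc X e0 hce
        linarith
      · have d4 := Finset.single_le_sum (fun e _ => d3 e) (Finset.mem_univ e0)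
        have d5 : p e0 ≤ ∑ i : Bool, (if ¬ ((Sum.inl (e0, i) : HP V E) ∈ S ↔
            fe s t (e0, i) ∈ X) then p e0 else 0) := by
          rw [mem_cut] at hce
          refine bal_flag h0 S X e0 ?_
          tauto
        linarith
  · intro S haS hbS
    by_cases hsp : ∃ v i j, (Sum.inr (v, ti a b v i) : HP V E) ∈ S ∧
        (Sum.inr (v, ti a b v j) : HP V E) ∉ S
    · exact le_trans hkc (bal_split hl h0 h2' h4 S hsp)
    push Not at hsp
    set X : Finset V := univ.filter fun v => (Sum.inr (v, (0 : Fin 4)) : HP V E) ∈ S with hX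
    have hXm : ∀ v i, (Sum.inr (v, ti a b v i) : HP V E) ∈ S ↔ v ∈ X := by
      intro v i
      rw [hX, Finset.mem_filter]
      constructor
      · intro h
        have h1 := hsp v i 0 h
        rw [ti_zero] at h1
        exact ⟨Finset.mem_univ _, h1⟩
      · intro h
        have h1 := hsp v 0 i (by rw [ti_zero]; exact h.2)
        exact h1
    refine le_trans ?_ (bal_nosplit h4 S X hXm)
    have n1 := n1_nonneg (p := p) h2' S
    have d3 : ∀ e, 0 ≤ ∑ i : Bool, (if ¬ ((Sum.inl (e, i) : HP V E) ∈ S ↔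
        fe s t (e, i) ∈ X) then p e else 0) := by
      intro e
      apply Finset.sum_nonneg
      intro i _
      have := h0 e
      split_ifs
      · exact le_rfl
      · exact this
    have b3 := Finset.sum_nonneg fun e (_ : e ∈ (univ : Finset E)) => d3 e
    by_cases hex : ∃ e, ¬ ((Sum.inl (e, false) : HP V E) ∈ S ↔
        (Sum.inl (e, true) : HP V E) ∈ S)
    · obtain ⟨e0, he0⟩ := hex
      have d1 := Finset.single_le_sum (fun e _ => n1 e) (Finset.mem_univ e0)
      rw [if_pos he0] at d1
      have := h3 e0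
      linarith
    · push Not at hex
      have hXa : a ∈ X := by
        rw [hX, Finset.mem_filter]
        exact ⟨Finset.mem_univ _, haS⟩
      have hXb : b ∉ X := by
        rw [hX, Finset.mem_filter]
        exact fun h => hbS h.2
      have b4 := Finset.sum_nonneg fun e (_ : e ∈ (univ : Finset E)) => n1 e
      have d4 : ∑ f ∈ cut s t X, p f ≤ ∑ e, ∑ i : Bool,
          (if ¬ ((Sum.inl (e, i) : HP V E) ∈ S ↔ fe s t (e, i) ∈ X)
            then p e else 0) := by
        refine le_trans ?_ (Finset.sum_le_sum_of_subset_of_nonneg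
          (Finset.subset_univ (cut s t X)) fun e _ _ => d3 e)
        apply Finset.sum_le_sum
        intro e he
        rw [mem_cut] at he
        have hh := hex e
        refine bal_flag h0 S X e ?_
        tauto
      have d5 := hsep X hXa hXb
      linarith

/-- Each degree counted modulo two. -/
theorem parity_sum {V E : Type} [Fintype V] [DecidableEq V] [Fintype E] [DecidableEq E]
    (s t : E → V) (M : Finset E) (A : Finset V) :
    (M ∩ cut s t A).card % 2 = (∑ x ∈ A, (M ∩ cut s t {x}).card) % 2 := by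
  induction A using Finset.induction_on with
  | empty =>
    have : cut s t (∅ : Finset V) = ∅ := by
      ext e; simp [mem_cut]
    simp [this]
  | insert a A ha IH =>
    have h3 : M ∩ cut s t (insert a A) = symmDiff (M ∩ cut s t A) (M ∩ cut s t {a}) := by
      ext e
      simp only [Finset.mem_inter, Finset.mem_symmDiff, mem_cut, Finset.mem_insert,
        Finset.mem_singleton]
      by_cases h4 : s e = a <;> by_cases h5 : t e = a <;> by_cases h6 : s e ∈ A <;>
        by_cases h7 : t e ∈ A <;> simp_all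
    have h4 := card_symm (M ∩ cut s t A) (M ∩ cut s t {a})
    rw [← h3] at h4
    rw [Finset.sum_insert ha]
    omega

/-- The external edges outside of `M` form an even set. -/
theorem bal_even (hl : ∀ e, s e ≠ t e) {M : Finset (HE V E)}
    (hM : ∀ q : E × Bool, (M ∩ cut (bs a b) (bt s t a b) {(Sum.inl q : HP V E)}).card = 1)
    (hM2 : ∀ v, Even (∑ i : Fin 4,
      (M ∩ cut (bs a b) (bt s t a b) {(Sum.inr (v, i) : HP V E)}).card)) (v : V) :
    Even ((univ.filter fun e : E => (Sum.inl e : HE V E) ∉ M) ∩ cut s t {v}).card := by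
  classical
  set A : Finset (HP V E) := (univ.filter fun q : E × Bool => fe s t q = v).disjSum
    (univ.filter fun r : V × Fin 4 => r.1 = v) with hA
  have m1 : ∀ q : E × Bool, (Sum.inl q : HP V E) ∈ A ↔ fe s t q = v := by
    intro q; rw [hA, Finset.inl_mem_disjSum]; simp
  have m2 : ∀ r : V × Fin 4, (Sum.inr r : HP V E) ∈ A ↔ r.1 = v := by
    intro q; rw [hA, Finset.inr_mem_disjSum]; simp
  have h1 := parity_sum (bs a b) (bt s t a b) M A
  have h2 : (M ∩ cut (bs a b) (bt s t a b) A).card =
      ((cut s t {v}).filter fun e => (Sum.inl e : HE V E) ∈ M).card := by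
    have : M ∩ cut (bs a b) (bt s t a b) A =
        ((cut s t {v}).filter fun e => (Sum.inl e : HE V E) ∈ M).map ⟨Sum.inl, Sum.inl_injective⟩ := by
      ext x
      rw [Finset.mem_inter, mem_cut, Finset.mem_map]
      simp only [Finset.mem_filter, Function.Embedding.coeFn_mk]
      rcases x with e | q | r
      · simp only [bs, bt, Sum.elim_inl, m1, fe, Sum.inl.injEq, exists_eq_right,
          Bool.false_eq_true, if_false, if_true, mem_cut_singleton]
        tauto
      · simp [bs, bt, m1, m2]
      · simp [bs, bt, m2]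
    rw [this, Finset.card_map]
  have h3 : (∑ x ∈ A, (M ∩ cut (bs a b) (bt s t a b) {x}).card) = (cut s t {v}).card +
      ∑ i : Fin 4, (M ∩ cut (bs a b) (bt s t a b) {(Sum.inr (v, i) : HP V E)}).card := by
    rw [hA, Finset.sum_disjSum]
    congr 1
    · rw [Finset.sum_congr rfl fun q _ => hM q, Finset.sum_filter, sum_flag hl (fun _ => 1) v,
        Finset.card_eq_sum_ones]
    · rw [Finset.sum_filter, Fintype.sum_prod_type, Finset.sum_eq_single v]
      · simp
      · intro w _ hw
        simp [hw]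
      · intro h; exact absurd (Finset.mem_univ _) h
  have h4 : ((univ.filter fun e : E => (Sum.inl e : HE V E) ∉ M) ∩ cut s t {v}).card +
      ((cut s t {v}).filter fun e => (Sum.inl e : HE V E) ∈ M).card = (cut s t {v}).card := by
    have h5 := Finset.card_filter_add_card_filter_not (s := cut s t {v})
      (fun e => (Sum.inl e : HE V E) ∈ M)
    have h6 : (univ.filter fun e : E => (Sum.inl e : HE V E) ∉ M) ∩ cut s t {v} =
        (cut s t {v}).filter fun e => ¬ (Sum.inl e : HE V E) ∈ M := by
      ext e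
      simp only [Finset.mem_inter, Finset.mem_filter, Finset.mem_univ, true_and]
      tauto
    rw [h6]
    omega
  have h5 := hM2 v
  rw [Nat.even_iff] at h5 ⊢
  omega

/-- The edge of `M` at a port. -/
theorem port_count {M : Finset (HE V E)} (q : E × Bool) :
    (M ∩ cut (bs a b) (bt s t a b) {(Sum.inl q : HP V E)}).card =
      (if (Sum.inl q.1 : HE V E) ∈ M then 1 else 0) +
        ∑ i : Fin 4, (if (Sum.inr (Sum.inl (q, i)) : HE V E) ∈ M then 1 else 0) := by
  have h1 : (M ∩ cut (bs a b) (bt s t a b) {(Sum.inl q : HP V E)}).card =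
      ∑ x : HE V E, (if x ∈ M ∩ cut (bs a b) (bt s t a b) {(Sum.inl q : HP V E)} then 1 else 0) := by
    rw [Finset.sum_boole, Finset.filter_mem_eq_inter, Finset.univ_inter, Nat.cast_id]
  rw [h1, Fintype.sum_sum_type, Fintype.sum_sum_type]
  have h2 : ∑ e : E, (if (Sum.inl e : HE V E) ∈ M ∩ cut (bs a b) (bt s t a b)
      {(Sum.inl q : HP V E)} then 1 else 0) = (if (Sum.inl q.1 : HE V E) ∈ M then 1 else 0) := by
    rw [Finset.sum_eq_single q.1]
    · obtain ⟨e, i⟩ := q
      cases i <;> simp [mem_cut, bs, bt]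
    · intro e _ he
      rw [if_neg]
      obtain ⟨e', i⟩ := q
      have : e ≠ e' := he
      simp [mem_cut, bs, bt, this]
    · intro h; exact absurd (Finset.mem_univ _) h
  have h3 : ∑ x : (E × Bool) × Fin 4, (if (Sum.inr (Sum.inl x) : HE V E) ∈
      M ∩ cut (bs a b) (bt s t a b) {(Sum.inl q : HP V E)} then 1 else 0) =
        ∑ i : Fin 4, (if (Sum.inr (Sum.inl (q, i)) : HE V E) ∈ M then 1 else 0) := by
    rw [Fintype.sum_prod_type, Finset.sum_eq_single q]
    · apply Finset.sum_congr rfl
      intro i _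
      simp [mem_cut, bs, bt]
    · intro q' _ hq
      apply Finset.sum_eq_zero
      intro i _
      rw [if_neg]
      simp [mem_cut, bs, bt, hq]
    · intro h; exact absurd (Finset.mem_univ _) h
  have h4 : ∑ x : V × (Fin 4 × Fin 4), (if (Sum.inr (Sum.inr x) : HE V E) ∈
      M ∩ cut (bs a b) (bt s t a b) {(Sum.inl q : HP V E)} then 1 else 0) = 0 := by
    apply Finset.sum_eq_zero
    intro x _
    rw [if_neg]
    simp [mem_cut, bs, bt]
  rw [h2, h3, h4, add_zero]

/-- The edges of `M` at a terminal. -/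
theorem term_count (hl : ∀ e, s e ≠ t e) {M : Finset (HE V E)} {x : V} (hx : x = a ∨ x = b) :
    (M ∩ cut (bs a b) (bt s t a b) {(Sum.inr (x, 0) : HP V E)}).card =
      ∑ e ∈ cut s t {x}, ∑ i : Fin 4,
        (if (Sum.inr (Sum.inl ((e, decide (t e = x)), i)) : HE V E) ∈ M then 1 else 0) := by
  have h1 : (M ∩ cut (bs a b) (bt s t a b) {(Sum.inr (x, 0) : HP V E)}).card =
      ∑ y : HE V E,
        (if y ∈ M ∩ cut (bs a b) (bt s t a b) {(Sum.inr (x, 0) : HP V E)} then 1 else 0) := by
    rw [Finset.sum_boole, Finset.filter_mem_eq_inter, Finset.univ_inter, Nat.cast_id]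
  rw [h1, Fintype.sum_sum_type, Fintype.sum_sum_type]
  have h2 : ∑ e : E, (if (Sum.inl e : HE V E) ∈ M ∩ cut (bs a b) (bt s t a b)
      {(Sum.inr (x, 0) : HP V E)} then 1 else 0) = 0 := by
    apply Finset.sum_eq_zero
    intro e _
    rw [if_neg]
    simp [mem_cut, bs, bt]
  have h3 : ∑ y : (E × Bool) × Fin 4, (if (Sum.inr (Sum.inl y) : HE V E) ∈
      M ∩ cut (bs a b) (bt s t a b) {(Sum.inr (x, 0) : HP V E)} then 1 else 0) =
        ∑ e ∈ cut s t {x}, ∑ i : Fin 4,
        (if (Sum.inr (Sum.inl ((e, decide (t e = x)), i)) : HE V E) ∈ M then 1 else 0) := by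
    rw [Fintype.sum_prod_type, ← sum_flag' hl (fun q => ∑ i : Fin 4,
        (if (Sum.inr (Sum.inl (q, i)) : HE V E) ∈ M then 1 else 0)) x]
    apply Finset.sum_congr rfl
    intro q _
    by_cases h : fe s t q = x
    · rw [if_pos h]
      apply Finset.sum_congr rfl
      intro i _
      simp [mem_cut, bs, bt, h, ti_term hx]
    · rw [if_neg h]
      apply Finset.sum_eq_zero
      intro i _
      rw [if_neg]
      simp [mem_cut, bs, bt, h]
  have h4 : ∑ y : V × (Fin 4 × Fin 4), (if (Sum.inr (Sum.inr y) : HE V E) ∈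
      M ∩ cut (bs a b) (bt s t a b) {(Sum.inr (x, 0) : HP V E)} then 1 else 0) = 0 := by
    apply Finset.sum_eq_zero
    intro y _
    rw [if_neg]
    rw [Finset.mem_inter, mem_cut]
    rintro ⟨_, h5⟩
    apply h5
    simp only [bs, bt, Sum.elim_inr, Finset.mem_singleton, Sum.inr.injEq, Prod.mk.injEq]
    by_cases h : y.1 = x
    · rw [h, ti_term hx, ti_term hx]
    · simp [h]
  rw [h2, h3, h4, add_zero, zero_add]

/-- The part of `M` at the external edges with an end at a terminal. -/
theorem ext_count {M : Finset (HE V E)}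
    (hM : ∀ q : E × Bool, (M ∩ cut (bs a b) (bt s t a b) {(Sum.inl q : HP V E)}).card = 1)
    (e : E) (j : Bool) :
    (if (Sum.inl e : HE V E) ∉ M then 1 else 0) =
      ∑ i : Fin 4, (if (Sum.inr (Sum.inl ((e, j), i)) : HE V E) ∈ M then 1 else 0) := by
  have h1 := hM (e, j)
  rw [port_count] at h1
  by_cases h : (Sum.inl e : HE V E) ∈ M
  · rw [if_pos h] at h1
    rw [if_neg (not_not.mpr h)]
    omega
  · rw [if_neg h] at h1
    rw [if_pos h]
    omega

/-- The number of edges at a terminal. -/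
theorem ext_deg (hl : ∀ e, s e ≠ t e) {M : Finset (HE V E)}
    (hM : ∀ q : E × Bool, (M ∩ cut (bs a b) (bt s t a b) {(Sum.inl q : HP V E)}).card = 1)
    {x : V} (hx : x = a ∨ x = b) :
    ((univ.filter fun e : E => (Sum.inl e : HE V E) ∉ M) ∩ cut s t {x}).card =
      (M ∩ cut (bs a b) (bt s t a b) {(Sum.inr (x, 0) : HP V E)}).card := by
  rw [term_count hl hx, ← Finset.sum_congr rfl fun e _ => ext_count hM e (decide (t e = x)),
    ← Finset.card_filter]
  congr 1
  ext e
  simp only [Finset.mem_inter, Finset.mem_filter, Finset.mem_univ, true_and]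
  tauto

/-- Pairs of edges at a vertex with at most two edges of `X`. -/
theorem pair_count (X : Finset E) (x : V) (hX : (X ∩ cut s t {x}).card ≤ 2)
    (L : List (Finset E)) (hL : ∀ C ∈ L, IsCycle s t C)
    (hL2 : ∀ e, (L.countP fun C => e ∈ C) = if e ∈ X then 1 else 0) {e f : E}
    (he : e ∈ cut s t {x}) (hf : f ∈ cut s t {x}) (hef : e ≠ f) :
    (L.countP fun C => e ∈ C ∧ f ∈ C) = if e ∈ X ∧ f ∈ X then 1 else 0 := by
  have hmem : ∀ g, ∀ C ∈ L, g ∈ C → g ∈ X := by
    intro g C hC hg
    by_contra h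
    have h1 := hL2 g
    rw [if_neg h, List.countP_eq_zero] at h1
    exact h1 C hC (by simpa using hg)
  by_cases h : e ∈ X ∧ f ∈ X
  · rw [if_pos h]
    have h1 : X ∩ cut s t {x} = {e, f} := by
      symm
      apply Finset.eq_of_subset_of_card_le
      · intro g hg
        rw [Finset.mem_insert, Finset.mem_singleton] at hg
        rcases hg with rfl | rfl
        · exact Finset.mem_inter.mpr ⟨h.1, he⟩
        · exact Finset.mem_inter.mpr ⟨h.2, hf⟩
      · rw [Finset.card_pair hef]
        exact hX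
    have h2 : ∀ C ∈ L, e ∈ C → f ∈ C := by
      intro C hC heC
      have h3 : (C ∩ cut s t {x}).card = 2 := by
        rcases (hL C hC).deg x with h4 | h4
        · rw [Finset.card_eq_zero] at h4
          have : e ∈ C ∩ cut s t {x} := Finset.mem_inter.mpr ⟨heC, he⟩
          rw [h4] at this
          exact absurd this (Finset.notMem_empty _)
        · exact h4
      obtain ⟨g, hg, hge⟩ := Finset.exists_mem_ne (by omega : 1 < (C ∩ cut s t {x}).card) e
      rw [Finset.mem_inter] at hg
      have h4 : g ∈ X ∩ cut s t {x} := Finset.mem_inter.mpr ⟨hmem g C hC hg.1, hg.2⟩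
      rw [h1, Finset.mem_insert, Finset.mem_singleton] at h4
      rcases h4 with h4 | h4
      · exact absurd h4 hge
      · rw [← h4]
        exact hg.1
    have h3 := hL2 e
    rw [if_pos h.1] at h3
    rw [← h3]
    apply List.countP_congr
    intro C hC
    have := h2 C hC
    simp only [decide_eq_true_eq]
    tauto
  · rw [if_neg h, List.countP_eq_zero]
    intro C hC hC2
    simp only [decide_eq_true_eq] at hC2
    exact h ⟨hmem e C hC hC2.1, hmem f C hC hC2.2⟩

theorem mix_count {ι : Type} [Fintype ι] (w : ι → ℚ) (L : ι → List (Finset E))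
    (P : Finset E → Prop) [DecidablePred P] :
    ∑ C, (if P C then ∑ i, w i * ((L i).count C : ℚ) else 0) =
      ∑ i, w i * ((L i).countP fun C => P C) := by
  have h1 : ∀ C, (if P C then ∑ i, w i * ((L i).count C : ℚ) else 0) =
      ∑ i, w i * (if P C then ((L i).count C : ℚ) else 0) := by
    intro C
    split_ifs
    · rfl
    · simp
  rw [Finset.sum_congr rfl fun C _ => h1 C, Finset.sum_comm]
  apply Finset.sum_congr rfl
  intro i _
  rw [← Finset.mul_sum, sum_count]

/-- The map between the stars of the terminals. -/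
def bmap (t : E → V) (x : V) (sig : E → E) : HE V E → HE V E :=
  Sum.elim Sum.inl (Sum.elim
    (fun q => Sum.inr (Sum.inl ((sig q.1.1, decide (t (sig q.1.1) = x)), q.2)))
    (fun r => Sum.inr (Sum.inr r)))

theorem flag_eq (hl : ∀ e, s e ≠ t e) {q : E × Bool} {x : V} (h : fe s t q = x) :
    q.1 ∈ cut s t {x} ∧ q = (q.1, decide (t q.1 = x)) := by
  obtain ⟨e, i⟩ := q
  have h1 := hl e
  cases i
  · simp only [fe, Bool.false_eq_true, if_false] at h
    subst h
    exact ⟨mem_cut_s h1, by simp [h1.symm]⟩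
  · simp only [fe, if_true] at h
    subst h
    exact ⟨mem_cut_t h1, by simp⟩

theorem flag_end {e : E} {x : V} (h : e ∈ cut s t {x}) : fe s t (e, decide (t e = x)) = x := by
  unfold fe
  by_cases h1 : t e = x
  · simp [h1]
  · simp only [h1, decide_false, Bool.false_eq_true, if_false]
    rw [mem_cut_singleton] at h
    by_contra h2
    exact h ⟨fun h3 => absurd h3 h2, fun h3 => absurd h3 h1⟩

theorem mem_cut_term {x : V} (hx : x = a ∨ x = b) (y : HE V E) :
    y ∈ cut (bs a b) (bt s t a b) {(Sum.inr (x, 0) : HP V E)} ↔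
      ∃ q : E × Bool, ∃ i : Fin 4, y = Sum.inr (Sum.inl (q, i)) ∧ fe s t q = x := by
  rw [mem_cut]
  rcases y with e | ⟨q, i⟩ | r
  · simp [bs, bt]
  · simp only [bs, bt, Sum.elim_inr, Sum.elim_inl, Finset.mem_singleton, reduceCtorEq,
      Sum.inr.injEq, Prod.mk.injEq, Sum.inl.injEq, false_iff, not_not]
    constructor
    · intro h
      exact ⟨q, i, ⟨rfl, rfl⟩, h.1⟩
    · rintro ⟨q', i', ⟨rfl, rfl⟩, h⟩
      refine ⟨h, ?_⟩
      rw [h, ti_term hx]
  · simp only [bs, bt, Sum.elim_inr, Finset.mem_singleton, Sum.inr.injEq, Prod.mk.injEq,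
      reduceCtorEq, false_and, exists_false, iff_false, not_not]
    by_cases h : r.1 = x
    · rw [h, ti_term hx, ti_term hx]
    · simp [h]

theorem bal_axis (hl : ∀ e, s e ≠ t e) (hab : a ≠ b) {sig tau : E → E}
    (h1 : ∀ e ∈ cut s t {b}, p e ≠ 0 → sig e ∈ cut s t {a} ∧ tau (sig e) = e ∧ p (sig e) = p e)
    (h2 : ∀ f ∈ cut s t {a}, p f ≠ 0 → tau f ∈ cut s t {b} ∧ sig (tau f) = f ∧ p (tau f) = p f) :
    Axis0 (bs a b) (bt s t a b) (Sum.inr (a, 0)) (Sum.inr (b, 0)) k (bx s t p a b c)
      (bmap t a sig) (bmap t b tau) := by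
  refine ⟨?_, ?_, ?_⟩
  · intro y hy hz
    rw [mem_cut_term (Or.inr rfl)] at hy
    obtain ⟨q, i, rfl, hq⟩ := hy
    obtain ⟨h3, h4⟩ := flag_eq hl hq
    have h5 : p q.1 ≠ 0 := by
      intro h
      apply hz
      simp [bx, h]
    obtain ⟨h6, h7, h8⟩ := h1 q.1 h3 h5
    refine ⟨?_, ?_, ?_⟩
    · rw [mem_cut_term (Or.inl rfl)]
      exact ⟨(sig q.1, decide (t (sig q.1) = a)), i, rfl, flag_end h6⟩
    · simp only [bmap, Sum.elim_inr, Sum.elim_inl, h7]
      rw [← h4]
    · simp only [bmap, bx, Sum.elim_inr, Sum.elim_inl, h8]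
  · intro y hy hz
    rw [mem_cut_term (Or.inl rfl)] at hy
    obtain ⟨q, i, rfl, hq⟩ := hy
    obtain ⟨h3, h4⟩ := flag_eq hl hq
    have h5 : p q.1 ≠ 0 := by
      intro h
      apply hz
      simp [bx, h]
    obtain ⟨h6, h7, h8⟩ := h2 q.1 h3 h5
    refine ⟨?_, ?_, ?_⟩
    · rw [mem_cut_term (Or.inr rfl)]
      exact ⟨(tau q.1, decide (t (tau q.1) = b)), i, rfl, flag_end h6⟩
    · simp only [bmap, Sum.elim_inr, Sum.elim_inl, h7]
      rw [← h4]
    · simp only [bmap, bx, Sum.elim_inr, Sum.elim_inl, h8]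
  · intro y hy hy'
    rw [mem_cut_term (Or.inl rfl)] at hy
    rw [mem_cut_term (Or.inr rfl)] at hy'
    obtain ⟨q, i, rfl, hq⟩ := hy
    obtain ⟨q', i', h3, hq'⟩ := hy'
    have h4 := Sum.inl.inj (Sum.inr.inj h3)
    have h5 : q = q' := congrArg Prod.fst h4
    subst h5
    exact absurd (hq.symm.trans hq') hab

theorem cut_far (hF : Frame (bs a b) (bt s t a b) (bT E a b) (Sum.inr (a, 0))
    (Sum.inr (b, 0) : HP V E)) {v : V} (hv : v = a ∨ v = b) {i : Fin 4} (hi : i ≠ 0) :
    cut (bs a b) (bt s t a b) {(Sum.inr (v, i) : HP V E)} = ∅ := by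
  have h1 : ¬ InU (bT E a b) (Sum.inr (a, 0)) (Sum.inr (b, 0) : HP V E) (Sum.inr (v, i)) := by
    unfold InU
    rw [mem_bT_inr]
    rintro (h | h | h)
    · exact h hv
    · exact hi (congrArg Prod.snd (Sum.inr.inj h))
    · exact hi (congrArg Prod.snd (Sum.inr.inj h))
  rw [Finset.eq_empty_iff_forall_notMem]
  intro y hy
  rw [mem_cut, Finset.mem_singleton, Finset.mem_singleton] at hy
  apply hy
  constructor
  · intro h
    have := hF.hs y
    rw [h] at this
    exact absurd this h1
  · intro h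
    have := hF.ht y
    rw [h] at this
    exact absurd this h1

/-- **Seymour's theorem with one balanced pair**: a law on cycles with given marginals, which is
balanced at the vertices `a` and `b`. -/
theorem cycle_law_bal (hl : ∀ e, s e ≠ t e) (y : E → ℚ) (hy : ∀ e, 0 ≤ y e)
    (hc : CutCond s t y) (hab : a ≠ b) (hk : 0 < k) (ha : ∑ e ∈ cut s t {a}, y e = k)
    (hb : ∑ e ∈ cut s t {b}, y e = k)
    (hsep : ∀ S : Finset V, a ∈ S → b ∉ S → k ≤ ∑ e ∈ cut s t S, y e) (sig tau : E → E)
    (h1 : ∀ e ∈ cut s t {b}, y e ≠ 0 → sig e ∈ cut s t {a} ∧ tau (sig e) = e ∧ y (sig e) = y e)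
    (h2 : ∀ f ∈ cut s t {a}, y f ≠ 0 → tau f ∈ cut s t {b} ∧ sig (tau f) = f ∧ y (tau f) = y f) :
    ∃ u : Finset E → ℚ, (∀ C, 0 ≤ u C) ∧ (∀ C, u C ≠ 0 → IsCycle s t C) ∧
      (∀ e, ∑ C, (if e ∈ C then u C else 0) = y e) ∧
      ∀ e ∈ cut s t {b}, ∀ f ∈ cut s t {b}, y e ≠ 0 → y f ≠ 0 → e ≠ f →
        ∑ C, (if e ∈ C ∧ f ∈ C then u C else 0) =
          ∑ C, (if sig e ∈ C ∧ sig f ∈ C then u C else 0) := by
  classical
  set c : ℚ := k + 2 * ∑ e, y e + 1 with hcdef
  have hs0 : 0 ≤ ∑ e, y e := Finset.sum_nonneg fun e _ => hy e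
  have hle : ∀ e, y e ≤ ∑ e, y e := fun e =>
    Finset.single_le_sum (fun e _ => hy e) (Finset.mem_univ e)
  have hwd : ∀ v, wdeg s t y v ≤ ∑ e, y e := fun v =>
    Finset.sum_le_sum_of_subset_of_nonneg (Finset.subset_univ _) fun e _ _ => hy e
  have hKK : KK (bs a b) (bt s t a b) (bT E a b) (Sum.inr (a, 0)) (Sum.inr (b, 0)) c k
      (bx s t y a b c) :=
    bal_KK hl hy (fun e => by have := hle e; linarith) (fun e => by have := hle e; linarith)
      (fun v => by have := hwd v; linarith) (by linarith) hc hab ha hb hsep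
  have hF := hKK.frame
  obtain ⟨W⟩ := main_law hKK hk (by linarith) (bal_axis hl hab h1 h2)
  -- the conditions for the parts `C` and `R`
  have hC1 : ∀ i, ∀ q : E × Bool,
      (W.C i ∩ cut (bs a b) (bt s t a b) {(Sum.inl q : HP V E)}).card = 1 :=
    fun i q => (W.hC i).2 _ (mem_bT_inl q)
  have hR1 : ∀ i, ∀ q : E × Bool,
      (W.R i ∩ cut (bs a b) (bt s t a b) {(Sum.inl q : HP V E)}).card = 1 :=
    fun i q => (W.hR i).degT _ (mem_bT_inl q)
  have hC0 : ∀ i, ∀ x : HP V E, x ∉ bT E a b →
      (W.C i ∩ cut (bs a b) (bt s t a b) {x}).card = 0 := by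
    intro i x hx
    rw [Finset.card_eq_zero, Finset.eq_empty_iff_forall_notMem]
    intro e he
    rw [Finset.mem_inter, mem_cut, Finset.mem_singleton, Finset.mem_singleton] at he
    obtain ⟨_, h3, h4, _⟩ := (W.hC i).1 e he.1
    exact he.2 (iff_of_false (fun h => hx (h ▸ h3)) (fun h => hx (h ▸ h4)))
  have hC2 : ∀ i, ∀ v, Even (∑ j : Fin 4,
      (W.C i ∩ cut (bs a b) (bt s t a b) {(Sum.inr (v, j) : HP V E)}).card) := by
    intro i v
    by_cases hv : v = a ∨ v = b
    · rw [Finset.sum_eq_zero fun j _ => hC0 i _ (by rw [mem_bT_inr, not_not]; exact hv)]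
      exact Even.zero
    · rw [Finset.sum_congr rfl fun j _ => (W.hC i).2 _ ((mem_bT_inr _).mpr hv)]
      decide
  have hRt : ∀ i, ∀ x, (x = a ∨ x = b) →
      (W.R i ∩ cut (bs a b) (bt s t a b) {(Sum.inr (x, 0) : HP V E)}).card = 0 ∨
      (W.R i ∩ cut (bs a b) (bt s t a b) {(Sum.inr (x, 0) : HP V E)}).card = 2 := by
    intro i x hx
    rcases hx with rfl | rfl
    · exact (W.hR i).dega
    · exact (W.hR i).degb
  have hR2 : ∀ i, ∀ v, Even (∑ j : Fin 4,
      (W.R i ∩ cut (bs a b) (bt s t a b) {(Sum.inr (v, j) : HP V E)}).card) := by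
    intro i v
    by_cases hv : v = a ∨ v = b
    · rw [Finset.sum_eq_single 0]
      · rcases hRt i v hv with h | h
        · rw [h]; decide
        · rw [h]; decide
      · intro j _ hj
        rw [cut_far hF hv hj, Finset.inter_empty, Finset.card_empty]
      · intro h; exact absurd (Finset.mem_univ _) h
    · rw [Finset.sum_congr rfl fun j _ => (W.hR i).degT _ ((mem_bT_inr _).mpr hv)]
      decide
  have hLC : ∀ i, ∃ L : List (Finset E), (∀ C ∈ L, IsCycle s t C) ∧
      ∀ e, (L.countP fun C => e ∈ C) =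
        if e ∈ (univ.filter fun e : E => (Sum.inl e : HE V E) ∉ W.C i) then 1 else 0 :=
    fun i => even_decomp hl _ _ rfl (bal_even hl (hC1 i) (hC2 i))
  have hLR : ∀ i, ∃ L : List (Finset E), (∀ C ∈ L, IsCycle s t C) ∧
      ∀ e, (L.countP fun C => e ∈ C) =
        if e ∈ (univ.filter fun e : E => (Sum.inl e : HE V E) ∉ W.R i) then 1 else 0 :=
    fun i => even_decomp hl _ _ rfl (bal_even hl (hR1 i) (hR2 i))
  choose L1 hL1 hL1' using hLC
  choose L3 hL3 hL3' using hLR
  have hcount : ∀ (P : Finset E → Prop) [DecidablePred P],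
      ∑ C, (if P C then (∑ i, W.w1 i * ((L1 i).count C : ℚ) + ∑ i, W.w3 i * ((L3 i).count C : ℚ))
        else 0) = ∑ i, W.w1 i * ((L1 i).countP fun C => P C) +
          ∑ i, W.w3 i * ((L3 i).countP fun C => P C) := by
    intro P _
    rw [← mix_count W.w1 L1 P, ← mix_count W.w3 L3 P, ← Finset.sum_add_distrib]
    apply Finset.sum_congr rfl
    intro C _
    split_ifs
    · rfl
    · simp
  refine ⟨fun C => ∑ i, W.w1 i * ((L1 i).count C : ℚ) + ∑ i, W.w3 i * ((L3 i).count C : ℚ),
    ?_, ?_, ?_, ?_⟩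
  · intro C
    apply add_nonneg
    · apply Finset.sum_nonneg
      intro i _
      have := (W.p1 i).le
      positivity
    · apply Finset.sum_nonneg
      intro i _
      have := (W.p3 i).le
      positivity
  · intro C hC
    by_contra hcon
    apply hC
    show ∑ i, W.w1 i * ((L1 i).count C : ℚ) + ∑ i, W.w3 i * ((L3 i).count C : ℚ) = 0
    rw [Finset.sum_eq_zero, Finset.sum_eq_zero, add_zero]
    · intro i _
      have : (L3 i).count C = 0 := by
        rw [List.count_eq_zero]
        exact fun h => hcon (hL3 i C h)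
      rw [this]
      simp
    · intro i _
      have : (L1 i).count C = 0 := by
        rw [List.count_eq_zero]
        exact fun h => hcon (hL1 i C h)
      rw [this]
      simp
  · intro e
    rw [hcount (fun C => e ∈ C)]
    have e1 : ∀ i, W.w1 i * ((L1 i).countP fun C => e ∈ C : ℕ) =
        W.w1 i - W.w1 i * (if (Sum.inl e : HE V E) ∈ W.C i then 1 else 0) := by
      intro i
      rw [hL1' i e]
      by_cases h : (Sum.inl e : HE V E) ∈ W.C i <;> simp [h]
    have e3 : ∀ i, W.w3 i * ((L3 i).countP fun C => e ∈ C : ℕ) =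
        W.w3 i - W.w3 i * (if (Sum.inl e : HE V E) ∈ W.R i then 1 else 0) := by
      intro i
      rw [hL3' i e]
      by_cases h : (Sum.inl e : HE V E) ∈ W.R i <;> simp [h]
    have hne : bs a b (Sum.inl e : HE V E) ≠ bt s t a b (Sum.inl e) := by
      simp [bs, bt]
    have e4 := W.mar _ hne
    have e5 := W.marR _ hne
    rw [Finset.sum_congr rfl fun i _ => e1 i, Finset.sum_congr rfl fun i _ => e3 i,
      Finset.sum_sub_distrib, Finset.sum_sub_distrib, W.m1, W.m3, e5]
    have e6 : bx s t y a b c (Sum.inl e) = c - y e := rfl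
    rw [e6] at e4
    linarith
  · intro e he f hf hye hyf hef
    obtain ⟨a1, a2, a3⟩ := h1 e he hye
    obtain ⟨b1, b2, b3⟩ := h1 f hf hyf
    have hsef : sig e ≠ sig f := by
      intro h
      apply hef
      rw [← a2, ← b2, h]
    rw [hcount (fun C => e ∈ C ∧ f ∈ C), hcount (fun C => sig e ∈ C ∧ sig f ∈ C)]
    -- the part `C` contributes nothing
    have z1 : ∀ x, (x = a ∨ x = b) → ∀ g ∈ cut s t {x}, ∀ g' ∈ cut s t {x}, g ≠ g' →
        ∀ i, ((L1 i).countP fun C => g ∈ C ∧ g' ∈ C) = 0 := by
      intro x hx g hg g' hg' hgg i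
      have h3 : ((univ.filter fun e : E => (Sum.inl e : HE V E) ∉ W.C i) ∩ cut s t {x}).card
          = 0 := by
        rw [ext_deg hl (hC1 i) hx]
        exact hC0 i _ (by rw [mem_bT_inr, not_not]; exact hx)
      rw [pair_count _ x (by omega) (L1 i) (hL1 i) (hL1' i) hg hg' hgg, if_neg]
      rintro ⟨h4, _⟩
      rw [Finset.card_eq_zero] at h3
      have h5 : g ∈ (univ.filter fun e : E => (Sum.inl e : HE V E) ∉ W.C i) ∩ cut s t {x} :=
        Finset.mem_inter.mpr ⟨h4, hg⟩
      rw [h3] at h5
      exact absurd h5 (Finset.notMem_empty _)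
    -- the part `R`
    have z3 : ∀ x, (x = a ∨ x = b) → ∀ g ∈ cut s t {x}, ∀ g' ∈ cut s t {x}, g ≠ g' →
        ∀ i, (((L3 i).countP fun C => g ∈ C ∧ g' ∈ C : ℕ) : ℚ) =
          ∑ j : Fin 4, ∑ j' : Fin 4,
            (if (Sum.inr (Sum.inl ((g, decide (t g = x)), j)) : HE V E) ∈ W.R i ∧
              (Sum.inr (Sum.inl ((g', decide (t g' = x)), j')) : HE V E) ∈ W.R i
              then 1 else 0) := by
      intro x hx g hg g' hg' hgg i
      have h3 : ((univ.filter fun e : E => (Sum.inl e : HE V E) ∉ W.R i) ∩ cut s t {x}).card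
          ≤ 2 := by
        rw [ext_deg hl (hR1 i) hx]
        rcases hRt i x hx with h | h
        · rw [h]; omega
        · rw [h]
      rw [pair_count _ x h3 (L3 i) (hL3 i) (hL3' i) hg hg' hgg]
      have h4 := ext_count (hR1 i) g (decide (t g = x))
      have h5 := ext_count (hR1 i) g' (decide (t g' = x))
      have h6 : (if g ∈ (univ.filter fun e : E => (Sum.inl e : HE V E) ∉ W.R i) ∧
          g' ∈ (univ.filter fun e : E => (Sum.inl e : HE V E) ∉ W.R i) then 1 else 0 : ℕ) =
          (if (Sum.inl g : HE V E) ∉ W.R i then 1 else 0) *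
            (if (Sum.inl g' : HE V E) ∉ W.R i then 1 else 0) := by
        by_cases h7 : (Sum.inl g : HE V E) ∈ W.R i <;>
          by_cases h8 : (Sum.inl g' : HE V E) ∈ W.R i <;> simp [h7, h8]
      rw [h6, h4, h5, Finset.sum_mul_sum]
      push_cast
      apply Finset.sum_congr rfl
      intro j _
      apply Finset.sum_congr rfl
      intro j' _
      by_cases h7 : (Sum.inr (Sum.inl ((g, decide (t g = x)), j)) : HE V E) ∈ W.R i <;>
        by_cases h8 : (Sum.inr (Sum.inl ((g', decide (t g' = x)), j')) : HE V E) ∈ W.R i <;>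
        simp only [h7, h8, and_self, and_true, and_false, if_true, if_false,
          mul_one, mul_zero]
    have y1 : ∀ x, (x = a ∨ x = b) → ∀ g ∈ cut s t {x}, ∀ g' ∈ cut s t {x}, g ≠ g' →
        ∑ i, W.w1 i * ((L1 i).countP fun C => g ∈ C ∧ g' ∈ C : ℕ) +
          ∑ i, W.w3 i * ((L3 i).countP fun C => g ∈ C ∧ g' ∈ C : ℕ) =
        ∑ j : Fin 4, ∑ j' : Fin 4, ∑ i, W.w3 i *
            (if (Sum.inr (Sum.inl ((g, decide (t g = x)), j)) : HE V E) ∈ W.R i ∧
              (Sum.inr (Sum.inl ((g', decide (t g' = x)), j')) : HE V E) ∈ W.R i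
              then 1 else 0) := by
      intro x hx g hg g' hg' hgg
      rw [Finset.sum_eq_zero fun i _ => by rw [z1 x hx g hg g' hg' hgg i, Nat.cast_zero, mul_zero],
        zero_add, Finset.sum_congr rfl fun i _ => by rw [z3 x hx g hg g' hg' hgg i]]
      simp_rw [Finset.mul_sum]
      rw [Finset.sum_comm]
      apply Finset.sum_congr rfl
      intro j _
      rw [Finset.sum_comm]
    rw [y1 b (Or.inr rfl) e he f hf hef, y1 a (Or.inl rfl) _ a1 _ b1 hsef]
    apply Finset.sum_congr rfl
    intro j _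
    apply Finset.sum_congr rfl
    intro j' _
    have hx1 : (Sum.inr (Sum.inl ((e, decide (t e = b)), j)) : HE V E) ∈
        cut (bs a b) (bt s t a b) {(Sum.inr (b, 0) : HP V E)} := by
      rw [mem_cut_term (Or.inr rfl)]
      exact ⟨_, _, rfl, flag_end he⟩
    have hx2 : (Sum.inr (Sum.inl ((f, decide (t f = b)), j')) : HE V E) ∈
        cut (bs a b) (bt s t a b) {(Sum.inr (b, 0) : HP V E)} := by
      rw [mem_cut_term (Or.inr rfl)]
      exact ⟨_, _, rfl, flag_end hf⟩
    refine W.bal _ hx1 _ hx2 ?_ ?_ ?_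
    · simp only [bx, Sum.elim_inr, Sum.elim_inl]
      exact div_ne_zero hye (by norm_num)
    · simp only [bx, Sum.elim_inr, Sum.elim_inl]
      exact div_ne_zero hyf (by norm_num)
    · intro h
      have h3 := congrArg Prod.fst (Sum.inl.inj (Sum.inr.inj h))
      exact hef (congrArg Prod.fst h3)

end Gadget

end Pool.Agent.Lib.MP_95bb8c_al.BU
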