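import Pool.Agent.Lib.MP_95bb8c_al.BU.WStarLaw
import Pool.Agent.Lib.MP_95bb8c_al.BU.SeymourBal
import Pool.Agent.Lib.MP_95bb8c_al.BU.Basic

set_option autoImplicit false
set_option linter.unusedSectionVars false

/-!
# The star law with one balanced pair of vertices
-/

namespace Pool.Agent.Lib.MP_95bb8c_al.BU.W

open Finset

variable {V E K : Type} [Fintype V] [DecidableEq V] [Fintype E] [DecidableEq E]
  [Fintype K] [DecidableEq K]
variable {s t : E → V} {P : V → E → K} {k : E → ℚ}

/-- A law with the right marginals uses the leaf edge at each leaf. -/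
theorem leaf_law (hl : ∀ e, s e ≠ t e) {u : Finset (E ⊕ (V × K)) → ℚ} (hu0 : ∀ C, 0 ≤ u C)
    (hu1 : ∀ C, u C ≠ 0 → IsCycle (ss s P) (sn t P) C)
    (hu2 : ∀ e, ∑ C, (if e ∈ C then u C else 0) = sy s t P k e) :
    ∀ C, u C ≠ 0 → ∀ v a, (C ∩ cut (ss s P) (sn t P) {Sum.inr (v, a)}).card =
      2 * (if (Sum.inr (v, a) : E ⊕ (V × K)) ∈ C then 1 else 0) := by
  intro C hC v a
  have h1 : ∑ C, u C * ((C ∩ cut (ss s P) (sn t P) {Sum.inr (v, a)}).card : ℚ) =
      2 * part s t P k v a := by
    rw [← leaf_sum hl v a]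
    have h2 : ∀ C : Finset (E ⊕ (V × K)),
        u C * ((C ∩ cut (ss s P) (sn t P) {Sum.inr (v, a)}).card : ℚ) =
        ∑ x ∈ cut (ss s P) (sn t P) {Sum.inr (v, a)}, (if x ∈ C then u C else 0) := by
      intro C
      rw [card_inter_sum]
      push_cast
      rw [Finset.mul_sum]
      apply Finset.sum_congr rfl
      intro x _
      split_ifs <;> simp
    simp_rw [h2]
    rw [Finset.sum_comm]
    exact Finset.sum_congr rfl fun x _ => hu2 x
  have h2 : ∑ C, u C * (2 * (if (Sum.inr (v, a) : E ⊕ (V × K)) ∈ C then 1 else 0) : ℕ) =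
      2 * part s t P k v a := by
    have h3 := hu2 (Sum.inr (v, a))
    have h4 : sy s t P k (Sum.inr (v, a)) = part s t P k v a := rfl
    rw [h4] at h3
    rw [← h3, Finset.mul_sum]
    apply Finset.sum_congr rfl
    intro C _
    split_ifs
    · push_cast
      ring
    · push_cast
      ring
  have h3 : ∑ C, u C * (((C ∩ cut (ss s P) (sn t P) {Sum.inr (v, a)}).card : ℚ) -
      ((2 * (if (Sum.inr (v, a) : E ⊕ (V × K)) ∈ C then 1 else 0) : ℕ) : ℚ)) = 0 := by
    simp_rw [mul_sub]
    rw [Finset.sum_sub_distrib, h1, h2, sub_self]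
  have h4 : ∀ C, u C ≠ 0 → (2 * (if (Sum.inr (v, a) : E ⊕ (V × K)) ∈ C then 1 else 0) : ℕ) ≤
      (C ∩ cut (ss s P) (sn t P) {Sum.inr (v, a)}).card := by
    intro C hC
    rcases (hu1 C hC).deg (Sum.inr (v, a)) with h | h
    · have h8 : (Sum.inr (v, a) : E ⊕ (V × K)) ∉ C := by
        intro h5
        have : (Sum.inr (v, a) : E ⊕ (V × K)) ∈
            C ∩ cut (ss s P) (sn t P) {Sum.inr (v, a)} :=
          Finset.mem_inter.mpr ⟨h5, mem_cut_leaf_inr.mpr ⟨rfl, rfl⟩⟩
        rw [Finset.card_eq_zero] at h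
        rw [h] at this
        simp at this
      rw [h, if_neg h8]
    · rw [h]
      split_ifs <;> omega
  have h5 : ∀ C, 0 ≤ u C * (((C ∩ cut (ss s P) (sn t P) {Sum.inr (v, a)}).card : ℚ) -
      ((2 * (if (Sum.inr (v, a) : E ⊕ (V × K)) ∈ C then 1 else 0) : ℕ) : ℚ)) := by
    intro C
    by_cases hC : u C = 0
    · rw [hC, zero_mul]
    · apply mul_nonneg (hu0 C)
      rw [sub_nonneg]
      exact_mod_cast h4 C hC
  have h6 := (Finset.sum_eq_zero_iff_of_nonneg fun C _ => h5 C).mp h3 C (Finset.mem_univ C)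
  rcases mul_eq_zero.mp h6 with h | h
  · exact absurd h hC
  · have h7 := sub_eq_zero.mp h
    exact_mod_cast h7

/-- At a vertex with injective labels the leaf edges correspond to the edges. -/
theorem leaf_mem (hl : ∀ e, s e ≠ t e) {C : Finset (E ⊕ (V × K))}
    (hleaf : ∀ v a, (C ∩ cut (ss s P) (sn t P) {Sum.inr (v, a)}).card =
      2 * (if (Sum.inr (v, a) : E ⊕ (V × K)) ∈ C then 1 else 0)) {v : V} {e : E}
    (he : e ∈ cut s t {v}) (hinj : ∀ e' ∈ cut s t {v}, P v e' = P v e → e' = e) :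
    (Sum.inl e : E ⊕ (V × K)) ∈ C ↔ (Sum.inr (v, P v e) : E ⊕ (V × K)) ∈ C := by
  have h2 := hleaf v (P v e)
  rw [leaf_inter hl] at h2
  have h1 : (((res C) ∩ cut s t {v}).filter fun e' => P v e' = P v e).card =
      (if (Sum.inr (v, P v e) : E ⊕ (V × K)) ∈ C then 1 else 0) := by
    omega
  constructor
  · intro h
    by_contra h3
    rw [if_neg h3, Finset.card_eq_zero] at h1
    have : e ∈ ((res C) ∩ cut s t {v}).filter fun e' => P v e' = P v e :=
      Finset.mem_filter.mpr ⟨Finset.mem_inter.mpr ⟨mem_res.mpr h, he⟩, rfl⟩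
    rw [h1] at this
    exact absurd this (Finset.notMem_empty _)
  · intro h
    rw [if_pos h] at h1
    obtain ⟨e', he'⟩ := Finset.card_pos.mp (by rw [h1]; exact Nat.one_pos)
    rw [Finset.mem_filter, Finset.mem_inter] at he'
    have := hinj e' he'.1.2 he'.2
    rw [← this]
    exact mem_res.mp he'.1.1

omit [Fintype K] in
theorem part_inj {v : V} {e : E} (he : e ∈ cut s t {v})
    (hinj : ∀ e' ∈ cut s t {v}, P v e' = P v e → e' = e) :
    part s t P k v (P v e) = k e := by
  unfold part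
  rw [Finset.sum_eq_single e]
  · rw [if_pos rfl]
  · intro e' he' hne
    rw [if_neg]
    exact fun h => hne (hinj e' he' h)
  · exact fun h => absurd he h

omit [Fintype K] in
theorem part_ne_zero {v : V} {l : K} (h : part s t P k v l ≠ 0) :
    ∃ e ∈ cut s t {v}, P v e = l := by
  obtain ⟨e, he, h1⟩ := Finset.exists_ne_zero_of_sum_ne_zero h
  split_ifs at h1 with h2
  · exact ⟨e, he, h2⟩
  · exact absurd rfl h1

theorem hub_sum (v : V) :
    ∑ x ∈ cut (ss s P) (sn t P) {Sum.inl v}, sy s t P k x = ∑ e ∈ cut s t {v}, k e := by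
  have h1 : cut (ss s P) (sn t P) {Sum.inl v} =
      (univ : Finset K).map ⟨fun a => (Sum.inr (v, a) : E ⊕ (V × K)), fun a b h => by simpa using h⟩ := by
    ext x
    rw [mem_cut_hub, Finset.mem_map]
    simp only [Finset.mem_univ, true_and, Function.Embedding.coeFn_mk]
    constructor
    · rintro ⟨a, rfl⟩
      exact ⟨a, rfl⟩
    · rintro ⟨a, rfl⟩
      exact ⟨a, rfl⟩
  rw [h1, Finset.sum_map]
  simp only [Function.Embedding.coeFn_mk, sy, Sum.elim_inr, part]
  rw [Finset.sum_comm]
  apply Finset.sum_congr rfl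
  intro e _
  simp

/-- **The star law with one balanced pair.** -/
theorem star_law_bal (hl : ∀ e, s e ≠ t e) (k : E → ℚ) (hk : ∀ e, 0 ≤ k e) (f : V → V)
    (hf : ∀ v, f v ≠ v)
    (hpart : ∀ v S, v ∈ S → f v ∉ S → ∑ e ∈ cut s t {v}, k e ≤ ∑ e ∈ cut s t S, k e)
    (P : V → E → K) (hP : ∀ v a, 2 * part s t P k v a ≤ ∑ e ∈ cut s t {v}, k e)
    {a b : V} (hab : a ≠ b) {d : ℚ} (hd : 0 < d) (ha : ∑ e ∈ cut s t {a}, k e = d)
    (hb : ∑ e ∈ cut s t {b}, k e = d)
    (hsep : ∀ S : Finset V, a ∈ S → b ∉ S → d ≤ ∑ e ∈ cut s t S, k e)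
    (ia : ∀ e ∈ cut s t {a}, ∀ e' ∈ cut s t {a}, P a e' = P a e → e' = e)
    (ib : ∀ e ∈ cut s t {b}, ∀ e' ∈ cut s t {b}, P b e' = P b e → e' = e)
    (sig tau : E → E) (sk tk : K → K) (hsk : ∀ e ∈ cut s t {b}, sk (P b e) = P a (sig e))
    (htk : ∀ e ∈ cut s t {a}, tk (P a e) = P b (tau e))
    (h1 : ∀ e ∈ cut s t {b}, sig e ∈ cut s t {a} ∧ tau (sig e) = e ∧ k (sig e) = k e)
    (h2 : ∀ e ∈ cut s t {a}, tau e ∈ cut s t {b} ∧ sig (tau e) = e ∧ k (tau e) = k e) :
    ∃ u : Finset E → ℚ, (∀ C, 0 ≤ u C) ∧ (∀ C, u C ≠ 0 → IsCycle s t C ∧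
      ∀ v, ∀ e ∈ C ∩ cut s t {v}, ∀ f ∈ C ∩ cut s t {v}, e ≠ f → P v e ≠ P v f) ∧
      (∀ e, ∑ C, (if e ∈ C then u C else 0) = k e) ∧
      ∀ e ∈ cut s t {b}, ∀ f ∈ cut s t {b}, k e ≠ 0 → k f ≠ 0 → e ≠ f →
        ∑ C, (if e ∈ C ∧ f ∈ C then u C else 0) =
          ∑ C, (if sig e ∈ C ∧ sig f ∈ C then u C else 0) := by
  classical
  have hsy : ∀ x, 0 ≤ sy s t P k x := by
    rintro (e | r)
    · exact hk e
    · simp only [sy, Sum.elim_inr, part]
      apply Finset.sum_nonneg
      intro e _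
      have := hk e
      split_ifs
      · exact this
      · exact le_rfl
  obtain ⟨u, hu0, hu1, hu2, hu3⟩ := cycle_law_bal (star_loop (P := P) hl) (sy s t P k) hsy
    (star_cut hl hk f hf hpart hP) (a := Sum.inl a) (b := Sum.inl b)
    (fun h => hab (Sum.inl.inj h)) hd (by rw [hub_sum, ha]) (by rw [hub_sum, hb])
    (by
      intro S haS hbS
      rw [star_cut_sum hl]
      set X : Finset V := univ.filter fun v => (Sum.inl v : V ⊕ (V × K)) ∈ S with hX
      have hXm : ∀ v, (Sum.inl v : V ⊕ (V × K)) ∈ S ↔ v ∈ X := by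
        intro v; rw [hX, Finset.mem_filter]; simp
      refine le_trans (hsep X ((hXm a).mp haS) (fun h => hbS ((hXm b).mpr h))) ?_
      unfold cut
      rw [Finset.sum_filter]
      apply Finset.sum_le_sum
      intro e _
      have h3 := hk e
      unfold cc
      simp only [hXm]
      by_cases c1 : s e ∈ X <;> by_cases c2 : t e ∈ X <;>
        by_cases c3 : (Sum.inr (s e, P (s e) e) : V ⊕ (V × K)) ∈ S <;>
        by_cases c4 : (Sum.inr (t e, P (t e) e) : V ⊕ (V × K)) ∈ S <;>
        simp [c1, c2, c3, c4] <;> linarith)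
    (Sum.elim Sum.inl (fun r => Sum.inr (a, sk r.2)))
    (Sum.elim Sum.inl (fun r => Sum.inr (b, tk r.2)))
    (by
      intro x hx hx0
      rw [mem_cut_hub] at hx
      obtain ⟨l, rfl⟩ := hx
      have hx1 : part s t P k b l ≠ 0 := hx0
      obtain ⟨e, he, rfl⟩ := part_ne_zero hx1
      obtain ⟨h3, h4, h5⟩ := h1 e he
      refine ⟨?_, ?_, ?_⟩
      · rw [mem_cut_hub]
        exact ⟨_, rfl⟩
      · simp only [Sum.elim_inr, hsk e he, htk _ h3, h4]
      · simp only [Sum.elim_inr, hsk e he, sy]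
        rw [part_inj h3 (ia _ h3), part_inj he (ib _ he), h5])
    (by
      intro x hx hx0
      rw [mem_cut_hub] at hx
      obtain ⟨l, rfl⟩ := hx
      have hx1 : part s t P k a l ≠ 0 := hx0
      obtain ⟨e, he, rfl⟩ := part_ne_zero hx1
      obtain ⟨h3, h4, h5⟩ := h2 e he
      refine ⟨?_, ?_, ?_⟩
      · rw [mem_cut_hub]
        exact ⟨_, rfl⟩
      · simp only [Sum.elim_inr, htk e he, hsk _ h3, h4]
      · simp only [Sum.elim_inr, htk e he, sy]
        rw [part_inj h3 (ib _ h3), part_inj he (ia _ he), h5])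
  have hleaf := leaf_law (k := k) hl hu0 hu1 hu2
  have hpush : ∀ (Q : Finset E → Prop) [DecidablePred Q],
      ∑ D : Finset E, (if Q D then ∑ C, (if res C = D then u C else 0) else 0) =
      ∑ C, (if Q (res C) then u C else 0) := by
    intro Q _
    have h3 : ∀ D : Finset E, (if Q D then ∑ C, (if res C = D then u C else 0) else 0) =
        ∑ C, (if res C = D then (if Q D then u C else 0) else 0) := by
      intro D
      split_ifs
      · rfl
      · simp
    rw [Finset.sum_congr rfl fun D _ => h3 D, Finset.sum_comm]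
    apply Finset.sum_congr rfl
    intro C _
    rw [Finset.sum_ite_eq]
    simp only [Finset.mem_univ, if_true]
  refine ⟨fun D => ∑ C, (if res C = D then u C else 0), ?_, ?_, ?_, ?_⟩
  · intro D
    apply Finset.sum_nonneg
    intro C _
    have := hu0 C
    split_ifs
    · exact this
    · exact le_rfl
  · intro D hD
    obtain ⟨C, -, hC⟩ := Finset.exists_ne_zero_of_sum_ne_zero hD
    split_ifs at hC with h
    · rw [← h]
      exact res_cycle hl (hu1 C hC) (hleaf C hC)
    · exact absurd rfl hC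
  · intro e
    rw [hpush (fun D => e ∈ D)]
    have h3 := hu2 (Sum.inl e)
    rw [show sy s t P k (Sum.inl e) = k e from rfl] at h3
    rw [← h3]
    apply Finset.sum_congr rfl
    intro C _
    simp only [mem_res]
  · intro e he g hg hke hkg heg
    rw [hpush (fun D => e ∈ D ∧ g ∈ D), hpush (fun D => sig e ∈ D ∧ sig g ∈ D)]
    obtain ⟨a1, a2, a3⟩ := h1 e he
    obtain ⟨b1, b2, b3⟩ := h1 g hg
    have h3 := hu3 (Sum.inr (b, P b e)) (mem_cut_hub.mpr ⟨_, rfl⟩) (Sum.inr (b, P b g))
      (mem_cut_hub.mpr ⟨_, rfl⟩)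
      (by
        show part s t P k b (P b e) ≠ 0
        rw [part_inj he (ib _ he)]
        exact hke)
      (by
        show part s t P k b (P b g) ≠ 0
        rw [part_inj hg (ib _ hg)]
        exact hkg)
      (by
        intro h
        have h4 := congrArg Prod.snd (Sum.inr.inj h)
        exact heg ((ib g hg e he h4)))
    have h4 : ∀ x, (∀ e ∈ cut s t {x}, ∀ e' ∈ cut s t {x}, P x e' = P x e → e' = e) →
        ∀ e ∈ cut s t {x}, ∀ g ∈ cut s t {x},
        ∑ C, (if e ∈ res C ∧ g ∈ res C then u C else 0) =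
        ∑ C, (if (Sum.inr (x, P x e) : E ⊕ (V × K)) ∈ C ∧
          (Sum.inr (x, P x g) : E ⊕ (V × K)) ∈ C then u C else 0) := by
      intro x ix e he g hg
      apply Finset.sum_congr rfl
      intro C _
      by_cases hC : u C = 0
      · rw [hC]
        simp
      · have h5 := leaf_mem hl (hleaf C hC) he (ix e he)
        have h6 := leaf_mem hl (hleaf C hC) hg (ix g hg)
        simp only [mem_res, h5, h6]
    rw [h4 b ib e he g hg, h4 a ia _ a1 _ b1, h3]
    simp only [Sum.elim_inr, hsk e he, hsk g hg]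

end Pool.Agent.Lib.MP_95bb8c_al.BU.W

namespace Pool.Agent.Lib.MP_95bb8c_al.BU

open Finset

variable {V E L : Type} [Fintype V] [DecidableEq V] [Fintype E] [DecidableEq E]
  [Fintype L] [DecidableEq L]
variable {s t : E → V} {bar : V → V} {sig : V → E → E}

/-- **Theorem A with an exceptional pair**: a law of cycles with all turns across given partitions
into parts with at most half of the edges at all vertices except `a` and `bar a`, which is exactly
balanced at `a` and `bar a`. -/
theorem star_law_bal (h : Conn2 s t bar sig) (hdg : ∀ v, (cut s t {v}).card ≠ 1) (a : V)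
    (π : V → E → L)
    (hπ : ∀ v, v ≠ a → v ≠ bar a → ∀ l, 2 * (part s t π v l).card ≤ dg s t v) :
    ∃ u : Finset E → ℚ, (∀ C, 0 ≤ u C) ∧
      (∀ C, u C ≠ 0 → IsCycle s t C ∧ ∀ v, v ≠ a → v ≠ bar a → ∀ e ∈ C, ∀ f ∈ C,
        e ∈ cut s t {v} → f ∈ cut s t {v} → e ≠ f → π v e ≠ π v f) ∧
      (∀ e, ∑ C, (if e ∈ C then u C else 0) = 1) ∧
      ∀ v, (v = a ∨ v = bar a) → ∀ e ∈ cut s t {v}, ∀ f ∈ cut s t {v},
        pw u e f = pw u (sig v e) (sig v f) := by
  classical
  set P : V → E → L ⊕ E := fun v e => if v = a ∨ v = bar a then Sum.inr e else Sum.inl (π v e)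
    with hPdef
  have hPs : ∀ v, (v = a ∨ v = bar a) → ∀ e, P v e = Sum.inr e := by
    intro v hv e
    simp only [hPdef, if_pos hv]
  have hPn : ∀ v, ¬ (v = a ∨ v = bar a) → ∀ e, P v e = Sum.inl (π v e) := by
    intro v hv e
    simp only [hPdef, if_neg hv]
  have hcard : ∀ S : Finset V, ∑ e ∈ cut s t S, (1 : ℚ) = ((cut s t S).card : ℚ) := by
    intro S
    rw [Finset.sum_const, nsmul_eq_mul, mul_one]
  have hpart : ∀ v S, v ∈ S → bar v ∉ S →
      ∑ e ∈ cut s t {v}, (1 : ℚ) ≤ ∑ e ∈ cut s t S, (1 : ℚ) := by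
    intro v S h1 h2
    rw [hcard, hcard]
    exact_mod_cast h.lam v S h1 h2
  have hP : ∀ v (l : L ⊕ E), 2 * W.part s t P (fun _ => 1) v l ≤ ∑ e ∈ cut s t {v}, (1 : ℚ) := by
    intro v l
    rw [hcard]
    have h3 : W.part s t P (fun _ => 1) v l =
        (((cut s t {v}).filter fun e => P v e = l).card : ℚ) := by
      unfold W.part
      rw [← Finset.sum_filter, Finset.sum_const, nsmul_eq_mul, mul_one]
    rw [h3]
    by_cases hv : v = a ∨ v = bar a
    · have h4 : ((cut s t {v}).filter fun e => P v e = l).card ≤ 1 := by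
        rw [Finset.card_le_one]
        intro e he g hg
        rw [Finset.mem_filter, hPs v hv] at he hg
        exact Sum.inr.inj (he.2.trans hg.2.symm)
      have h5 : ((cut s t {v}).filter fun e => P v e = l).card ≤ (cut s t {v}).card :=
        Finset.card_le_card (Finset.filter_subset _ _)
      have h6 := hdg v
      have h7 : 2 * ((cut s t {v}).filter fun e => P v e = l).card ≤ (cut s t {v}).card := by
        omega
      exact_mod_cast h7
    · rcases l with l | g
      · have h4 : ((cut s t {v}).filter fun e => P v e = Sum.inl l) = part s t π v l := by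
          unfold part
          apply Finset.filter_congr
          intro e _
          rw [hPn v hv, Sum.inl.injEq]
        rw [h4]
        have h5 := hπ v (fun h6 => hv (Or.inl h6)) (fun h6 => hv (Or.inr h6)) l
        exact_mod_cast h5
      · have h4 : ((cut s t {v}).filter fun e => P v e = Sum.inr g) = ∅ := by
          rw [Finset.filter_eq_empty_iff]
          intro e _
          rw [hPn v hv]
          simp
        rw [h4, Finset.card_empty]
        simp
  have hpwself : ∀ u : Finset E → ℚ, (∀ e, ∑ C, (if e ∈ C then u C else 0) = 1) →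
      ∀ e, pw u e e = 1 := by
    intro u hu e
    rw [← hu e]
    unfold pw
    refine Finset.sum_congr rfl fun C _ => ?_
    simp only [and_self]
  have hturn : ∀ C : Finset E, (∀ v, ∀ e ∈ C ∩ cut s t {v}, ∀ f ∈ C ∩ cut s t {v}, e ≠ f →
      P v e ≠ P v f) → ∀ v, v ≠ a → v ≠ bar a → ∀ e ∈ C, ∀ f ∈ C,
        e ∈ cut s t {v} → f ∈ cut s t {v} → e ≠ f → π v e ≠ π v f := by
    intro C hC v hva hvb e he f hf hev hfv hef h3
    have hv : ¬ (v = a ∨ v = bar a) := by
      rintro (h4 | h4)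
      · exact hva h4
      · exact hvb h4
    apply hC v e (Finset.mem_inter.mpr ⟨he, hev⟩) f (Finset.mem_inter.mpr ⟨hf, hfv⟩) hef
    rw [hPn v hv, hPn v hv, h3]
  by_cases hd0 : (cut s t {a}).card = 0
  · have hd1 : (cut s t {bar a}).card = 0 := by
      have := h.dg_bar a
      unfold dg at this
      omega
    obtain ⟨u, hu0, hu1, hu2⟩ := W.star_law h.hl (fun _ => 1) (fun _ => zero_le_one) bar h.bar_ne
      hpart P hP
    refine ⟨u, hu0, fun C hC => ⟨(hu1 C hC).1, hturn C (hu1 C hC).2⟩, hu2, ?_⟩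
    intro v hv e he
    rw [Finset.card_eq_zero] at hd0 hd1
    rcases hv with rfl | rfl
    · rw [hd0] at he
      exact absurd he (Finset.notMem_empty _)
    · rw [hd1] at he
      exact absurd he (Finset.notMem_empty _)
  · have hdb : (cut s t {bar a}).card = (cut s t {a}).card := h.dg_bar a
    have hback : ∀ e ∈ cut s t {bar a}, sig (bar a) e ∈ cut s t {a} ∧
        sig a (sig (bar a) e) = e := by
      intro e he
      have h3 := h.mem (bar a) e he
      have h4 := h.inv (bar a) e he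
      rw [h.bar_bar] at h3 h4
      exact ⟨h3, h4⟩
    obtain ⟨u, hu0, hu1, hu2, hu3⟩ := W.star_law_bal h.hl (fun _ => 1) (fun _ => zero_le_one) bar
      h.bar_ne hpart P hP (a := a) (b := bar a) (h.bar_ne a).symm
      (d := ((cut s t {a}).card : ℚ)) (by exact_mod_cast Nat.pos_of_ne_zero hd0) (hcard _)
      (by rw [hcard, hdb]) (fun S h1 h2 => by
        have h3 := hpart a S h1 h2
        rw [hcard {a}] at h3
        exact h3)
      (fun e _ e' _ h3 => by
        rw [hPs a (Or.inl rfl), hPs a (Or.inl rfl)] at h3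
        exact Sum.inr.inj h3)
      (fun e _ e' _ h3 => by
        rw [hPs (bar a) (Or.inr rfl), hPs (bar a) (Or.inr rfl)] at h3
        exact Sum.inr.inj h3)
      (sig (bar a)) (sig a) (Sum.map id (sig (bar a))) (Sum.map id (sig a))
      (fun e _ => by
        rw [hPs a (Or.inl rfl), hPs (bar a) (Or.inr rfl)]
        rfl)
      (fun e _ => by
        rw [hPs a (Or.inl rfl), hPs (bar a) (Or.inr rfl)]
        rfl)
      (fun e he => ⟨(hback e he).1, (hback e he).2, rfl⟩)
      (fun e he => ⟨h.mem a e he, h.inv a e he, rfl⟩)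
    have hbal : ∀ e ∈ cut s t {bar a}, ∀ f ∈ cut s t {bar a},
        pw u e f = pw u (sig (bar a) e) (sig (bar a) f) := by
      intro e he f hf
      by_cases hef : e = f
      · subst hef
        rw [hpwself u hu2, hpwself u hu2]
      · exact hu3 e he f hf one_ne_zero one_ne_zero hef
    refine ⟨u, hu0, fun C hC => ⟨(hu1 C hC).1, hturn C (hu1 C hC).2⟩, hu2, ?_⟩
    rintro v (rfl | rfl) e he f hf
    · have h3 := hbal _ (h.mem v e he) _ (h.mem v f hf)
      rw [h.inv v e he, h.inv v f hf] at h3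
      exact h3.symm
    · exact hbal e he f hf

end Pool.Agent.Lib.MP_95bb8c_al.BU
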