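import Pool.Agent.Lib.MP_95bb8c_al.BU.Words
import Pool.Agent.Lib.MP_95bb8c_al.BU.StarLawBal

set_option autoImplicit false
set_option linter.unusedSectionVars false

namespace Pool.Agent.Lib.MP_95bb8c_al.BU

open Finset

variable {n : ℕ}

open Classical in
/-- The tiling theorem for words in which all generators except `a₀` have few readings. -/
theorem few_readings (hn : 1 < n) (U : List (List (Letter n))) (hU : CycRed U)
    (hconn : Conn (src U) (tgt U)) (hlam : ∀ v, lam U v (bar v) = (star U v).card) (a₀ : Fin n)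
    (h : ∀ a : Fin n, a ≠ a₀ → (readings U a).card ≤ 4 ∨
      ∃ r, occ U a ≤ 2 * (univ.filter fun p : Pos U => p.letter.1 = a ∧ reading p = r).card) :
    ∃ L : List (Finset (Pos U)), (∀ C ∈ L, IsCycle (src U) (tgt U) C) ∧ (∃ C ∈ L, 3 ≤ C.card) ∧
      ∀ v, ∀ e ∈ star U v, ∀ f ∈ star U v,
        (L.countP fun C => e ∈ C ∧ f ∈ C) =
          (L.countP fun C => conMap U v e ∈ C ∧ conMap U v f ∈ C) := by
  refine few_readings_of_star hn U hU hconn hlam a₀ ?_ h
  intro π hπ
  have hX : ∀ v : Letter n, v ∈ (univ.filter fun v : Letter n => v.1 = a₀) ↔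
      (v = (a₀, true) ∨ v = bar (a₀, true)) := by
    rintro ⟨v1, v2⟩
    rw [Finset.mem_filter]
    unfold bar
    cases v2 <;> simp
  have hC := conn2_words hU hlam
  have hcard : 2 < Fintype.card (Letter n) := by
    rw [Fintype.card_prod, Fintype.card_fin, Fintype.card_bool]
    omega
  have hdg : ∀ v, (cut (src U) (tgt U) {v}).card ≠ 1 := by
    intro v
    have h1 : 2 ≤ (cut (src U) (tgt U) {v}).card :=
      two_le_dg hC.hl hcard hconn bar hC.bar_bar hC.bar_ne hC.dg_bar hC.lam v
    omega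
  obtain ⟨u, hu0, hu1, hu2, hu3⟩ := star_law_bal hC hdg (a₀, true) π
    (fun v hv hv' l => hπ v (fun h1 => by
      rcases (hX v).1 h1 with h2 | h2
      · exact hv h2
      · exact hv' h2) l)
  refine ⟨u, hu0, fun C hC => ⟨(hu1 C hC).1, ?_⟩, hu2, ?_⟩
  · intro v hv
    exact (hu1 C hC).2 v (fun h1 => hv ((hX v).2 (Or.inl h1)))
      (fun h1 => hv ((hX v).2 (Or.inr h1)))
  · intro v hv e he f hf hef
    exact hu3 v ((hX v).1 hv) e he f hf

end Pool.Agent.Lib.MP_95bb8c_al.BU
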