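import Pool.Agent.Lib.MP_95bb8c_al.BU.Defs

set_option autoImplicit false
set_option linter.unusedSectionVars false

namespace Pool.Agent.Lib.MP_95bb8c_al.BU

open Finset

variable {E K : Type} [DecidableEq E] [DecidableEq K]

/-- The conclusion of the potentials lemma for four classes. -/
private def PF (x : Fin 4 → ℕ) (d : ℕ) (c : Fin 4 → Fin 4 → ℝ) : Prop :=
    ∃ (α : Fin 4 → ℝ) (P Q : Fin 4 → Fin 4),
      (∀ l, 2 * (∑ i, if P i = l then x i else 0) ≤ d) ∧
      (∀ l, 2 * (∑ i, if Q i = l then x i else 0) ≤ d) ∧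
      (∀ i j, P i ≠ P j → c i j ≤ α i + α j) ∧
      ∀ i j, Q i ≠ Q j → α i + α j ≤ c i j

private theorem pf_perm (e : Equiv.Perm (Fin 4)) (x : Fin 4 → ℕ) (d : ℕ)
    (c : Fin 4 → Fin 4 → ℝ) (h : PF (fun i => x (e i)) d (fun i j => c (e i) (e j))) :
    PF x d c := by
  obtain ⟨α, P, Q, h1, h2, h3, h4⟩ := h
  refine ⟨fun i => α (e.symm i), fun i => P (e.symm i), fun i => Q (e.symm i), ?_, ?_, ?_, ?_⟩
  · intro l
    rw [← Equiv.sum_comp e (fun i => if P (e.symm i) = l then x i else 0)]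
    simpa using h1 l
  · intro l
    rw [← Equiv.sum_comp e (fun i => if Q (e.symm i) = l then x i else 0)]
    simpa using h2 l
  · intro i j hij
    have := h3 (e.symm i) (e.symm j) hij
    simpa using this
  · intro i j hij
    have := h4 (e.symm i) (e.symm j) hij
    simpa using this

/-- The median of three numbers. -/
private theorem med3 (a : Fin 4 → ℝ) : ∃ (t : ℝ) (p q : Fin 4), p ≠ 0 ∧ q ≠ 0 ∧
    (∀ j, j ≠ 0 → j ≠ p → a j ≤ t) ∧ (∀ j, j ≠ 0 → j ≠ q → t ≤ a j) := by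
  have key : ∀ i j k : Fin 4, i ≠ 0 → k ≠ 0 → (∀ m : Fin 4, m = 0 ∨ m = i ∨ m = j ∨ m = k) →
      a i ≤ a j → a j ≤ a k → ∃ (t : ℝ) (p q : Fin 4), p ≠ 0 ∧ q ≠ 0 ∧
      (∀ j, j ≠ 0 → j ≠ p → a j ≤ t) ∧ (∀ j, j ≠ 0 → j ≠ q → t ≤ a j) := by
    intro i j k hi hk hall h1 h2
    refine ⟨a j, k, i, hk, hi, ?_, ?_⟩
    · intro m hm0 hmk
      rcases hall m with rfl | rfl | rfl | rfl
      · exact absurd rfl hm0
      · exact h1
      · exact le_rfl
      · exact absurd rfl hmk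
    · intro m hm0 hmi
      rcases hall m with rfl | rfl | rfl | rfl
      · exact absurd rfl hm0
      · exact absurd rfl hmi
      · exact le_rfl
      · exact h2
  rcases le_total (a 1) (a 2) with h12 | h12 <;> rcases le_total (a 1) (a 3) with h13 | h13 <;>
    rcases le_total (a 2) (a 3) with h23 | h23
  · exact key 1 2 3 (by decide) (by decide) (by decide) h12 h23
  · exact key 1 3 2 (by decide) (by decide) (by decide) h13 h23
  · exact key 3 1 2 (by decide) (by decide) (by decide) h13 h12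
  · exact key 3 1 2 (by decide) (by decide) (by decide) h13 h12
  · exact key 2 1 3 (by decide) (by decide) (by decide) h12 h13
  · exact key 2 1 3 (by decide) (by decide) (by decide) h12 h13
  · exact key 2 3 1 (by decide) (by decide) (by decide) h23 h13
  · exact key 3 2 1 (by decide) (by decide) (by decide) h23 h12

private theorem parts_star (x : Fin 4 → ℕ) (d : ℕ) (hx : ∀ i, 2 * x i ≤ d)
    (h1 : 2 * (x 0 + x 1) ≤ d) (h2 : 2 * (x 0 + x 2) ≤ d) (h3 : 2 * (x 0 + x 3) ≤ d)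
    (p : Fin 4) (hp : p ≠ 0) (l : Fin 4) :
    2 * (∑ i : Fin 4, if (if i = 0 then p else i) = l then x i else 0) ≤ d := by
  have := hx 0
  have := hx 1
  have := hx 2
  have := hx 3
  fin_cases p
  · exact absurd rfl hp
  all_goals
    fin_cases l <;> simp [Fin.sum_univ_four] <;> omega

private theorem pf_star (x : Fin 4 → ℕ) (d : ℕ) (hx : ∀ i, 2 * x i ≤ d)
    (c : Fin 4 → Fin 4 → ℝ) (hc : ∀ i j, c i j = c j i)
    (h1 : 2 * (x 0 + x 1) ≤ d) (h2 : 2 * (x 0 + x 2) ≤ d) (h3 : 2 * (x 0 + x 3) ≤ d) :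
    PF x d c := by
  set β : Fin 4 → ℝ := ![0, (c 1 2 + c 1 3 - c 2 3) / 2, (c 1 2 + c 2 3 - c 1 3) / 2,
    (c 1 3 + c 2 3 - c 1 2) / 2] with hβ
  obtain ⟨t, p, q, hp, hq, hpt, hqt⟩ := med3 (fun j => c 0 j - β j)
  have b1 : β 1 = (c 1 2 + c 1 3 - c 2 3) / 2 := rfl
  have b2 : β 2 = (c 1 2 + c 2 3 - c 1 3) / 2 := rfl
  have b3 : β 3 = (c 1 3 + c 2 3 - c 1 2) / 2 := rfl
  have hzero : ∀ i j : Fin 4, i ≠ 0 → j ≠ 0 → i ≠ j → c i j = β i + β j := by
    have c21 := hc 2 1
    have c31 := hc 3 1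
    have c32 := hc 3 2
    intro i j hi hj hij
    fin_cases i <;> fin_cases j <;> first
      | exact absurd rfl hi
      | exact absurd rfl hj
      | exact absurd rfl hij
      | (show c 1 2 = β 1 + β 2; rw [b1, b2]; ring)
      | (show c 1 3 = β 1 + β 3; rw [b1, b3]; ring)
      | (show c 2 3 = β 2 + β 3; rw [b2, b3]; ring)
      | (show c 2 1 = β 2 + β 1; rw [b1, b2, c21]; ring)
      | (show c 3 1 = β 3 + β 1; rw [b1, b3, c31]; ring)
      | (show c 3 2 = β 3 + β 2; rw [b2, b3, c32]; ring)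
  refine ⟨fun i => if i = 0 then t else β i, fun i => if i = 0 then p else i,
    fun i => if i = 0 then q else i, parts_star x d hx h1 h2 h3 p hp,
    parts_star x d hx h1 h2 h3 q hq, ?_, ?_⟩
  · intro i j hij
    by_cases hi : i = 0
    · by_cases hj : j = 0
      · subst hi; subst hj; exact absurd rfl hij
      · subst hi
        simp only [if_true, if_neg hj] at hij ⊢
        have := hpt j hj (fun h => hij h.symm)
        linarith
    · by_cases hj : j = 0
      · subst hj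
        simp only [if_true, if_neg hi] at hij ⊢
        have := hpt i hi hij
        rw [hc i 0]
        linarith
      · simp only [if_neg hi, if_neg hj] at hij ⊢
        exact le_of_eq (hzero i j hi hj hij)
  · intro i j hij
    by_cases hi : i = 0
    · by_cases hj : j = 0
      · subst hi; subst hj; exact absurd rfl hij
      · subst hi
        simp only [if_true, if_neg hj] at hij ⊢
        have := hqt j hj (fun h => hij h.symm)
        linarith
    · by_cases hj : j = 0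
      · subst hj
        simp only [if_true, if_neg hi] at hij ⊢
        have := hqt i hi hij
        rw [hc i 0]
        linarith
      · simp only [if_neg hi, if_neg hj] at hij ⊢
        exact le_of_eq (hzero i j hi hj hij).symm

/-- The partition in which the two elements of `{1, 2, 3}` different from `p` are merged. -/
private def mg (p i : Fin 4) : Fin 4 :=
  if i = 0 then 0 else if i = p then 1 else 2

private theorem parts_tri (x : Fin 4 → ℕ) (d : ℕ) (hx : ∀ i, 2 * x i ≤ d)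
    (h1 : 2 * (x 2 + x 3) ≤ d) (h2 : 2 * (x 1 + x 3) ≤ d) (h3 : 2 * (x 1 + x 2) ≤ d)
    (p : Fin 4) (hp : p ≠ 0) (l : Fin 4) :
    2 * (∑ i : Fin 4, if mg p i = l then x i else 0) ≤ d := by
  have := hx 0
  have := hx 1
  have := hx 2
  have := hx 3
  fin_cases p
  · exact absurd rfl hp
  all_goals
    fin_cases l <;> simp [Fin.sum_univ_four, mg] <;> omega

private theorem pf_tri (x : Fin 4 → ℕ) (d : ℕ) (hx : ∀ i, 2 * x i ≤ d)
    (c : Fin 4 → Fin 4 → ℝ) (hc : ∀ i j, c i j = c j i)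
    (h1 : 2 * (x 2 + x 3) ≤ d) (h2 : 2 * (x 1 + x 3) ≤ d) (h3 : 2 * (x 1 + x 2) ≤ d) :
    PF x d c := by
  obtain ⟨t, p, q, hp, hq, hpt, hqt⟩ := med3 ![0, (c 0 2 + c 0 3 - c 2 3) / 2,
    (c 0 1 + c 0 3 - c 1 3) / 2, (c 0 1 + c 0 2 - c 1 2) / 2]
  have c10 := hc 1 0
  have c20 := hc 2 0
  have c30 := hc 3 0
  have c21 := hc 2 1
  have c31 := hc 3 1
  have c32 := hc 3 2
  refine ⟨![t, c 0 1 - t, c 0 2 - t, c 0 3 - t], mg q, mg p,
    parts_tri x d hx h1 h2 h3 q hq, parts_tri x d hx h1 h2 h3 p hp, ?_, ?_⟩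
  · have k1 := hqt 1 (by decide)
    have k2 := hqt 2 (by decide)
    have k3 := hqt 3 (by decide)
    simp only [Matrix.cons_val_one, Matrix.cons_val_zero, Matrix.cons_val] at k1 k2 k3
    fin_cases q
    · exact absurd rfl hq
    all_goals
      simp at k1 k2 k3
      intro i j hij
      fin_cases i <;> fin_cases j <;> simp [mg] at hij ⊢ <;> linarith
  · have k1 := hpt 1 (by decide)
    have k2 := hpt 2 (by decide)
    have k3 := hpt 3 (by decide)
    simp only [Matrix.cons_val_one, Matrix.cons_val_zero, Matrix.cons_val] at k1 k2 k3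
    fin_cases p
    · exact absurd rfl hp
    all_goals
      simp at k1 k2 k3
      intro i j hij
      fin_cases i <;> fin_cases j <;> simp [mg] at hij ⊢ <;> linarith

/-- The potentials lemma for four classes with sizes `x` (total `d`), none more than `d / 2`. -/
theorem pot_fin4 (x : Fin 4 → ℕ) (d : ℕ) (hd : ∑ i, x i = d) (hx : ∀ i, 2 * x i ≤ d)
    (c : Fin 4 → Fin 4 → ℝ) (hc : ∀ i j, c i j = c j i) :
    ∃ (α : Fin 4 → ℝ) (P Q : Fin 4 → Fin 4),
      (∀ l, 2 * (∑ i, if P i = l then x i else 0) ≤ d) ∧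
      (∀ l, 2 * (∑ i, if Q i = l then x i else 0) ≤ d) ∧
      (∀ i j, P i ≠ P j → c i j ≤ α i + α j) ∧
      ∀ i j, Q i ≠ Q j → α i + α j ≤ c i j := by
  change PF x d c
  have hsum : x 0 + x 1 + x 2 + x 3 = d := by
    rw [← hd, Fin.sum_univ_four]
  have s1 : Equiv.swap (0 : Fin 4) 1 0 = 1 ∧ Equiv.swap (0 : Fin 4) 1 1 = 0 ∧
    Equiv.swap (0 : Fin 4) 1 2 = 2 ∧ Equiv.swap (0 : Fin 4) 1 3 = 3 := by decide
  have s2 : Equiv.swap (0 : Fin 4) 2 0 = 2 ∧ Equiv.swap (0 : Fin 4) 2 1 = 1 ∧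
    Equiv.swap (0 : Fin 4) 2 2 = 0 ∧ Equiv.swap (0 : Fin 4) 2 3 = 3 := by decide
  have s3 : Equiv.swap (0 : Fin 4) 3 0 = 3 ∧ Equiv.swap (0 : Fin 4) 3 1 = 1 ∧
    Equiv.swap (0 : Fin 4) 3 2 = 2 ∧ Equiv.swap (0 : Fin 4) 3 3 = 0 := by decide
  obtain ⟨s10, s11, s12, s13⟩ := s1
  obtain ⟨s20, s21, s22, s23⟩ := s2
  obtain ⟨s30, s31, s32, s33⟩ := s3
  have hsw : ∀ i : Fin 4, (∀ j : Fin 4, 2 * x (Equiv.swap 0 i j) ≤ d) := fun i j => hx _
  have hcw : ∀ i : Fin 4, ∀ j k : Fin 4, c (Equiv.swap 0 i j) (Equiv.swap 0 i k) =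
      c (Equiv.swap 0 i k) (Equiv.swap 0 i j) := fun i j k => hc _ _
  have cases8 :
      (2 * (x 0 + x 1) ≤ d ∧ 2 * (x 0 + x 2) ≤ d ∧ 2 * (x 0 + x 3) ≤ d) ∨
      (2 * (x 1 + x 0) ≤ d ∧ 2 * (x 1 + x 2) ≤ d ∧ 2 * (x 1 + x 3) ≤ d) ∨
      (2 * (x 2 + x 1) ≤ d ∧ 2 * (x 2 + x 0) ≤ d ∧ 2 * (x 2 + x 3) ≤ d) ∨
      (2 * (x 3 + x 1) ≤ d ∧ 2 * (x 3 + x 2) ≤ d ∧ 2 * (x 3 + x 0) ≤ d) ∨
      (2 * (x 2 + x 3) ≤ d ∧ 2 * (x 1 + x 3) ≤ d ∧ 2 * (x 1 + x 2) ≤ d) ∨
      (2 * (x 2 + x 3) ≤ d ∧ 2 * (x 0 + x 3) ≤ d ∧ 2 * (x 0 + x 2) ≤ d) ∨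
      (2 * (x 0 + x 3) ≤ d ∧ 2 * (x 1 + x 3) ≤ d ∧ 2 * (x 1 + x 0) ≤ d) ∨
      (2 * (x 2 + x 0) ≤ d ∧ 2 * (x 1 + x 0) ≤ d ∧ 2 * (x 1 + x 2) ≤ d) := by
    omega
  rcases cases8 with h | h | h | h | h | h | h | h
  · exact pf_star x d hx c hc h.1 h.2.1 h.2.2
  · apply pf_perm (Equiv.swap 0 1)
    apply pf_star _ _ (hsw 1) _ (hcw 1)
    · simpa only [s10, s11, s12, s13] using h.1
    · simpa only [s10, s11, s12, s13] using h.2.1
    · simpa only [s10, s11, s12, s13] using h.2.2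
  · apply pf_perm (Equiv.swap 0 2)
    apply pf_star _ _ (hsw 2) _ (hcw 2)
    · simpa only [s20, s21, s22, s23] using h.1
    · simpa only [s20, s21, s22, s23] using h.2.1
    · simpa only [s20, s21, s22, s23] using h.2.2
  · apply pf_perm (Equiv.swap 0 3)
    apply pf_star _ _ (hsw 3) _ (hcw 3)
    · simpa only [s30, s31, s32, s33] using h.1
    · simpa only [s30, s31, s32, s33] using h.2.1
    · simpa only [s30, s31, s32, s33] using h.2.2
  · exact pf_tri x d hx c hc h.1 h.2.1 h.2.2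
  · apply pf_perm (Equiv.swap 0 1)
    apply pf_tri _ _ (hsw 1) _ (hcw 1)
    · simpa only [s10, s11, s12, s13] using h.1
    · simpa only [s10, s11, s12, s13] using h.2.1
    · simpa only [s10, s11, s12, s13] using h.2.2
  · apply pf_perm (Equiv.swap 0 2)
    apply pf_tri _ _ (hsw 2) _ (hcw 2)
    · simpa only [s20, s21, s22, s23] using h.1
    · simpa only [s20, s21, s22, s23] using h.2.1
    · simpa only [s20, s21, s22, s23] using h.2.2
  · apply pf_perm (Equiv.swap 0 3)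
    apply pf_tri _ _ (hsw 3) _ (hcw 3)
    · simpa only [s30, s31, s32, s33] using h.1
    · simpa only [s30, s31, s32, s33] using h.2.1
    · simpa only [s30, s31, s32, s33] using h.2.2

theorem potH_four (D : Finset E) (b : E → K) (h4 : (D.image b).card ≤ 4)
    (hx : ∀ e ∈ D, 2 * (D.filter fun f => b f = b e).card ≤ D.card) :
    PotH (E ⊕ Fin 4) D b := by
  intro c hc hcl
  rcases D.eq_empty_or_nonempty with rfl | ⟨e0, he0⟩
  · exact ⟨fun _ => 0, fun _ => Sum.inr 0, fun _ => Sum.inr 0, by simp, by simp, by simp, by simp⟩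
  -- an injection of the classes into `Fin 4`
  have hcard : Fintype.card ↥(D.image b) ≤ Fintype.card (Fin 4) := by
    rw [Fintype.card_coe, Fintype.card_fin]
    exact h4
  obtain ⟨ι⟩ := Function.Embedding.nonempty_of_card_le hcard
  let g : K → Fin 4 := fun k => if h : k ∈ D.image b then ι ⟨k, h⟩ else 0
  have hg : ∀ e ∈ D, ∀ f ∈ D, g (b e) = g (b f) → b e = b f := by
    intro e he f hf h
    have h1 : b e ∈ D.image b := mem_image_of_mem b he
    have h2 : b f ∈ D.image b := mem_image_of_mem b hf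
    simp only [g, dif_pos h1, dif_pos h2] at h
    exact congrArg Subtype.val (ι.injective h)
  -- representatives
  have hr : ∀ i : Fin 4, ∃ r ∈ D, ∀ e ∈ D, g (b e) = i → b r = b e := by
    intro i
    by_cases h : ∃ e ∈ D, g (b e) = i
    · obtain ⟨r, hr, hri⟩ := h
      exact ⟨r, hr, fun e he hei => hg r hr e he (hri.trans hei.symm)⟩
    · exact ⟨e0, he0, fun e he hei => absurd ⟨e, he, hei⟩ h⟩
  choose r hrD hrb using hr
  have hfib : ∀ p : Fin 4 → Prop, [DecidablePred p] →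
      (D.filter fun e => p (g (b e))).card =
        ∑ i : Fin 4, if p i then (D.filter fun e => g (b e) = i).card else 0 := by
    intro p _
    rw [card_eq_sum_card_fiberwise (f := fun e => g (b e)) (t := univ)
      (fun e _ => by simp)]
    refine sum_congr rfl fun i _ => ?_
    rw [filter_filter]
    split_ifs with hp
    · congr 1
      ext e
      simp only [mem_filter]
      constructor
      · rintro ⟨h1, _, h3⟩
        exact ⟨h1, h3⟩
      · rintro ⟨h1, h3⟩
        exact ⟨h1, by rw [h3]; exact hp, h3⟩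
    · rw [card_eq_zero, filter_eq_empty_iff]
      rintro e _ ⟨h2, h3⟩
      rw [h3] at h2
      exact hp h2
  have hd : ∑ i : Fin 4, (D.filter fun e => g (b e) = i).card = D.card := by
    have := hfib (fun _ => True)
    simpa using this.symm
  have hx' : ∀ i : Fin 4, 2 * (D.filter fun e => g (b e) = i).card ≤ D.card := by
    intro i
    rcases (D.filter fun e => g (b e) = i).eq_empty_or_nonempty with h | ⟨e, he⟩
    · rw [h]; simp
    · rw [mem_filter] at he
      refine le_trans ?_ (hx e he.1)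
      refine Nat.mul_le_mul_left 2 (card_le_card ?_)
      intro f hf
      rw [mem_filter] at hf ⊢
      exact ⟨hf.1, hg f hf.1 e he.1 (hf.2.trans he.2.symm)⟩
  obtain ⟨α, P, Q, h1, h2, h3, h5⟩ := pot_fin4 _ D.card hd hx' (fun i j => c (r i) (r j))
    (fun i j => hc _ (hrD i) _ (hrD j))
  have hcc : ∀ e ∈ D, ∀ f ∈ D, c e f = c (r (g (b e))) (r (g (b f))) := by
    intro e he f hf
    exact (hcl _ (hrD _) e he _ (hrD _) f hf (hrb _ e he rfl) (hrb _ f hf rfl)).symm
  have hpart : ∀ R : Fin 4 → Fin 4,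
      (∀ l, 2 * (∑ i, if R i = l then (D.filter fun e => g (b e) = i).card else 0) ≤ D.card) →
      ∀ l : E ⊕ Fin 4, 2 * (D.filter fun e => (Sum.inr (R (g (b e))) : E ⊕ Fin 4) = l).card
        ≤ D.card := by
    intro R hR l
    rcases l with l | l
    · simp
    · have h := hfib (fun i => R i = l)
      have h' : (D.filter fun e => (Sum.inr (R (g (b e))) : E ⊕ Fin 4) = Sum.inr l) =
          D.filter fun e => R (g (b e)) = l := by
        ext e
        simp
      rw [h', h]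
      exact hR l
  refine ⟨fun e => α (g (b e)), fun e => Sum.inr (P (g (b e))), fun e => Sum.inr (Q (g (b e))),
    hpart P h1, hpart Q h2, ?_, ?_⟩
  · intro e he f hf hne
    have hne' : P (g (b e)) ≠ P (g (b f)) := fun h => hne (congrArg Sum.inr h)
    refine ⟨?_, fun hb => absurd (by rw [hb]) hne'⟩
    rw [hcc e he f hf]
    exact h3 _ _ hne'
  · intro e he f hf hne
    have hne' : Q (g (b e)) ≠ Q (g (b f)) := fun h => hne (congrArg Sum.inr h)
    refine ⟨?_, fun hb => absurd (by rw [hb]) hne'⟩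
    rw [hcc e he f hf]
    exact h5 _ _ hne'

end Pool.Agent.Lib.MP_95bb8c_al.BU
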