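import Pool.Agent.Lib.MP_95bb8c_al.BU.Defs

set_option autoImplicit false
set_option linter.unusedSectionVars false

namespace Pool.Agent.Lib.MP_95bb8c_al.BU

open Finset

variable {E K : Type} [DecidableEq E] [DecidableEq K]

theorem potH_half (D : Finset E) (b : E → K) (h2 : 2 ≤ D.card) (e₀ : E) (he₀ : e₀ ∈ D)
    (hx : D.card ≤ 2 * (D.filter fun f => b f = b e₀).card) :
    PotH (E ⊕ Fin 4) D b := by
  intro c hsym hcl
  classical
  set x : ℕ := (D.filter fun f => b f = b e₀).card with hxdef
  let α : E → ℝ := fun f => if b f = b e₀ then c e₀ e₀ / 2 else c e₀ f - c e₀ e₀ / 2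
  let P : E → E ⊕ Fin 4 := fun f =>
    if b f = b e₀ then (if 2 * x = D.card then Sum.inr 1 else Sum.inl f) else Sum.inr 0
  have hα1 : ∀ f, b f = b e₀ → α f = c e₀ e₀ / 2 := fun f hf => by simp [α, hf]
  have hα2 : ∀ f, b f ≠ b e₀ → α f = c e₀ f - c e₀ e₀ / 2 := fun f hf => by simp [α, hf]
  have hP2 : ∀ f, b f ≠ b e₀ → P f = Sum.inr 0 := fun f hf => by simp [P, hf]
  have hP1 : ∀ f, b f = b e₀ → 2 * x = D.card → P f = Sum.inr 1 := fun f hf h => by
    simp [P, hf, h]
  have hP1' : ∀ f, b f = b e₀ → 2 * x ≠ D.card → P f = Sum.inl f := fun f hf h => by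
    simp [P, hf, h]
  have hsplit : (D.filter fun f => b f = b e₀).card + (D.filter fun f => ¬ b f = b e₀).card
      = D.card := Finset.card_filter_add_card_filter_not _
  have hpart : ∀ l, 2 * (D.filter fun e => P e = l).card ≤ D.card := by
    intro l
    by_cases h : 2 * x = D.card
    · by_cases hl : l = Sum.inr 1
      · have hs : (D.filter fun e => P e = l) ⊆ D.filter fun f => b f = b e₀ := by
          intro f hf
          rw [mem_filter] at hf ⊢
          refine ⟨hf.1, ?_⟩
          by_contra hb
          have h1 := hP2 f hb
          rw [hf.2, hl] at h1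
          simp at h1
        have := card_le_card hs
        omega
      · have hs : (D.filter fun e => P e = l) ⊆ D.filter fun f => ¬ b f = b e₀ := by
          intro f hf
          rw [mem_filter] at hf ⊢
          refine ⟨hf.1, ?_⟩
          intro hb
          exact hl (by rw [← hf.2, hP1 f hb h])
        have := card_le_card hs
        omega
    · cases l with
      | inl g =>
        have hs : (D.filter fun e => P e = Sum.inl g) ⊆ {g} := by
          intro f hf
          rw [mem_filter] at hf
          rw [mem_singleton]
          by_cases hb : b f = b e₀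
          · have h1 := hP1' f hb h
            rw [hf.2] at h1
            exact (Sum.inl_injective h1).symm
          · have h1 := hP2 f hb
            rw [hf.2] at h1
            simp at h1
        have := card_le_card hs
        rw [card_singleton] at this
        omega
      | inr i =>
        have hs : (D.filter fun e => P e = Sum.inr i) ⊆ D.filter fun f => ¬ b f = b e₀ := by
          intro f hf
          rw [mem_filter] at hf ⊢
          refine ⟨hf.1, ?_⟩
          intro hb
          have h1 := hP1' f hb h
          rw [hf.2] at h1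
          simp at h1
        have := card_le_card hs
        omega
  have key : ∀ e ∈ D, ∀ f ∈ D, P e ≠ P f →
      c e f = α e + α f ∧ (b e = b f → Dom D b e) := by
    intro e he f hf hne
    by_cases hbe : b e = b e₀
    · by_cases hbf : b f = b e₀
      · have h : 2 * x ≠ D.card := by
          intro h
          exact hne (by rw [hP1 e hbe h, hP1 f hbf h])
        refine ⟨?_, ?_⟩
        · rw [hα1 e hbe, hα1 f hbf, hcl e he e₀ he₀ f hf e₀ he₀ hbe hbf]
          ring
        · intro _
          have h3 : (D.filter fun f => b f = b e).card = x := by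
            rw [hxdef, hbe]
          unfold Dom
          rw [h3]
          omega
      · refine ⟨?_, fun h => absurd (h ▸ hbe) hbf⟩
        rw [hα1 e hbe, hα2 f hbf, hcl e he e₀ he₀ f hf f hf hbe rfl]
        ring
    · by_cases hbf : b f = b e₀
      · refine ⟨?_, fun h => absurd (h.trans hbf) hbe⟩
        rw [hα1 f hbf, hα2 e hbe, hsym e he f hf, hcl f hf e₀ he₀ e he e he hbf rfl]
        ring
      · exact absurd (by rw [hP2 e hbe, hP2 f hbf]) hne
  refine ⟨α, P, P, hpart, hpart, ?_, ?_⟩
  · intro e he f hf hne
    exact ⟨(key e he f hf hne).1.le, (key e he f hf hne).2⟩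
  · intro e he f hf hne
    exact ⟨(key e he f hf hne).1.ge, (key e he f hf hne).2⟩

end Pool.Agent.Lib.MP_95bb8c_al.BU
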