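import Pool.Agent.Lib.MP_95bb8c_al.BU.Basic

set_option autoImplicit false
set_option linter.unusedSectionVars false

namespace Pool.Agent.Lib.MP_95bb8c_al.BU

open Finset

variable {V E K : Type} [Fintype V] [DecidableEq V] [Fintype E] [DecidableEq E] [DecidableEq K]
variable {s t : E → V} {bar : V → V} {sig : V → E → E}

/-- The permutations of the edges which preserve the classes. -/
def perms (b : E → K) : Finset (Equiv.Perm E) := univ.filter fun g => ∀ e, b (g e) = b e

theorem mem_perms {b : E → K} {g : Equiv.Perm E} : g ∈ perms b ↔ ∀ e, b (g e) = b e := by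
  simp [perms]

theorem one_mem_perms (b : E → K) : (1 : Equiv.Perm E) ∈ perms b := by
  simp [mem_perms]

theorem mul_mem_perms {b : E → K} {g g' : Equiv.Perm E} (hg : g ∈ perms b) (hg' : g' ∈ perms b) :
    g * g' ∈ perms b := by
  rw [mem_perms] at *
  intro e
  rw [Equiv.Perm.mul_apply, hg, hg']

theorem inv_mem_perms {b : E → K} {g : Equiv.Perm E} (hg : g ∈ perms b) : g⁻¹ ∈ perms b := by
  rw [mem_perms] at *
  intro e
  have h1 := hg (g⁻¹ e)
  have h2 : g (g⁻¹ e) = e := by simp
  rw [h2] at h1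
  exact h1.symm

theorem swap_mem_perms {b : E → K} {e f : E} (h : b e = b f) : Equiv.swap e f ∈ perms b := by
  rw [mem_perms]
  intro x
  by_cases h1 : x = e
  · rw [h1, Equiv.swap_apply_left, h]
  by_cases h2 : x = f
  · rw [h2, Equiv.swap_apply_right, h]
  rw [Equiv.swap_apply_of_ne_of_ne h1 h2]

/-- Two pairs of distinct edges of the same classes are exchanged by a permutation. -/
theorem exists_perm {b : E → K} {e f e' f' : E} (hef : e ≠ f) (hef' : e' ≠ f')
    (he : b e = b e') (hf : b f = b f') : ∃ g ∈ perms b, g e = e' ∧ g f = f' := by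
  set τ := Equiv.swap e e' with hτ
  have h1 : τ ∈ perms b := swap_mem_perms he
  have h2 : τ e = e' := Equiv.swap_apply_left e e'
  have h3 : b (τ f) = b f' := by rw [mem_perms.1 h1, hf]
  have h4 : e' ≠ τ f := by
    intro h
    rw [← h2] at h
    exact hef (τ.injective h)
  refine ⟨Equiv.swap (τ f) f' * τ, mul_mem_perms (swap_mem_perms h3) h1, ?_, ?_⟩
  · rw [Equiv.Perm.mul_apply, h2, Equiv.swap_apply_of_ne_of_ne h4 hef']
  · rw [Equiv.Perm.mul_apply, Equiv.swap_apply_left]

/-- Edges of a class have the same endpoints. -/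
theorem Cls.ends (hl : ∀ e, s e ≠ t e) {b : E → K} (hb : Cls s t sig b) {e f : E}
    (h : b e = b f) : (s f = s e ∧ t f = t e) ∨ (s f = t e ∧ t f = s e) := by
  have h1 := hb.par e f h (s e) (mem_cut_s (hl e))
  have h2 := hb.par e f h (t e) (mem_cut_t (hl e))
  rw [mem_star hl] at h1 h2
  rcases h1 with h1 | h1
  · rcases h2 with h2 | h2
    · exact absurd (h1.symm.trans h2) (hl e)
    · exact Or.inl ⟨h1, h2⟩
  · rcases h2 with h2 | h2
    · exact Or.inr ⟨h2, h1⟩
    · exact absurd (h1.symm.trans h2) (hl e)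

theorem Cls.mem_cut_iff (hl : ∀ e, s e ≠ t e) {b : E → K} (hb : Cls s t sig b) {e f : E}
    (h : b e = b f) (S : Finset V) : e ∈ cut s t S ↔ f ∈ cut s t S := by
  rw [mem_cut, mem_cut]
  rcases hb.ends hl h with ⟨h1, h2⟩ | ⟨h1, h2⟩
  · rw [h1, h2]
  · rw [h1, h2]
    tauto

/-- The image of a cycle. -/
theorem cycle_map (hl : ∀ e, s e ≠ t e) {b : E → K} (hb : Cls s t sig b) {g : Equiv.Perm E}
    (hg : g ∈ perms b) {C : Finset E} (hC : IsCycle s t (C.map g.toEmbedding)) :
    IsCycle s t C := by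
  have hmem : ∀ (S : Finset V) (e : E), g e ∈ cut s t S ↔ e ∈ cut s t S := fun S e =>
    hb.mem_cut_iff hl (mem_perms.1 hg e) S
  have hinter : ∀ S : Finset V, (C.map g.toEmbedding) ∩ cut s t S =
      (C ∩ cut s t S).map g.toEmbedding := by
    intro S
    ext x
    simp only [Finset.mem_inter, Finset.mem_map, Equiv.coe_toEmbedding]
    constructor
    · rintro ⟨⟨y, hy, rfl⟩, h2⟩
      exact ⟨y, ⟨hy, (hmem S y).1 h2⟩, rfl⟩
    · rintro ⟨y, ⟨hy, hy2⟩, rfl⟩
      exact ⟨⟨y, hy, rfl⟩, (hmem S y).2 hy2⟩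
  refine ⟨?_, ?_, ?_⟩
  · obtain ⟨x, hx⟩ := hC.nonempty
    rw [Finset.mem_map] at hx
    obtain ⟨y, hy, -⟩ := hx
    exact ⟨y, hy⟩
  · intro v
    have h1 := hC.deg v
    rw [hinter, Finset.card_map] at h1
    exact h1
  · intro S hS
    have h1 : (C.map g.toEmbedding) ∩ cut s t S = ∅ := by
      rw [hinter, hS, Finset.map_empty]
    have h2 : ∀ e ∈ C, (s (g e) ∈ S ↔ s e ∈ S) := by
      intro e he
      have h3 : e ∉ cut s t S := by
        intro h4
        have : e ∈ C ∩ cut s t S := Finset.mem_inter.2 ⟨he, h4⟩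
        rw [hS] at this
        exact absurd this (Finset.notMem_empty e)
      rw [mem_cut, not_not] at h3
      rcases hb.ends hl (mem_perms.1 hg e) with ⟨h5, h6⟩ | ⟨h5, h6⟩
      · rw [h5]
      · rw [← h6]
        exact h3.symm.trans (by rw [h5])
    rcases hC.conn S h1 with h3 | h3
    · left
      intro e he
      exact (h2 e he).1 (h3 (g e) (Finset.mem_map.2 ⟨e, he, rfl⟩))
    · right
      intro e he h4
      exact h3 (g e) (Finset.mem_map.2 ⟨e, he, rfl⟩) ((h2 e he).2 h4)

theorem Dom.congr {D : Finset E} {b : E → K} {e f : E} (h : b e = b f) (hd : Dom D b e) :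
    Dom D b f := by
  unfold Dom at *
  rw [← h]
  exact hd

theorem allowed_map (hl : ∀ e, s e ≠ t e) {b : E → K} (hb : Cls s t sig b) {g : Equiv.Perm E}
    (hg : g ∈ perms b) {X : Finset V} {C : Finset E}
    (hC : Allowed s t b X (C.map g.toEmbedding)) : Allowed s t b X C := by
  intro v hv e he f hf hev hfv hef hbef
  have h1 := mem_perms.1 hg
  have h2 := hC v hv (g e) (Finset.mem_map.2 ⟨e, he, rfl⟩) (g f) (Finset.mem_map.2 ⟨f, hf, rfl⟩)
    ((hb.mem_cut_iff hl (h1 e) {v}).2 hev) ((hb.mem_cut_iff hl (h1 f) {v}).2 hfv)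
    (fun h => hef (g.injective h)) (by rw [h1, h1, hbef])
  exact h2.congr (h1 e)

/-- The average of a law over the permutations. -/
def avg (b : E → K) (u : Finset E → ℚ) (C : Finset E) : ℚ :=
  (∑ g ∈ perms b, u (C.map g.toEmbedding)) / (perms b).card

theorem perms_pos (b : E → K) : (0 : ℚ) < (perms b).card := by
  have : 0 < (perms b).card := Finset.card_pos.2 ⟨1, one_mem_perms b⟩
  exact_mod_cast this

theorem pw_map (g : Equiv.Perm E) (u : Finset E → ℚ) (e f : E) :
    ∑ C : Finset E, (if e ∈ C ∧ f ∈ C then u (C.map g.toEmbedding) else 0) =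
      pw u (g e) (g f) := by
  unfold pw
  refine Fintype.sum_equiv (Equiv.finsetCongr g) _ _ fun C => ?_
  simp [Equiv.finsetCongr_apply]

theorem marg_map (g : Equiv.Perm E) (u : Finset E → ℚ) (e : E) :
    ∑ C : Finset E, (if e ∈ C then u (C.map g.toEmbedding) else 0) =
      ∑ C : Finset E, if g e ∈ C then u C else 0 := by
  refine Fintype.sum_equiv (Equiv.finsetCongr g) _ _ fun C => ?_
  simp [Equiv.finsetCongr_apply]

theorem pw_avg (b : E → K) (u : Finset E → ℚ) (e f : E) :
    pw (avg b u) e f = (∑ g ∈ perms b, pw u (g e) (g f)) / (perms b).card := by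
  have h1 : pw (avg b u) e f = (∑ C : Finset E, ∑ g ∈ perms b,
      (if e ∈ C ∧ f ∈ C then u (C.map g.toEmbedding) else 0)) / (perms b).card := by
    unfold pw avg
    rw [Finset.sum_div]
    refine Finset.sum_congr rfl fun C _ => ?_
    split_ifs
    · rfl
    · simp
  rw [h1, Finset.sum_comm]
  congr 1
  exact Finset.sum_congr rfl fun g _ => pw_map g u e f

theorem alaw_avg (hl : ∀ e, s e ≠ t e) {b : E → K} (hb : Cls s t sig b) {X : Finset V}
    {u : Finset E → ℚ} (hu : ALaw s t b X u) : ALaw s t b X (avg b u) := by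
  refine ⟨?_, ?_, ?_⟩
  · intro C
    exact div_nonneg (Finset.sum_nonneg fun g _ => hu.nonneg _) (perms_pos b).le
  · intro C hC
    have h1 : ∃ g ∈ perms b, u (C.map g.toEmbedding) ≠ 0 := by
      by_contra h2
      push Not at h2
      apply hC
      unfold avg
      rw [Finset.sum_eq_zero h2, zero_div]
    obtain ⟨g, hg, hg2⟩ := h1
    exact ⟨cycle_map hl hb hg (hu.cyc _ hg2).1, allowed_map hl hb hg (hu.cyc _ hg2).2⟩
  · intro e
    have h1 : ∑ C : Finset E, (if e ∈ C then avg b u C else 0) = (∑ C : Finset E, ∑ g ∈ perms b,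
        (if e ∈ C then u (C.map g.toEmbedding) else 0)) / (perms b).card := by
      unfold avg
      rw [Finset.sum_div]
      refine Finset.sum_congr rfl fun C _ => ?_
      split_ifs
      · rfl
      · simp
    rw [h1, Finset.sum_comm]
    have h2 : ∑ g ∈ perms b, ∑ C : Finset E, (if e ∈ C then u (C.map g.toEmbedding) else 0) =
        ∑ g ∈ perms b, (1 : ℚ) := by
      refine Finset.sum_congr rfl fun g _ => ?_
      rw [marg_map, hu.marg]
    rw [h2, Finset.sum_const, nsmul_eq_mul, mul_one]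
    exact div_self (perms_pos b).ne'

/-- The weights of pairs do not change if a permutation of the classes is applied. -/
theorem pw_avg_perm {b : E → K} (u : Finset E → ℚ) {k : Equiv.Perm E} (hk : k ∈ perms b)
    (e f : E) : pw (avg b u) (k e) (k f) = pw (avg b u) e f := by
  rw [pw_avg, pw_avg]
  congr 1
  refine Finset.sum_nbij' (fun g => g * k) (fun g => g * k⁻¹) ?_ ?_ ?_ ?_ ?_
  · intro g hg
    exact mul_mem_perms hg hk
  · intro g hg
    exact mul_mem_perms hg (inv_mem_perms hk)
  · intro g _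
    simp
  · intro g _
    simp
  · intro g _
    simp [Equiv.Perm.mul_apply]

theorem pw_avg_const {b : E → K} (u : Finset E → ℚ) {e f e' f' : E} (hef : e ≠ f)
    (hef' : e' ≠ f') (he : b e = b e') (hf : b f = b f') :
    pw (avg b u) e f = pw (avg b u) e' f' := by
  obtain ⟨g, hg, h1, h2⟩ := exists_perm hef hef' he hf
  rw [← h1, ← h2, pw_avg_perm u hg]

/-- The sum over the pairs of distinct edges at `v` of two given classes. -/
def csum (s t : E → V) (b : E → K) (v : V) (k k' : K) (F : E → E → ℚ) : ℚ :=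
  ∑ e ∈ (cut s t {v}).filter (fun e => b e = k),
    ∑ f ∈ ((cut s t {v}).filter (fun f => b f = k')).erase e, F e f

theorem csum_perm (hl : ∀ e, s e ≠ t e) {b : E → K} (hb : Cls s t sig b) {g : Equiv.Perm E}
    (hg : g ∈ perms b) (v : V) (k k' : K) (F : E → E → ℚ) :
    csum s t b v k k' (fun e f => F (g e) (g f)) = csum s t b v k k' F := by
  have h1 : ∀ {g : Equiv.Perm E}, g ∈ perms b → ∀ k e,
      e ∈ (cut s t {v}).filter (fun e => b e = k) →
      g e ∈ (cut s t {v}).filter (fun e => b e = k) := by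
    intro g hg k e he
    rw [Finset.mem_filter] at he ⊢
    refine ⟨(hb.mem_cut_iff hl (mem_perms.1 hg e) {v}).2 he.1, ?_⟩
    rw [mem_perms.1 hg e]
    exact he.2
  unfold csum
  refine Finset.sum_nbij' (fun e => g e) (fun e => g⁻¹ e) (h1 hg k)
    (h1 (inv_mem_perms hg) k) (fun e _ => by simp) (fun e _ => by simp) ?_
  intro e _
  refine Finset.sum_nbij' (fun f => g f) (fun f => g⁻¹ f) ?_ ?_ (fun e _ => by simp)
    (fun e _ => by simp) (fun _ _ => rfl)
  · intro f hf
    rw [Finset.mem_erase] at hf ⊢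
    exact ⟨fun h => hf.1 (g.injective h), h1 hg k' f hf.2⟩
  · intro f hf
    rw [Finset.mem_erase] at hf ⊢
    refine ⟨fun h => hf.1 ?_, h1 (inv_mem_perms hg) k' f hf.2⟩
    rw [← h]
    simp

theorem csum_sig (h : Conn2 s t bar sig) {b : E → K} (hb : Cls s t sig b) (v : V) {e₀ f₀ : E}
    (he₀ : e₀ ∈ cut s t {v}) (hf₀ : f₀ ∈ cut s t {v}) (F : E → E → ℚ) :
    csum s t b v (b e₀) (b f₀) (fun e f => F (sig v e) (sig v f)) =
      csum s t b (bar v) (b (sig v e₀)) (b (sig v f₀)) F := by
  have h1 : ∀ e₀ ∈ cut s t {v}, ∀ e ∈ (cut s t {v}).filter (fun e => b e = b e₀),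
      sig v e ∈ (cut s t {bar v}).filter (fun e => b e = b (sig v e₀)) := by
    intro e₀ he₀ e he
    rw [Finset.mem_filter] at he ⊢
    exact ⟨h.mem v e he.1, hb.sig v e he.1 e₀ he₀ he.2⟩
  have hinv : ∀ e ∈ cut s t {bar v}, sig (bar v) e ∈ cut s t {v} ∧ sig v (sig (bar v) e) = e := by
    intro e he
    have h1 := h.mem (bar v) e he
    have h2 := h.inv (bar v) e he
    rw [h.bar_bar] at h1 h2
    exact ⟨h1, h2⟩
  have h2 : ∀ e₀ ∈ cut s t {v},
      ∀ e ∈ (cut s t {bar v}).filter (fun e => b e = b (sig v e₀)),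
      sig (bar v) e ∈ (cut s t {v}).filter (fun e => b e = b e₀) := by
    intro e₀ he₀ e he
    rw [Finset.mem_filter] at he ⊢
    refine ⟨(hinv e he.1).1, ?_⟩
    have h3 := hb.sig (bar v) e he.1 (sig v e₀) (h.mem v e₀ he₀) he.2
    rw [h.inv v e₀ he₀] at h3
    exact h3
  unfold csum
  refine Finset.sum_nbij' (sig v) (sig (bar v)) (h1 e₀ he₀) (h2 e₀ he₀)
    (fun e he => h.inv v e (Finset.mem_filter.1 he).1)
    (fun e he => (hinv e (Finset.mem_filter.1 he).1).2) ?_
  intro e he
  refine Finset.sum_nbij' (sig v) (sig (bar v)) ?_ ?_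
    (fun e he => h.inv v e (Finset.mem_filter.1 (Finset.mem_erase.1 he).2).1)
    (fun e he => (hinv e (Finset.mem_filter.1 (Finset.mem_erase.1 he).2).1).2)
    (fun _ _ => rfl)
  · intro f hf
    rw [Finset.mem_erase] at hf ⊢
    exact ⟨fun h3 => hf.1 (h.sig_inj v f (Finset.mem_filter.1 hf.2).1 e
      (Finset.mem_filter.1 he).1 h3), h1 f₀ hf₀ f hf.2⟩
  · intro f hf
    rw [Finset.mem_erase] at hf ⊢
    refine ⟨fun h3 => hf.1 ?_, h2 f₀ hf₀ f hf.2⟩
    rw [← h3, (hinv f (Finset.mem_filter.1 hf.2).1).2]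

theorem csum_avg (hl : ∀ e, s e ≠ t e) {b : E → K} (hb : Cls s t sig b) (u : Finset E → ℚ)
    (v : V) (k k' : K) : csum s t b v k k' (pw (avg b u)) = csum s t b v k k' (pw u) := by
  have h1 : csum s t b v k k' (pw (avg b u)) =
      (∑ g ∈ perms b, csum s t b v k k' (fun e f => pw u (g e) (g f))) / (perms b).card := by
    unfold csum
    rw [Finset.sum_comm, Finset.sum_div]
    refine Finset.sum_congr rfl fun e _ => ?_
    rw [Finset.sum_comm, Finset.sum_div]
    refine Finset.sum_congr rfl fun f _ => ?_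
    rw [pw_avg]
  rw [h1, Finset.sum_congr rfl fun g hg => csum_perm hl hb hg v k k' (pw u), Finset.sum_const,
    nsmul_eq_mul, mul_div_assoc]
  rw [← mul_div_assoc, mul_comm, mul_div_assoc, div_self (perms_pos b).ne', mul_one]

/-- From balance on the level of classes to balance on the level of edges. -/
theorem balanced_law (h : Conn2 s t bar sig) {b : E → K} (hb : Cls s t sig b) {X : Finset V}
    (u : Finset E → ℚ) (hu : ALaw s t b X u)
    (hbal : ∀ v (k k' : K), ∑ e ∈ (cut s t {v}).filter (fun e => b e = k),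
        ∑ f ∈ ((cut s t {v}).filter (fun f => b f = k')).erase e,
          (pw u e f - pw u (sig v e) (sig v f)) = 0) :
    ∃ u' : Finset E → ℚ, ALaw s t b X u' ∧
      ∀ v, ∀ e ∈ cut s t {v}, ∀ f ∈ cut s t {v}, pw u' e f = pw u' (sig v e) (sig v f) := by
  refine ⟨avg b u, alaw_avg h.hl hb hu, ?_⟩
  intro v e he f hf
  have hmarg := (alaw_avg h.hl hb hu).marg
  by_cases hef : e = f
  · subst hef
    have h1 : ∀ x, pw (avg b u) x x = 1 := by
      intro x
      rw [← hmarg x]
      unfold pw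
      simp
    rw [h1, h1]
  · have hsef : sig v e ≠ sig v f := fun h1 => hef (h.sig_inj v e he f hf h1)
    have h1 : csum s t b v (b e) (b f) (fun e' f' => pw u e' f' - pw u (sig v e') (sig v f')) =
        0 := hbal v (b e) (b f)
    have hsub : ∀ F G : E → E → ℚ, csum s t b v (b e) (b f) (fun e' f' => F e' f' - G e' f') =
        csum s t b v (b e) (b f) F - csum s t b v (b e) (b f) G := by
      intro F G
      unfold csum
      simp_rw [Finset.sum_sub_distrib]
    have h2 : csum s t b v (b e) (b f) (fun e' f' => pw (avg b u) e' f' -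
        pw (avg b u) (sig v e') (sig v f')) = 0 := by
      rw [hsub (pw (avg b u)) (fun e' f' => pw (avg b u) (sig v e') (sig v f')),
        csum_sig h hb v he hf (pw (avg b u)), csum_avg h.hl hb, csum_avg h.hl hb,
        ← csum_sig h hb v he hf (pw u), ← hsub (pw u) (fun e' f' => pw u (sig v e') (sig v f'))]
      exact h1
    have h3 : csum s t b v (b e) (b f) (fun e' f' => pw (avg b u) e' f' -
        pw (avg b u) (sig v e') (sig v f')) =
        csum s t b v (b e) (b f) (fun _ _ => pw (avg b u) e f -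
          pw (avg b u) (sig v e) (sig v f)) := by
      unfold csum
      refine Finset.sum_congr rfl fun e' he' => Finset.sum_congr rfl fun f' hf' => ?_
      rw [Finset.mem_erase, Finset.mem_filter] at hf'
      rw [Finset.mem_filter] at he'
      have h4 : e' ≠ f' := fun h5 => hf'.1 h5.symm
      have h5 : sig v e' ≠ sig v f' := fun h6 =>
        h4 (h.sig_inj v e' he'.1 f' hf'.2.1 h6)
      show pw (avg b u) e' f' - pw (avg b u) (sig v e') (sig v f') =
        pw (avg b u) e f - pw (avg b u) (sig v e) (sig v f)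
      rw [pw_avg_const u h4 hef he'.2 hf'.2.2, pw_avg_const u h5 hsef
        (hb.sig v e' he'.1 e he he'.2) (hb.sig v f' hf'.2.1 f hf hf'.2.2)]
    rw [h2] at h3
    set d := pw (avg b u) e f - pw (avg b u) (sig v e) (sig v f) with hd
    have h4 : csum s t b v (b e) (b f) (fun _ _ => d) =
        (∑ e' ∈ (cut s t {v}).filter (fun e' => b e' = b e),
          ((((cut s t {v}).filter (fun f' => b f' = b f)).erase e').card : ℚ)) * d := by
      unfold csum
      rw [Finset.sum_mul]
      refine Finset.sum_congr rfl fun e' _ => ?_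
      rw [Finset.sum_const, nsmul_eq_mul]
    have h5 : (0 : ℚ) < ∑ e' ∈ (cut s t {v}).filter (fun e' => b e' = b e),
          ((((cut s t {v}).filter (fun f' => b f' = b f)).erase e').card : ℚ) := by
      refine Finset.sum_pos' (fun _ _ => Nat.cast_nonneg _)
        ⟨e, Finset.mem_filter.2 ⟨he, rfl⟩, ?_⟩
      have h6 : 0 < (((cut s t {v}).filter (fun f' => b f' = b f)).erase e).card :=
        Finset.card_pos.2 ⟨f, Finset.mem_erase.2 ⟨fun h7 => hef h7.symm,
          Finset.mem_filter.2 ⟨hf, rfl⟩⟩⟩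
      exact_mod_cast h6
    rw [h4] at h3
    have h6 : d = 0 := by
      rcases mul_eq_zero.1 h3.symm with h7 | h7
      · exact absurd h7 h5.ne'
      · exact h7
    rw [hd] at h6
    linarith

end Pool.Agent.Lib.MP_95bb8c_al.BU
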