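import Pool.Agent.Lib.MP_95bb8c_al.BU.IsoLift

set_option autoImplicit false
set_option linter.unusedSectionVars false

/-!
# The lifted law
-/

namespace Pool.Agent.Lib.MP_95bb8c_al.BU

open Finset

variable {V E : Type} [Fintype V] [DecidableEq V] [Fintype E] [DecidableEq E]
variable {s t : E → V} {bar : V → V} {sig : V → E → E}

/-- The image of a law. -/
def push (g : Finset E → Finset E) (u : Finset E → ℚ) (C' : Finset E) : ℚ :=
  ∑ C, if g C = C' then u C else 0

theorem sum_push (g : Finset E → Finset E) (u : Finset E → ℚ) (p : Finset E → Prop)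
    [DecidablePred p] :
    ∑ C', (if p C' then push g u C' else 0) = ∑ C, if p (g C) then u C else 0 := by
  have h1 : ∀ C', (if p C' then push g u C' else 0) =
      ∑ C, if g C = C' then (if p (g C) then u C else 0) else 0 := by
    intro C'
    unfold push
    split_ifs with h
    · refine Finset.sum_congr rfl fun C _ => ?_
      split_ifs with h2 h3
      · rfl
      · exact absurd (h2 ▸ h) h3
      · rfl
    · symm
      refine Finset.sum_eq_zero fun C _ => ?_
      split_ifs with h2 h3
      · exact absurd (h2 ▸ h3) h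
      · rfl
      · rfl
  simp_rw [h1]
  rw [Finset.sum_comm]
  refine Finset.sum_congr rfl fun C _ => ?_
  rw [Finset.sum_ite_eq Finset.univ (g C)]
  simp

variable (s t bar sig) in
/-- The bigons between the edges of a syllable. -/
def fl (Y : Finset V) (C' : Finset E) : ℚ :=
  ∑ v ∈ Y, ∑ e ∈ cut s t {v},
    if (e ∈ cut s t {bar v} ∧ sig v e ∈ cut s t {v}) ∧ {e, sig v e} = C' then 1 / 4 else 0

theorem sum_fl (Y : Finset V) (p : Finset E → Prop) [DecidablePred p] :
    ∑ C', (if p C' then fl s t bar sig Y C' else 0) = ∑ v ∈ Y, ∑ e ∈ cut s t {v},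
      if (e ∈ cut s t {bar v} ∧ sig v e ∈ cut s t {v}) ∧ p {e, sig v e} then 1 / 4 else 0 := by
  have h1 : ∀ C', (if p C' then fl s t bar sig Y C' else 0) = ∑ v ∈ Y, ∑ e ∈ cut s t {v},
      if ({e, sig v e} : Finset E) = C' then (if (e ∈ cut s t {bar v} ∧ sig v e ∈ cut s t {v}) ∧
        p {e, sig v e} then (1 / 4 : ℚ) else 0) else 0 := by
    intro C'
    unfold fl
    split_ifs with h
    · refine Finset.sum_congr rfl fun v _ => Finset.sum_congr rfl fun e _ => ?_
      by_cases h2 : ({e, sig v e} : Finset E) = C'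
      · rw [if_pos h2, h2]
        simp [h]
      · rw [if_neg h2, if_neg (fun h3 => h2 h3.2)]
    · symm
      refine Finset.sum_eq_zero fun v _ => Finset.sum_eq_zero fun e _ => ?_
      by_cases h2 : ({e, sig v e} : Finset E) = C'
      · rw [if_pos h2, h2, if_neg (fun h3 => h h3.2)]
      · rw [if_neg h2]
  simp_rw [h1]
  rw [Finset.sum_comm]
  refine Finset.sum_congr rfl fun v _ => ?_
  rw [Finset.sum_comm]
  refine Finset.sum_congr rfl fun e _ => ?_
  rw [Finset.sum_ite_eq Finset.univ]
  simp

variable {pos : V → Bool} {Y : Finset V}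

variable (s t bar sig) in
/-- The lifted law. -/
def lw (pos : V → Bool) (Y : Finset V) (u : Finset E → ℚ) (C' : Finset E) : ℚ :=
  (push (gl s t bar sig pos Y true) u C' + push (gl s t bar sig pos Y false) u C') / 2 +
    fl s t bar sig Y C'

theorem sum_lw (u : Finset E → ℚ) (v : V) (hpos : ∀ v, pos (bar v) = !pos v)
    (p : Finset E → Prop) [DecidablePred p] :
    ∑ C', (if p C' then lw s t bar sig pos Y u C' else 0) =
      ((∑ C, if p (gl s t bar sig pos Y (pos v) C) then u C else 0) +
        ∑ C, if p (gl s t bar sig pos Y (pos (bar v)) C) then u C else 0) / 2 +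
      ∑ v ∈ Y, ∑ e ∈ cut s t {v},
        if (e ∈ cut s t {bar v} ∧ sig v e ∈ cut s t {v}) ∧ p {e, sig v e} then 1 / 4 else 0 := by
  have h1 : ∑ C', (if p C' then lw s t bar sig pos Y u C' else 0) =
      ((∑ C', if p C' then push (gl s t bar sig pos Y true) u C' else 0) +
        ∑ C', if p C' then push (gl s t bar sig pos Y false) u C' else 0) / 2 +
      ∑ C', (if p C' then fl s t bar sig Y C' else 0) := by
    rw [← Finset.sum_add_distrib, Finset.sum_div, ← Finset.sum_add_distrib]
    refine Finset.sum_congr rfl fun C' _ => ?_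
    unfold lw
    split_ifs <;> ring
  rw [h1, sum_push, sum_push, sum_fl, hpos v]
  cases pos v
  · rw [add_comm (∑ C, if p (gl s t bar sig pos Y true C) then u C else 0)]
    rfl
  · rfl

/-- Sums over `Y` with two terms. -/
theorem sum_two (h : Conn2 s t bar sig) (hY : NonIso s t bar sig Y) {v : V} (hv : v ∈ Y)
    (F : V → ℚ) (hF : ∀ w ∈ Y, w ≠ v → w ≠ bar v → F w = 0) :
    ∑ w ∈ Y, F w = F v + F (bar v) :=
  Finset.sum_eq_add_of_mem v (bar v) hv (hY.bar_mem v hv) (h.bar_ne v).symm
    (fun w hw hw2 => hF w hw hw2.1 hw2.2)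

theorem fl_marg_out (h : Conn2 s t bar sig) {a : E}
    (ha : ∀ w ∈ Y, ¬ (a ∈ cut s t {w} ∧ a ∈ cut s t {bar w})) :
    ∑ v ∈ Y, ∑ e ∈ cut s t {v},
      (if (e ∈ cut s t {bar v} ∧ sig v e ∈ cut s t {v}) ∧ a ∈ ({e, sig v e} : Finset E)
        then (1 / 4 : ℚ) else 0) = 0 := by
  refine Finset.sum_eq_zero fun v hv => Finset.sum_eq_zero fun e he => ?_
  rw [if_neg]
  rintro ⟨⟨h1, h2⟩, h3⟩
  rw [Finset.mem_insert, Finset.mem_singleton] at h3
  rcases h3 with rfl | rfl
  · exact ha v hv ⟨he, h1⟩
  · exact ha v hv ⟨h2, h.mem v e he⟩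

theorem fl_marg_inn (h : Conn2 s t bar sig) (hY : NonIso s t bar sig Y) {v : V} (hv : v ∈ Y)
    {a : E} (ha : a ∈ cut s t {v}) (ha' : a ∈ cut s t {bar v}) :
    ∑ v ∈ Y, ∑ e ∈ cut s t {v},
      (if (e ∈ cut s t {bar v} ∧ sig v e ∈ cut s t {v}) ∧ a ∈ ({e, sig v e} : Finset E)
        then (1 / 4 : ℚ) else 0) =
      (if sig v a ∈ cut s t {v} then 1 / 2 else 0) +
        (if sig (bar v) a ∈ cut s t {bar v} then 1 / 2 else 0) := by
  -- one vertex
  have key : ∀ w ∈ Y, a ∈ cut s t {w} → a ∈ cut s t {bar w} → ∑ e ∈ cut s t {w},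
      (if (e ∈ cut s t {bar w} ∧ sig w e ∈ cut s t {w}) ∧ a ∈ ({e, sig w e} : Finset E)
        then (1 / 4 : ℚ) else 0) = (if sig w a ∈ cut s t {w} then 1 / 4 else 0) +
        (if sig (bar w) a ∈ cut s t {bar w} then 1 / 4 else 0) := by
    intro w hw h1 h2
    have h3 : ∀ e ∈ cut s t {w},
        (if (e ∈ cut s t {bar w} ∧ sig w e ∈ cut s t {w}) ∧ a ∈ ({e, sig w e} : Finset E)
          then (1 / 4 : ℚ) else 0) =
        (if a = e then (if sig w a ∈ cut s t {w} then 1 / 4 else 0) else 0) +
        (if sig (bar w) a = e then (if sig (bar w) a ∈ cut s t {bar w} then 1 / 4 else 0)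
          else 0) := by
      intro e he
      by_cases h4 : a = e
      · subst h4
        rw [if_pos rfl, if_neg (hY.ne (bar w) (hY.bar_mem w hw) a h2), add_zero]
        by_cases h5 : sig w a ∈ cut s t {w}
        · rw [if_pos ⟨⟨h2, h5⟩, Finset.mem_insert_self _ _⟩, if_pos h5]
        · rw [if_neg (fun h6 => h5 h6.1.2), if_neg h5]
      · rw [if_neg h4, zero_add]
        by_cases h5 : sig (bar w) a = e
        · subst h5
          have h6 := (h.inv' w h2).2
          rw [if_pos rfl]
          by_cases h7 : sig (bar w) a ∈ cut s t {bar w}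
          · rw [if_pos h7, if_pos]
            rw [h6]
            exact ⟨⟨h7, h1⟩, by simp⟩
          · rw [if_neg (fun h8 => h7 h8.1.1), if_neg h7]
        · rw [if_neg h5, if_neg]
          rintro ⟨-, h6⟩
          rw [Finset.mem_insert, Finset.mem_singleton] at h6
          rcases h6 with h6 | h6
          · exact h4 h6
          · apply h5
            rw [h6]
            exact h.inv w e he
    rw [Finset.sum_congr rfl h3, Finset.sum_add_distrib, Finset.sum_ite_eq, if_pos h1,
      Finset.sum_ite_eq, if_pos (h.inv' w h2).1]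
  rw [sum_two h hY hv, key v hv ha ha', key (bar v) (hY.bar_mem v hv) ha' (by rwa [h.bar_bar])]
  · rw [h.bar_bar]
    split_ifs <;> norm_num
  · intro w hw h1 h2
    refine Finset.sum_eq_zero fun e he => ?_
    rw [if_neg]
    rintro ⟨⟨h3, h4⟩, h5⟩
    have h6 : a ∈ cut s t {w} := by
      rw [Finset.mem_insert, Finset.mem_singleton] at h5
      rcases h5 with rfl | rfl
      · exact he
      · exact h4
    rcases ends_inn h ha ha' h6 with h7 | h7
    · exact h1 h7
    · exact h2 h7

theorem fl_pair (h : Conn2 s t bar sig) (hY : NonIso s t bar sig Y) {v : V} (hv : v ∈ Y)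
    {a b : E} (ha : a ∈ cut s t {v}) (hb : b ∈ cut s t {v}) (hab : a ≠ b) :
    ∑ v ∈ Y, ∑ e ∈ cut s t {v},
      (if (e ∈ cut s t {bar v} ∧ sig v e ∈ cut s t {v}) ∧
        (a ∈ ({e, sig v e} : Finset E) ∧ b ∈ ({e, sig v e} : Finset E))
        then (1 / 4 : ℚ) else 0) =
      (if a ∈ cut s t {bar v} ∧ sig v a = b then 1 / 2 else 0) +
        (if b ∈ cut s t {bar v} ∧ sig v b = a then 1 / 2 else 0) := by
  have key : ∀ w ∈ Y, ∑ e ∈ cut s t {w},
      (if (e ∈ cut s t {bar w} ∧ sig w e ∈ cut s t {w}) ∧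
        (a ∈ ({e, sig w e} : Finset E) ∧ b ∈ ({e, sig w e} : Finset E))
        then (1 / 4 : ℚ) else 0) =
      (if a ∈ cut s t {w} then (if a ∈ cut s t {bar w} ∧ b ∈ cut s t {w} ∧ sig w a = b
        then 1 / 4 else 0) else 0) +
      (if b ∈ cut s t {w} then (if b ∈ cut s t {bar w} ∧ a ∈ cut s t {w} ∧ sig w b = a
        then 1 / 4 else 0) else 0) := by
    intro w hw
    have h3 : ∀ e ∈ cut s t {w},
        (if (e ∈ cut s t {bar w} ∧ sig w e ∈ cut s t {w}) ∧
          (a ∈ ({e, sig w e} : Finset E) ∧ b ∈ ({e, sig w e} : Finset E))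
          then (1 / 4 : ℚ) else 0) =
        (if a = e then (if a ∈ cut s t {bar w} ∧ b ∈ cut s t {w} ∧ sig w a = b
          then 1 / 4 else 0) else 0) +
        (if b = e then (if b ∈ cut s t {bar w} ∧ a ∈ cut s t {w} ∧ sig w b = a
          then 1 / 4 else 0) else 0) := by
      intro e he
      have h4 : (a ∈ ({e, sig w e} : Finset E) ∧ b ∈ ({e, sig w e} : Finset E)) ↔
          (a = e ∧ sig w a = b) ∨ (b = e ∧ sig w b = a) := by
        rw [Finset.mem_insert, Finset.mem_singleton, Finset.mem_insert, Finset.mem_singleton]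
        constructor
        · rintro ⟨h5 | h5, h6 | h6⟩
          · exact absurd (h5.trans h6.symm) hab
          · exact Or.inl ⟨h5, by rw [h5, h6]⟩
          · exact Or.inr ⟨h6, by rw [h6, h5]⟩
          · exact absurd (h5.trans h6.symm) hab
        · rintro (⟨h5, h6⟩ | ⟨h5, h6⟩)
          · exact ⟨Or.inl h5, Or.inr (by rw [← h6, h5])⟩
          · exact ⟨Or.inr (by rw [← h6, h5]), Or.inl h5⟩
      by_cases h5 : a = e
      · have h6 : b ≠ e := fun h7 => hab (h5.trans h7.symm)
        rw [if_pos h5, if_neg h6, add_zero]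
        subst h5
        by_cases h7 : sig w a = b
        · subst h7
          congr 1
          rw [h4]
          simp
        · rw [if_neg, if_neg]
          · exact fun h8 => h7 h8.2.2
          · rw [h4]
            rintro ⟨-, ⟨-, h8⟩ | ⟨h8, -⟩⟩
            · exact h7 h8
            · exact h6 h8
      · rw [if_neg h5, zero_add]
        by_cases h6 : b = e
        · rw [if_pos h6]
          subst h6
          by_cases h7 : sig w b = a
          · subst h7
            congr 1
            rw [h4]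
            simp
          · rw [if_neg, if_neg]
            · exact fun h8 => h7 h8.2.2
            · rw [h4]
              rintro ⟨-, ⟨h8, -⟩ | ⟨-, h8⟩⟩
              · exact h5 h8
              · exact h7 h8
        · rw [if_neg h6, if_neg]
          rw [h4]
          rintro ⟨-, ⟨h8, -⟩ | ⟨h8, -⟩⟩
          · exact h5 h8
          · exact h6 h8
    rw [Finset.sum_congr rfl h3, Finset.sum_add_distrib, Finset.sum_ite_eq, Finset.sum_ite_eq]
  rw [sum_two h hY hv, key v hv, key (bar v) (hY.bar_mem v hv)]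
  · rw [if_pos ha, if_pos hb]
    simp only [h.bar_bar, ha, hb, true_and]
    have h1 : ∀ x y : E, x ∈ cut s t {v} → y ∈ cut s t {v} →
        ((if x ∈ cut s t {bar v} then (if y ∈ cut s t {bar v} ∧ sig (bar v) x = y
          then (1 / 4 : ℚ) else 0) else 0) =
        if y ∈ cut s t {bar v} ∧ sig v y = x then 1 / 4 else 0) := by
      intro x y hx hy
      by_cases h2 : x ∈ cut s t {bar v}
      · rw [if_pos h2]
        congr 1
        refine propext (and_congr_right fun h3 => ⟨fun h4 => ?_, fun h4 => ?_⟩)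
        · rw [← h4]
          exact (h.inv' v h2).2
        · rw [← h4]
          exact h.inv v y hy
      · rw [if_neg h2, if_neg]
        rintro ⟨-, h3⟩
        apply h2
        rw [← h3]
        exact h.mem v y hy
    rw [h1 a b ha hb, h1 b a hb ha]
    have h2 : (a ∈ cut s t {bar v} ∧ sig v a = b) ↔ (a ∈ cut s t {bar v} ∧ sig v a = b) := Iff.rfl
    split_ifs <;> norm_num
  · intro w hw h1 h2
    rw [key w hw]
    have h3 : ∀ x : E, x ∈ cut s t {v} → x ∈ cut s t {w} → x ∉ cut s t {bar w} := by
      intro x hx hxw hxw'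
      rcases ends_inn h hxw hxw' hx with h4 | h4
      · exact h1 h4.symm
      · apply h2
        rw [h4, h.bar_bar]
    have h4 : ∀ x y : E, x ∈ cut s t {v} → ((if x ∈ cut s t {w} then
        (if x ∈ cut s t {bar w} ∧ y ∈ cut s t {w} ∧ sig w x = y then (1 / 4 : ℚ) else 0)
          else 0) = 0) := by
      intro x y hx
      by_cases h5 : x ∈ cut s t {w}
      · rw [if_pos h5, if_neg (fun h6 => h3 x hx h5 h6.1)]
      · rw [if_neg h5]
    rw [h4 a b ha, h4 b a hb, add_zero]

end Pool.Agent.Lib.MP_95bb8c_al.BU
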