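import Pool.Agent.Lib.MP_95bb8c_al.BU.Basic

set_option autoImplicit false
set_option linter.unusedSectionVars false

/-!
# Lifting laws at vertices which are never isolated
-/

namespace Pool.Agent.Lib.MP_95bb8c_al.BU

open Finset

variable {V E : Type} [Fintype V] [DecidableEq V] [Fintype E] [DecidableEq E]
variable {s t : E → V} {bar : V → V} {sig : V → E → E}

/-- The vertices of `Y` are never isolated: the partner of an edge at `v ∈ Y` which does not join
`v` and `bar v` joins `v` and `bar v`, and no edge at `v` is its own partner. -/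
structure NonIso (s t : E → V) (bar : V → V) (sig : V → E → E) (Y : Finset V) : Prop where
  bar_mem : ∀ v ∈ Y, bar v ∈ Y
  out : ∀ v ∈ Y, ∀ e ∈ cut s t {v}, e ∉ cut s t {bar v} → sig v e ∈ cut s t {v}
  ne : ∀ v ∈ Y, ∀ e ∈ cut s t {v}, sig v e ≠ e

/-- All turns of `C` at the vertices of `Y` join an edge between `v` and `bar v` and another
edge. -/
def Turn (s t : E → V) (bar : V → V) (Y : Finset V) (C : Finset E) : Prop :=
  ∀ v ∈ Y, ∀ e ∈ C, ∀ f ∈ C, e ∈ cut s t {v} → f ∈ cut s t {v} → e ≠ f →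
    (e ∈ cut s t {bar v} ↔ f ∉ cut s t {bar v})

/-- Parallel edges have the same endpoints. -/
theorem par_ends (hl : ∀ e, s e ≠ t e) {e f : E} (h : ∀ v, f ∈ cut s t {v} ↔ e ∈ cut s t {v}) :
    (s f = s e ∧ t f = t e) ∨ (s f = t e ∧ t f = s e) := by
  have h1 := (mem_star hl).1 ((h (s e)).2 ((mem_star hl).2 (Or.inl rfl)))
  have h2 := (mem_star hl).1 ((h (t e)).2 ((mem_star hl).2 (Or.inr rfl)))
  rcases h1 with h1 | h1
  · rcases h2 with h2 | h2
    · exact absurd (h1.symm.trans h2) (hl e)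
    · exact Or.inl ⟨h1, h2⟩
  · rcases h2 with h2 | h2
    · exact Or.inr ⟨h2, h1⟩
    · exact absurd (h1.symm.trans h2) (hl e)

/-- Replacing the edges of a cycle by parallel edges. -/
theorem cycle_image (hl : ∀ e, s e ≠ t e) {C : Finset E} (hC : IsCycle s t C) (r : E → E)
    (hinj : ∀ e ∈ C, ∀ f ∈ C, r e = r f → e = f)
    (hpar : ∀ e ∈ C, ∀ v, r e ∈ cut s t {v} ↔ e ∈ cut s t {v}) :
    IsCycle s t (C.image r) := by
  refine ⟨hC.nonempty.image r, ?_, ?_⟩
  · intro v
    have h1 : C.image r ∩ cut s t {v} = (C ∩ cut s t {v}).image r := by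
      ext x
      simp only [Finset.mem_inter, Finset.mem_image]
      constructor
      · rintro ⟨⟨y, hy, rfl⟩, h2⟩
        exact ⟨y, ⟨hy, (hpar y hy v).1 h2⟩, rfl⟩
      · rintro ⟨y, ⟨hy, hy2⟩, rfl⟩
        exact ⟨⟨y, hy, rfl⟩, (hpar y hy v).2 hy2⟩
    rw [h1, Finset.card_image_of_injOn]
    · exact hC.deg v
    · intro e he f hf hef
      exact hinj e (Finset.mem_inter.1 he).1 f (Finset.mem_inter.1 hf).1 hef
  · intro S hS
    have hcut : ∀ e ∈ C, (r e ∈ cut s t S ↔ e ∈ cut s t S) := by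
      intro e he
      rw [mem_cut, mem_cut]
      rcases par_ends hl (hpar e he) with ⟨h5, h6⟩ | ⟨h5, h6⟩
      · rw [h5, h6]
      · rw [h5, h6]
        tauto
    have h1 : C ∩ cut s t S = ∅ := by
      rw [Finset.eq_empty_iff_forall_notMem]
      intro e he
      rw [Finset.mem_inter] at he
      have h2 : r e ∈ C.image r ∩ cut s t S :=
        Finset.mem_inter.2 ⟨Finset.mem_image_of_mem r he.1, (hcut e he.1).2 he.2⟩
      rw [hS] at h2
      exact absurd h2 (Finset.notMem_empty _)
    have h2 : ∀ e ∈ C, (s (r e) ∈ S ↔ s e ∈ S) := by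
      intro e he
      have h3 : e ∉ cut s t S := by
        intro h4
        have : e ∈ C ∩ cut s t S := Finset.mem_inter.2 ⟨he, h4⟩
        rw [h1] at this
        exact absurd this (Finset.notMem_empty e)
      rw [mem_cut, not_not] at h3
      rcases par_ends hl (hpar e he) with ⟨h5, h6⟩ | ⟨h5, h6⟩
      · rw [h5]
      · rw [h5]
        exact h3.symm
    rcases hC.conn S h1 with h3 | h3
    · left
      intro e he
      obtain ⟨y, hy, rfl⟩ := Finset.mem_image.1 he
      exact (h2 y hy).2 (h3 y hy)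
    · right
      intro e he h4
      obtain ⟨y, hy, rfl⟩ := Finset.mem_image.1 he
      exact h3 y hy ((h2 y hy).1 h4)

/-- Two parallel edges form a cycle. -/
theorem cycle_pair (hl : ∀ e, s e ≠ t e) {e f : E} (hne : f ≠ e)
    (hpar : ∀ v, f ∈ cut s t {v} ↔ e ∈ cut s t {v}) : IsCycle s t {e, f} := by
  refine ⟨⟨e, Finset.mem_insert_self _ _⟩, ?_, ?_⟩
  · intro v
    by_cases h : e ∈ cut s t {v}
    · right
      have h1 : ({e, f} : Finset E) ∩ cut s t {v} = {e, f} := by
        rw [Finset.inter_eq_left]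
        intro x hx
        rw [Finset.mem_insert, Finset.mem_singleton] at hx
        rcases hx with rfl | rfl
        · exact h
        · exact (hpar v).2 h
      rw [h1, Finset.card_pair hne.symm]
    · left
      rw [Finset.card_eq_zero, Finset.eq_empty_iff_forall_notMem]
      intro x hx
      rw [Finset.mem_inter, Finset.mem_insert, Finset.mem_singleton] at hx
      rcases hx with ⟨rfl | rfl, hx⟩
      · exact h hx
      · exact h ((hpar v).1 hx)
  · intro S hS
    have h1 : e ∉ cut s t S := by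
      intro h1
      have h2 : e ∈ ({e, f} : Finset E) ∩ cut s t S :=
        Finset.mem_inter.2 ⟨Finset.mem_insert_self _ _, h1⟩
      rw [hS] at h2
      exact absurd h2 (Finset.notMem_empty _)
    rw [mem_cut, not_not] at h1
    have h2 : s f ∈ S ↔ s e ∈ S := by
      rcases par_ends hl hpar with ⟨h3, _⟩ | ⟨h3, _⟩
      · rw [h3]
      · rw [h3]
        exact h1.symm
    by_cases h3 : s e ∈ S
    · left
      intro x hx
      rw [Finset.mem_insert, Finset.mem_singleton] at hx
      rcases hx with rfl | rfl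
      · exact h3
      · exact h2.2 h3
    · right
      intro x hx
      rw [Finset.mem_insert, Finset.mem_singleton] at hx
      rcases hx with rfl | rfl
      · exact h3
      · exact fun h4 => h3 (h2.1 h4)

/-- An edge which joins `w` and `bar w` is only at these two vertices. -/
theorem ends_inn (h : Conn2 s t bar sig) {v w : V} {e : E} (h1 : e ∈ cut s t {w})
    (h2 : e ∈ cut s t {bar w}) (hv : e ∈ cut s t {v}) : v = w ∨ v = bar w := by
  have h3 := h.bar_ne w
  rw [mem_star h.hl] at h1 h2 hv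
  rcases h1 with h1 | h1
  · rcases h2 with h2 | h2
    · exact absurd (h2.symm.trans h1) h3
    · rcases hv with hv | hv
      · exact Or.inl (hv.symm.trans h1)
      · exact Or.inr (hv.symm.trans h2)
  · rcases h2 with h2 | h2
    · rcases hv with hv | hv
      · exact Or.inr (hv.symm.trans h2)
      · exact Or.inl (hv.symm.trans h1)
    · exact absurd (h2.symm.trans h1) h3

/-- Two edges which join `w` and `bar w` are parallel. -/
theorem par_inn (h : Conn2 s t bar sig) {w : V} {e f : E} (h1 : e ∈ cut s t {w})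
    (h2 : e ∈ cut s t {bar w}) (h3 : f ∈ cut s t {w}) (h4 : f ∈ cut s t {bar w}) :
    ∀ v, f ∈ cut s t {v} ↔ e ∈ cut s t {v} := by
  intro v
  constructor
  · intro hv
    rcases ends_inn h h3 h4 hv with rfl | rfl
    · exact h1
    · exact h2
  · intro hv
    rcases ends_inn h h1 h2 hv with rfl | rfl
    · exact h3
    · exact h4

section Lift

variable (s t bar sig) in
/-- The lift of a cycle: an edge between `w` and `bar w`, where `pos w = x`, is replaced by the
partner of the other edge of the cycle at `w`. -/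
def gl (pos : V → Bool) (Y : Finset V) (x : Bool) (C : Finset E) : Finset E :=
  univ.filter fun e' => (e' ∈ C ∧ ∀ w ∈ Y, ¬ (e' ∈ cut s t {w} ∧ e' ∈ cut s t {bar w})) ∨
    ∃ w ∈ Y, pos w = x ∧ ∃ e ∈ C, e ∈ cut s t {w} ∧ e ∉ cut s t {bar w} ∧ e' = sig w e

variable {pos : V → Bool} {Y : Finset V}

theorem mem_gl_out (h : Conn2 s t bar sig) (hY : NonIso s t bar sig Y) {x : Bool} {C : Finset E}
    {e : E} (he : ∀ w ∈ Y, ¬ (e ∈ cut s t {w} ∧ e ∈ cut s t {bar w})) :
    e ∈ gl s t bar sig pos Y x C ↔ e ∈ C := by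
  unfold gl
  rw [Finset.mem_filter]
  constructor
  · rintro ⟨-, ⟨h1, -⟩ | ⟨w, hw, -, o, hoC, how, ho, rfl⟩⟩
    · exact h1
    · exact absurd ⟨hY.out w hw o how ho, h.mem w o how⟩ (he w hw)
  · intro h1
    exact ⟨Finset.mem_univ _, Or.inl ⟨h1, he⟩⟩

theorem mem_gl_inn (h : Conn2 s t bar sig) (hpos : ∀ v, pos (bar v) = !pos v) {v : V}
    (hv : v ∈ Y) {C : Finset E} {e : E} (he : e ∈ cut s t {v}) (he' : e ∈ cut s t {bar v}) :
    e ∈ gl s t bar sig pos Y (pos v) C ↔
      sig (bar v) e ∈ C ∧ sig (bar v) e ∉ cut s t {bar v} := by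
  unfold gl
  rw [Finset.mem_filter]
  constructor
  · rintro ⟨-, ⟨-, h1⟩ | ⟨w, hw, hwx, o, hoC, how, ho, rfl⟩⟩
    · exact absurd ⟨he, he'⟩ (h1 v hv)
    · have h2 := h.mem w o how
      have h3 : bar w = v ∨ bar w = bar v := ends_inn h he he' h2
      have h4 : w = v := by
        rcases h3 with h3 | h3
        · exfalso
          have h5 := hpos w
          rw [h3, hwx] at h5
          cases hq : pos v <;> rw [hq] at h5 <;> exact absurd h5 (by decide)
        · rw [← h.bar_bar w, h3, h.bar_bar]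
      subst h4
      rw [h.inv w o how]
      exact ⟨hoC, ho⟩
  · rintro ⟨h1, h2⟩
    refine ⟨Finset.mem_univ _, Or.inr ⟨v, hv, rfl, sig (bar v) e, h1, (h.inv' v he').1, h2, ?_⟩⟩
    exact (h.inv' v he').2.symm

theorem gl_cycle (h : Conn2 s t bar sig) (hpos : ∀ v, pos (bar v) = !pos v)
    (hY : NonIso s t bar sig Y) (x : Bool) {C : Finset E} (hC : IsCycle s t C)
    (hT : Turn s t bar Y C) : IsCycle s t (gl s t bar sig pos Y x C) := by
  -- the other edge at a vertex
  have hother : ∀ w, ∀ e ∈ C, e ∈ cut s t {w} → ∃ f ∈ C, f ∈ cut s t {w} ∧ f ≠ e := by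
    intro w e he hew
    have h1 : (C ∩ cut s t {w}).card = 2 := by
      rcases hC.deg w with h2 | h2
      · exact absurd (Finset.card_eq_zero.1 h2)
          (Finset.nonempty_iff_ne_empty.1 ⟨e, Finset.mem_inter.2 ⟨he, hew⟩⟩)
      · exact h2
    obtain ⟨f, hf, hfe⟩ := Finset.exists_mem_ne (by omega : 1 < (C ∩ cut s t {w}).card) e
    exact ⟨f, (Finset.mem_inter.1 hf).1, (Finset.mem_inter.1 hf).2, hfe⟩
  have key : ∀ e ∈ C, ∃ e' : E, (∀ v, e' ∈ cut s t {v} ↔ e ∈ cut s t {v}) ∧
      (((∀ w ∈ Y, ¬ (e ∈ cut s t {w} ∧ e ∈ cut s t {bar w})) ∧ e' = e) ∨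
        ∃ w ∈ Y, pos w = x ∧ (e ∈ cut s t {w} ∧ e ∈ cut s t {bar w}) ∧
          ∃ o ∈ C, o ∈ cut s t {w} ∧ o ∉ cut s t {bar w} ∧ e' = sig w o) := by
    intro e he
    by_cases hN : ∀ w ∈ Y, ¬ (e ∈ cut s t {w} ∧ e ∈ cut s t {bar w})
    · exact ⟨e, fun v => Iff.rfl, Or.inl ⟨hN, rfl⟩⟩
    · push Not at hN
      obtain ⟨w, hw, hew, hew'⟩ := hN
      -- choose the orientation
      obtain ⟨w, hw, hwx, hew, hew'⟩ : ∃ w ∈ Y, pos w = x ∧ e ∈ cut s t {w} ∧
          e ∈ cut s t {bar w} := by
        by_cases hx : pos w = x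
        · exact ⟨w, hw, hx, hew, hew'⟩
        · refine ⟨bar w, hY.bar_mem w hw, ?_, hew', ?_⟩
          · rw [hpos w]
            cases hq : pos w <;> cases x <;> simp_all
          · rw [h.bar_bar]
            exact hew
      obtain ⟨o, ho, how, hoe⟩ := hother w e he hew
      have ho' : o ∉ cut s t {bar w} := (hT w hw e he o ho hew how hoe.symm).1 hew'
      refine ⟨sig w o, par_inn h hew hew' (hY.out w hw o how ho') (h.mem w o how), Or.inr
        ⟨w, hw, hwx, ⟨hew, hew'⟩, o, ho, how, ho', rfl⟩⟩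
  choose! r hr1 hr2 using key
  have himg : gl s t bar sig pos Y x C = C.image r := by
    ext e'
    unfold gl
    rw [Finset.mem_filter, Finset.mem_image]
    constructor
    · rintro ⟨-, ⟨h1, h2⟩ | ⟨w, hw, hwx, o, hoC, how, ho, rfl⟩⟩
      · refine ⟨e', h1, ?_⟩
        rcases hr2 e' h1 with ⟨-, h3⟩ | ⟨w, hw, -, h3, -⟩
        · exact h3
        · exact absurd h3 (h2 w hw)
      · obtain ⟨e, he, hew, heo⟩ := hother w o hoC how
        have hew' : e ∈ cut s t {bar w} := (hT w hw e he o hoC hew how heo).2 ho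
        refine ⟨e, he, ?_⟩
        rcases hr2 e he with ⟨h3, -⟩ | ⟨w', hw', hwx', h3, o', ho'C, how', ho', h4⟩
        · exact absurd ⟨hew, hew'⟩ (h3 w hw)
        · have h5 : w' = w := by
            rcases ends_inn h hew hew' h3.1 with h6 | h6
            · exact h6
            · exfalso
              have h7 := hpos w
              rw [← h6, hwx', hwx] at h7
              cases x <;> simp at h7
          subst h5
          rw [h4]
          by_cases h6 : o' = o
          · rw [h6]
          · exact absurd ((hT w' hw' o' ho'C o hoC how' how h6).2 ho) ho'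
    · rintro ⟨e, he, rfl⟩
      refine ⟨Finset.mem_univ _, ?_⟩
      rcases hr2 e he with ⟨h3, h4⟩ | ⟨w, hw, hwx, h3, o, hoC, how, ho, h4⟩
      · left
        rw [h4]
        exact ⟨he, h3⟩
      · right
        exact ⟨w, hw, hwx, o, hoC, how, ho, h4⟩
  rw [himg]
  refine cycle_image h.hl hC r ?_ hr1
  intro e he f hf hef
  by_contra hne
  have hp : ∀ v, f ∈ cut s t {v} ↔ e ∈ cut s t {v} := by
    intro v
    rw [← hr1 f hf v, ← hef, hr1 e he v]
  rcases hr2 e he with ⟨h3, h4⟩ | ⟨w, hw, hwx, h3, -⟩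
  · rcases hr2 f hf with ⟨h5, h6⟩ | ⟨w, hw, hwx, h5, -⟩
    · exact hne (h4.symm.trans (hef.trans h6))
    · exact h3 w hw ⟨(hp w).1 h5.1, (hp (bar w)).1 h5.2⟩
  · exact (hT w hw e he f hf h3.1 ((hp w).2 h3.1) hne).1 h3.2 ((hp (bar w)).2 h3.2)

end Lift

end Pool.Agent.Lib.MP_95bb8c_al.BU
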