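import Pool.Agent.Lib.MP_95bb8c_al.BU.IsoLaw

set_option autoImplicit false
set_option linter.unusedSectionVars false

/-!
# The lifted law is balanced
-/

namespace Pool.Agent.Lib.MP_95bb8c_al.BU

open Finset

variable {V E : Type} [Fintype V] [DecidableEq V] [Fintype E] [DecidableEq E]
variable {s t : E → V} {bar : V → V} {sig : V → E → E} {pos : V → Bool} {Y : Finset V}

/-- Two sums over the support of a law. -/
theorem sum_supp {u : Finset E → ℚ} {p q : Finset E → Prop} [DecidablePred p] [DecidablePred q]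
    (h : ∀ C, u C ≠ 0 → (p C ↔ q C)) :
    ∑ C, (if p C then u C else 0) = ∑ C, if q C then u C else 0 := by
  refine Finset.sum_congr rfl fun C _ => ?_
  by_cases hC : u C = 0
  · rw [hC]
    simp
  · rw [if_congr (h C hC) rfl rfl]

/-- The edge at `v ∈ Y` which is not at `bar v` is unique. -/
theorem turn_unique {C : Finset E} (hT : Turn s t bar Y C) {v : V} (hv : v ∈ Y) {e f : E}
    (he : e ∈ C) (hf : f ∈ C) (hev : e ∈ cut s t {v}) (hfv : f ∈ cut s t {v})
    (he' : e ∉ cut s t {bar v}) (hf' : f ∉ cut s t {bar v}) : e = f := by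
  by_contra hne
  exact he' ((hT v hv e he f hf hev hfv hne).2 hf')

/-- The pairs of the lifted cycles. -/
theorem gl_pair (h : Conn2 s t bar sig) (hpos : ∀ v, pos (bar v) = !pos v)
    (hY : NonIso s t bar sig Y) (u : Finset E → ℚ)
    (hT : ∀ C, u C ≠ 0 → Turn s t bar Y C) {v : V} (hv : v ∈ Y)
    (hm : ∀ e ∈ cut s t {v}, e ∉ cut s t {bar v} → ∑ C, (if e ∈ C then u C else 0) = 1)
    {a b : E} (ha : a ∈ cut s t {v}) (hb : b ∈ cut s t {v}) (hab : a ≠ b) :
    (∑ C, if a ∈ gl s t bar sig pos Y (pos v) C ∧ b ∈ gl s t bar sig pos Y (pos v) C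
        then u C else 0) +
      (∑ C, if a ∈ gl s t bar sig pos Y (pos (bar v)) C ∧
        b ∈ gl s t bar sig pos Y (pos (bar v)) C then u C else 0) =
    (if a ∉ cut s t {bar v} ∧ sig v a = b then 1 else 0) +
      (if b ∉ cut s t {bar v} ∧ sig v b = a then 1 else 0) +
      (if a ∉ cut s t {bar v} ∧ sig v b ∉ cut s t {v} then pw u a (sig v b) else 0) +
      (if b ∉ cut s t {bar v} ∧ sig v a ∉ cut s t {v} then pw u b (sig v a) else 0) := by
  have hvb := hY.bar_mem v hv
  -- edges which do not join `v` and `bar v`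
  have hout : ∀ e ∈ cut s t {v}, e ∉ cut s t {bar v} →
      ∀ w ∈ Y, ¬ (e ∈ cut s t {w} ∧ e ∈ cut s t {bar w}) := by
    rintro e he he' w _ ⟨h1, h2⟩
    apply he'
    rcases ends_inn h h1 h2 he with h3 | h3
    · rw [h3]
      exact h2
    · rw [h3, h.bar_bar]
      exact h1
  have m1 : ∀ x e, e ∈ cut s t {v} → e ∉ cut s t {bar v} → ∀ C,
      (e ∈ gl s t bar sig pos Y x C ↔ e ∈ C) := fun x e he he' C =>
    mem_gl_out h hY (hout e he he')
  have m2 : ∀ e ∈ cut s t {v}, e ∈ cut s t {bar v} → ∀ C,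
      (e ∈ gl s t bar sig pos Y (pos v) C ↔ sig (bar v) e ∈ C ∧ sig (bar v) e ∉ cut s t {bar v}) :=
    fun e he he' C => mem_gl_inn h hpos hv he he'
  have m3 : ∀ e ∈ cut s t {v}, e ∈ cut s t {bar v} → ∀ C,
      (e ∈ gl s t bar sig pos Y (pos (bar v)) C ↔ sig v e ∈ C ∧ sig v e ∉ cut s t {v}) := by
    intro e he he' C
    have h1 := mem_gl_inn (pos := pos) (Y := Y) (C := C) (e := e) h hpos hvb he'
      (by rw [h.bar_bar]; exact he)
    rw [h.bar_bar] at h1
    exact h1
  -- one edge joins `v` and `bar v`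
  have mixed : ∀ a b : E, a ∈ cut s t {v} → b ∈ cut s t {v} → a ∉ cut s t {bar v} →
      b ∈ cut s t {bar v} →
      (∑ C, if a ∈ gl s t bar sig pos Y (pos v) C ∧ b ∈ gl s t bar sig pos Y (pos v) C
        then u C else 0) +
      (∑ C, if a ∈ gl s t bar sig pos Y (pos (bar v)) C ∧
        b ∈ gl s t bar sig pos Y (pos (bar v)) C then u C else 0) =
      (if sig v a = b then 1 else 0) +
        (if sig v b ∉ cut s t {v} then pw u a (sig v b) else 0) := by
    intro a b ha hb ha' hb'
    congr 1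
    · by_cases hs : sig v a = b
      · rw [if_pos hs, ← hm a ha ha']
        refine sum_supp fun C hC => ?_
        rw [m1 _ a ha ha', m2 b hb hb', ← hs, h.inv v a ha]
        exact ⟨fun h1 => h1.1, fun h1 => ⟨h1, h1, ha'⟩⟩
      · rw [if_neg hs]
        refine Finset.sum_eq_zero fun C _ => ?_
        by_cases hC : u C = 0
        · rw [hC]
          simp
        · rw [if_neg]
          rw [m1 _ a ha ha', m2 b hb hb']
          rintro ⟨h1, h2, h3⟩
          apply hs
          rw [turn_unique (hT C hC) hv h1 h2 ha (h.inv' v hb').1 ha' h3]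
          exact (h.inv' v hb').2
    · by_cases hs : sig v b ∉ cut s t {v}
      · rw [if_pos hs]
        unfold pw
        refine sum_supp fun C hC => ?_
        rw [m1 _ a ha ha', m3 b hb hb']
        exact ⟨fun h1 => ⟨h1.1, h1.2.1⟩, fun h1 => ⟨h1.1, h1.2, hs⟩⟩
      · rw [if_neg hs]
        refine Finset.sum_eq_zero fun C _ => ?_
        rw [if_neg]
        rw [m3 b hb hb']
        exact fun h1 => hs h1.2.2
  by_cases ha' : a ∈ cut s t {bar v}
  · by_cases hb' : b ∈ cut s t {bar v}
    · rw [if_neg (fun h1 => h1.1 ha'), if_neg (fun h1 => h1.1 hb'), if_neg (fun h1 => h1.1 ha'),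
        if_neg (fun h1 => h1.1 hb')]
      rw [add_zero, add_zero, add_zero]
      rw [Finset.sum_eq_zero, Finset.sum_eq_zero, add_zero]
      · intro C _
        by_cases hC : u C = 0
        · rw [hC]
          simp
        · rw [if_neg]
          rw [m3 a ha ha', m3 b hb hb']
          rintro ⟨⟨h1, h2⟩, h3, h4⟩
          apply hab
          apply h.sig_inj v a ha b hb
          refine turn_unique (hT C hC) hvb h1 h3 (h.mem v a ha) (h.mem v b hb) ?_ ?_
          · rw [h.bar_bar]
            exact h2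
          · rw [h.bar_bar]
            exact h4
      · intro C _
        by_cases hC : u C = 0
        · rw [hC]
          simp
        · rw [if_neg]
          rw [m2 a ha ha', m2 b hb hb']
          rintro ⟨⟨h1, h2⟩, h3, h4⟩
          apply hab
          have h5 := turn_unique (hT C hC) hv h1 h3 (h.inv' v ha').1 (h.inv' v hb').1 h2 h4
          rw [← (h.inv' v ha').2, h5, (h.inv' v hb').2]
    · rw [if_neg (fun h1 => h1.1 ha'), if_neg (c := a ∉ cut s t {bar v} ∧ sig v b ∉ cut s t {v})
        (fun h1 => h1.1 ha'), zero_add, add_zero]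
      have h1 := mixed b a hb ha hb' ha'
      have h2 : ∀ x C, (a ∈ gl s t bar sig pos Y x C ∧ b ∈ gl s t bar sig pos Y x C) ↔
          (b ∈ gl s t bar sig pos Y x C ∧ a ∈ gl s t bar sig pos Y x C) := fun x C => and_comm
      simp only [h2]
      rw [h1]
      simp only [hb', not_false_eq_true, true_and]
  · by_cases hb' : b ∈ cut s t {bar v}
    · rw [mixed a b ha hb ha' hb']
      rw [if_neg (c := b ∉ cut s t {bar v} ∧ sig v b = a) (fun h1 => h1.1 hb'),
        if_neg (c := b ∉ cut s t {bar v} ∧ sig v a ∉ cut s t {v}) (fun h1 => h1.1 hb'),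
        add_zero, add_zero]
      simp only [ha', not_false_eq_true, true_and]
    · have h1 : ∀ x, (∑ C, if a ∈ gl s t bar sig pos Y x C ∧ b ∈ gl s t bar sig pos Y x C
          then u C else 0) = 0 := by
        intro x
        refine Finset.sum_eq_zero fun C _ => ?_
        by_cases hC : u C = 0
        · rw [hC]
          simp
        · rw [if_neg]
          rw [m1 x a ha ha', m1 x b hb hb']
          rintro ⟨h1, h2⟩
          exact hab (turn_unique (hT C hC) hv h1 h2 ha hb ha' hb')
      rw [h1, h1, if_neg, if_neg, if_neg, if_neg]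
      · simp
      · exact fun h2 => h2.2 (hY.out v hv a ha ha')
      · exact fun h2 => h2.2 (hY.out v hv b hb hb')
      · rintro ⟨-, h2⟩
        apply ha'
        rw [← h2]
        exact h.mem v b hb
      · rintro ⟨-, h2⟩
        apply hb'
        rw [← h2]
        exact h.mem v a ha

/-- The pairs of the lifted law at `v ∈ Y`. -/
theorem lw_pair (h : Conn2 s t bar sig) (hpos : ∀ v, pos (bar v) = !pos v)
    (hY : NonIso s t bar sig Y) (u : Finset E → ℚ)
    (hT : ∀ C, u C ≠ 0 → Turn s t bar Y C) {v : V} (hv : v ∈ Y)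
    (hm : ∀ e ∈ cut s t {v}, e ∉ cut s t {bar v} → ∑ C, (if e ∈ C then u C else 0) = 1)
    {a b : E} (ha : a ∈ cut s t {v}) (hb : b ∈ cut s t {v}) (hab : a ≠ b) :
    pw (lw s t bar sig pos Y u) a b = ((if sig v a = b then 1 else 0) +
      (if sig v b = a then 1 else 0) +
      (if a ∉ cut s t {bar v} ∧ sig v b ∉ cut s t {v} then pw u a (sig v b) else 0) +
      (if b ∉ cut s t {bar v} ∧ sig v a ∉ cut s t {v} then pw u b (sig v a) else 0)) / 2 := by
  have h1 : pw (lw s t bar sig pos Y u) a b =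
      ∑ C', if (a ∈ C' ∧ b ∈ C') then lw s t bar sig pos Y u C' else 0 := rfl
  rw [h1, sum_lw u v hpos (fun C' => a ∈ C' ∧ b ∈ C'), gl_pair h hpos hY u hT hv hm ha hb hab,
    fl_pair h hY hv ha hb hab]
  have h2 : ∀ x y : E, x ∈ cut s t {v} → y ∈ cut s t {v} →
      ((if sig v x = y then (1 : ℚ) else 0) =
        (if x ∉ cut s t {bar v} ∧ sig v x = y then 1 else 0) +
        2 * (if x ∈ cut s t {bar v} ∧ sig v x = y then 1 / 2 else 0)) := by
    intro x y _ _
    by_cases h3 : sig v x = y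
    · by_cases h4 : x ∈ cut s t {bar v}
      · simp [h3, h4]
      · simp [h3, h4]
    · simp [h3]
  rw [h2 a b ha hb, h2 b a hb ha]
  ring

/-- The lifted law is balanced at `Y`. -/
theorem lw_bal (h : Conn2 s t bar sig) (hpos : ∀ v, pos (bar v) = !pos v)
    (hY : NonIso s t bar sig Y) (u : Finset E → ℚ)
    (hT : ∀ C, u C ≠ 0 → Turn s t bar Y C)
    (hm : ∀ v ∈ Y, ∀ e ∈ cut s t {v}, e ∉ cut s t {bar v} →
      ∑ C, (if e ∈ C then u C else 0) = 1) {v : V} (hv : v ∈ Y)
    {a b : E} (ha : a ∈ cut s t {v}) (hb : b ∈ cut s t {v}) (hab : a ≠ b) :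
    pw (lw s t bar sig pos Y u) a b = pw (lw s t bar sig pos Y u) (sig v a) (sig v b) := by
  have hvb := hY.bar_mem v hv
  have hsym : ∀ x y, pw u x y = pw u y x := by
    intro x y
    unfold pw
    exact Finset.sum_congr rfl fun C _ => if_congr and_comm rfl rfl
  rw [lw_pair h hpos hY u hT hv (hm v hv) ha hb hab,
    lw_pair h hpos hY u hT hvb (hm _ hvb) (h.mem v a ha) (h.mem v b hb)
      (fun h1 => hab (h.sig_inj v a ha b hb h1)), h.bar_bar, h.inv v a ha, h.inv v b hb,
    hsym (sig v a) b, hsym (sig v b) a]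
  have h1 : (if a = sig v b then (1 : ℚ) else 0) = if sig v b = a then 1 else 0 :=
    if_congr eq_comm rfl rfl
  have h2 : (if b = sig v a then (1 : ℚ) else 0) = if sig v a = b then 1 else 0 :=
    if_congr eq_comm rfl rfl
  have h3 : (if sig v a ∉ cut s t {v} ∧ b ∉ cut s t {bar v} then pw u b (sig v a) else 0) =
      if b ∉ cut s t {bar v} ∧ sig v a ∉ cut s t {v} then pw u b (sig v a) else 0 :=
    if_congr and_comm rfl rfl
  have h4 : (if sig v b ∉ cut s t {v} ∧ a ∉ cut s t {bar v} then pw u a (sig v b) else 0) =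
      if a ∉ cut s t {bar v} ∧ sig v b ∉ cut s t {v} then pw u a (sig v b) else 0 :=
    if_congr and_comm rfl rfl
  rw [h1, h2, h3, h4]
  ring

/-- The marginals of the lifted law. -/
theorem lw_marg (h : Conn2 s t bar sig) (hpos : ∀ v, pos (bar v) = !pos v)
    (hY : NonIso s t bar sig Y) (u : Finset E → ℚ)
    (hm : ∀ e, (∀ w ∈ Y, ¬ (e ∈ cut s t {w} ∧ e ∈ cut s t {bar w})) →
      ∑ C, (if e ∈ C then u C else 0) = 1) (e : E) :
    ∑ C, (if e ∈ C then lw s t bar sig pos Y u C else 0) = 1 := by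
  by_cases he : ∀ w ∈ Y, ¬ (e ∈ cut s t {w} ∧ e ∈ cut s t {bar w})
  · rw [sum_lw u (s e) hpos (fun C' => e ∈ C'), fl_marg_out h he]
    have h1 : ∀ x, (∑ C, if e ∈ gl s t bar sig pos Y x C then u C else 0) = 1 := by
      intro x
      rw [← hm e he]
      exact sum_supp fun C _ => mem_gl_out h hY he
    rw [h1, h1]
    norm_num
  · push Not at he
    obtain ⟨v, hv, hev, hev'⟩ := he
    have hvb := hY.bar_mem v hv
    have hout : ∀ v ∈ Y, ∀ e ∈ cut s t {v}, e ∉ cut s t {bar v} →
        ∀ w ∈ Y, ¬ (e ∈ cut s t {w} ∧ e ∈ cut s t {bar w}) := by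
      rintro v _ e he he' w _ ⟨h1, h2⟩
      apply he'
      rcases ends_inn h h1 h2 he with h3 | h3
      · rw [h3]
        exact h2
      · rw [h3, h.bar_bar]
        exact h1
    have h1 : ∀ v ∈ Y, e ∈ cut s t {v} → e ∈ cut s t {bar v} →
        (∑ C, if e ∈ gl s t bar sig pos Y (pos v) C then u C else 0) =
          if sig (bar v) e ∈ cut s t {bar v} then 0 else 1 := by
      intro v hv hev hev'
      by_cases h2 : sig (bar v) e ∈ cut s t {bar v}
      · rw [if_pos h2]
        refine Finset.sum_eq_zero fun C _ => ?_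
        rw [if_neg]
        rw [mem_gl_inn h hpos hv hev hev']
        exact fun h3 => h3.2 h2
      · rw [if_neg h2, ← hm (sig (bar v) e) (hout v hv _ (h.inv' v hev').1 h2)]
        refine sum_supp fun C _ => ?_
        rw [mem_gl_inn h hpos hv hev hev']
        exact ⟨fun h3 => h3.1, fun h3 => ⟨h3, h2⟩⟩
    rw [sum_lw u v hpos (fun C' => e ∈ C'), fl_marg_inn h hY hv hev hev', h1 v hv hev hev',
      h1 (bar v) hvb hev' (by rw [h.bar_bar]; exact hev), h.bar_bar]
    by_cases h2 : sig (bar v) e ∈ cut s t {bar v} <;> by_cases h3 : sig v e ∈ cut s t {v} <;>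
      simp only [h2, h3, if_true, if_false] <;> norm_num

end Pool.Agent.Lib.MP_95bb8c_al.BU
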