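import Pool.Agent.Lib.MP_95bb8c_al.BU.Defs
import Pool.Agent.Lib.MP_dc7d7b_co.Farkas

set_option autoImplicit false
set_option linter.unusedSectionVars false

namespace Pool.Agent.Lib.MP_95bb8c_al.BU

open Finset

/-- The real form of the duality: Farkas' lemma for the box `0 ≤ μ ≤ 1`. -/
private theorem lp_real {Ω I J : Type} [Fintype Ω] [Fintype I] [Fintype J] (M : I → Ω → ℚ)
    (B : J → Ω → ℚ) (hM : ∀ i x, 0 ≤ M i x) (hbd : ∀ x, ∃ i, 1 ≤ M i x)
    (h : ∀ ℓ : J → ℝ, ∃ μ : Ω → ℝ, (∀ x, 0 ≤ μ x) ∧ (∀ i, ∑ x, (M i x : ℝ) * μ x = 1) ∧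
      ∑ x, μ x * ∑ j, ℓ j * (B j x : ℝ) ≤ 0) :
    ∃ ν : Ω → ℝ, (∀ x, 0 ≤ ν x) ∧ (∀ i, ∑ x, (M i x : ℝ) * ν x = 1) ∧
      ∀ j, ∑ x, (B j x : ℝ) * ν x = 0 := by
  classical
  let A : (I ⊕ I) ⊕ (J ⊕ J) → Ω → ℝ :=
    Sum.elim (Sum.elim (fun i x => (M i x : ℝ)) (fun i x => -(M i x : ℝ)))
      (Sum.elim (fun j x => (B j x : ℝ)) (fun j x => -(B j x : ℝ)))
  let b : (I ⊕ I) ⊕ (J ⊕ J) → ℝ :=
    Sum.elim (Sum.elim (fun _ => 1) (fun _ => -1)) (fun _ => 0)
  obtain ⟨X, hX0, _, hX⟩ := Pool.Agent.MP_dc7d7b.box_farkas A b (fun _ : Ω => (1 : ℝ))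
    (fun _ => zero_le_one) (by
      intro ω hω
      obtain ⟨μ, hμ0, hμM, hμB⟩ := h fun j => ω (Sum.inr (Sum.inl j)) - ω (Sum.inr (Sum.inr j))
      have hμ1 : ∀ x, μ x ≤ 1 := by
        intro x
        obtain ⟨i, hi⟩ := hbd x
        have h1 : (1 : ℝ) ≤ (M i x : ℝ) := by exact_mod_cast hi
        have h2 : (M i x : ℝ) * μ x ≤ ∑ y, (M i y : ℝ) * μ y :=
          single_le_sum (f := fun y => (M i y : ℝ) * μ y)
            (fun y _ => mul_nonneg (by exact_mod_cast hM i y) (hμ0 y)) (mem_univ x)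
        rw [hμM i] at h2
        nlinarith [hμ0 x]
      have hstep : ∀ x, (1 : ℝ) * min 0 (∑ a, ω a * A a x) ≤ μ x * ∑ a, ω a * A a x := by
        intro x
        rcases le_total 0 (∑ a, ω a * A a x) with h0 | h0
        · rw [min_eq_left h0]
          have := mul_nonneg (hμ0 x) h0
          linarith
        · rw [min_eq_right h0]
          nlinarith [hμ1 x]
      refine (sum_le_sum fun x _ => hstep x).trans ?_
      have hA : ∀ x, ∑ a, ω a * A a x
          = ∑ i, (ω (Sum.inl (Sum.inl i)) - ω (Sum.inl (Sum.inr i))) * (M i x : ℝ)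
            + ∑ j, (ω (Sum.inr (Sum.inl j)) - ω (Sum.inr (Sum.inr j))) * (B j x : ℝ) := by
        intro x
        simp only [Fintype.sum_sum_type, A, Sum.elim_inl, Sum.elim_inr]
        rw [← sum_add_distrib, ← sum_add_distrib]
        congr 1 <;> exact sum_congr rfl fun _ _ => by ring
      have hb : ∑ a, ω a * b a = ∑ i, (ω (Sum.inl (Sum.inl i)) - ω (Sum.inl (Sum.inr i))) := by
        simp only [Fintype.sum_sum_type, b, Sum.elim_inl, Sum.elim_inr, mul_zero, sum_const_zero,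
          add_zero]
        rw [← sum_add_distrib]
        exact sum_congr rfl fun _ _ => by ring
      have hsum : ∑ x, μ x * ∑ a, ω a * A a x
          = ∑ i, (ω (Sum.inl (Sum.inl i)) - ω (Sum.inl (Sum.inr i)))
            + ∑ x, μ x * ∑ j, (ω (Sum.inr (Sum.inl j)) - ω (Sum.inr (Sum.inr j))) * (B j x : ℝ) := by
        have h1 : ∀ x, μ x * ∑ a, ω a * A a x
            = ∑ i, (ω (Sum.inl (Sum.inl i)) - ω (Sum.inl (Sum.inr i))) * ((M i x : ℝ) * μ x)
              + μ x * ∑ j, (ω (Sum.inr (Sum.inl j)) - ω (Sum.inr (Sum.inr j))) * (B j x : ℝ) := by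
          intro x
          rw [hA, mul_add, mul_sum]
          congr 1
          exact sum_congr rfl fun _ _ => by ring
        rw [sum_congr rfl fun x _ => h1 x, sum_add_distrib, sum_comm]
        congr 1
        refine sum_congr rfl fun i _ => ?_
        rw [← mul_sum, hμM i, mul_one]
      rw [hsum, hb]
      linarith)
  refine ⟨X, hX0, fun i => ?_, fun j => ?_⟩
  · have h1 := hX (Sum.inl (Sum.inl i))
    have h2 := hX (Sum.inl (Sum.inr i))
    simp only [A, b, Sum.elim_inl, Sum.elim_inr, neg_mul, sum_neg_distrib] at h1 h2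
    linarith
  · have h1 := hX (Sum.inr (Sum.inl j))
    have h2 := hX (Sum.inr (Sum.inr j))
    simp only [A, b, Sum.elim_inl, Sum.elim_inr, neg_mul, sum_neg_distrib] at h1 h2
    linarith

/-- Duality: if for each functional `ℓ` there is a point of the polytope
`μ ≥ 0, M μ = 1` with `ℓ (B μ) ≤ 0`, then there is a rational point with `B μ = 0`. -/
theorem lp_dual {Ω I J : Type} [Fintype Ω] [Fintype I] [Fintype J] (M : I → Ω → ℚ)
    (B : J → Ω → ℚ) (hM : ∀ i x, 0 ≤ M i x) (hbd : ∀ x, ∃ i, 1 ≤ M i x)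
    (h : ∀ ℓ : J → ℝ, ∃ μ : Ω → ℝ, (∀ x, 0 ≤ μ x) ∧ (∀ i, ∑ x, (M i x : ℝ) * μ x = 1) ∧
      ∑ x, μ x * ∑ j, ℓ j * (B j x : ℝ) ≤ 0) :
    ∃ μ : Ω → ℚ, (∀ x, 0 ≤ μ x) ∧ (∀ i, ∑ x, M i x * μ x = 1) ∧ ∀ j, ∑ x, B j x * μ x = 0 := by
  classical
  obtain ⟨ν, hν0, hνM, hνB⟩ := lp_real M B hM hbd h
  obtain ⟨φ, hφ⟩ := OE.exact_functional (insert 1 ((univ.image ν).filter fun w => 0 < w)) (by
    intro w hw
    rw [mem_insert] at hw
    rcases hw with rfl | hw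
    · exact one_pos
    · exact (mem_filter.1 hw).2)
  have h1 : 0 < φ 1 := hφ 1 (mem_insert_self _ _)
  have hφν : ∀ x, 0 ≤ φ (ν x) := by
    intro x
    rcases (hν0 x).eq_or_lt with h0 | h0
    · rw [← h0, map_zero]
    · exact (hφ (ν x) (mem_insert_of_mem (mem_filter.2 ⟨mem_image_of_mem ν (mem_univ x), h0⟩))).le
  have h3 : ∀ (q : ℚ) (w : ℝ), φ ((q : ℝ) * w) = q * φ w := by
    intro q w
    have := φ.map_smul q w
    rw [Rat.smul_def, smul_eq_mul] at this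
    exact this
  have h4 : ∀ c : Ω → ℚ, ∑ x, c x * (φ (ν x) / φ 1) = φ (∑ x, (c x : ℝ) * ν x) / φ 1 := by
    intro c
    rw [map_sum, sum_div]
    exact sum_congr rfl fun x _ => by rw [h3, mul_div_assoc]
  refine ⟨fun x => φ (ν x) / φ 1, fun x => div_nonneg (hφν x) h1.le, fun i => ?_, fun j => ?_⟩
  · rw [h4, hνM i, div_self h1.ne']
  · rw [h4, hνB j, map_zero, zero_div]

end Pool.Agent.Lib.MP_95bb8c_al.BU
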