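import Pool.Agent.Lib.MP_95bb8c_al.BU.Even

set_option autoImplicit false

namespace Pool.Agent.Lib.MP_95bb8c_al.BU

open Finset

/-- In a perfect matching the number of edges leaving a set has the parity of the set. -/
theorem pm_parity {V E : Type} [Fintype V] [DecidableEq V] [Fintype E] [DecidableEq E]
    (s t : E → V) (M : Finset E) (A : Finset V) :
    (∀ x ∈ A, (M ∩ cut s t {x}).card = 1) → (M ∩ cut s t A).card % 2 = A.card % 2 := by
  induction A using Finset.induction_on with
  | empty =>
    intro _
    have : cut s t (∅ : Finset V) = ∅ := by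
      ext e; simp [mem_cut]
    simp [this]
  | insert a A ha IH =>
    intro h
    have h1 := IH fun x hx => h x (Finset.mem_insert_of_mem hx)
    have h2 := h a (Finset.mem_insert_self a A)
    have h3 : M ∩ cut s t (insert a A) = symmDiff (M ∩ cut s t A) (M ∩ cut s t {a}) := by
      ext e
      simp only [Finset.mem_inter, Finset.mem_symmDiff, mem_cut, Finset.mem_insert,
        Finset.mem_singleton]
      by_cases h4 : s e = a <;> by_cases h5 : t e = a <;> by_cases h6 : s e ∈ A <;>
        by_cases h7 : t e ∈ A <;> simp_all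
    have h4 := card_symm (M ∩ cut s t A) (M ∩ cut s t {a})
    rw [← h3, h2] at h4
    rw [Finset.card_insert_of_notMem ha]
    omega

section Hub

variable {V E : Type} [Fintype V] [DecidableEq V] [Fintype E] [DecidableEq E]

/-- Vertices of the hub graph: a port for each flag and four hub vertices for each vertex. -/
abbrev HP (V E : Type) : Type := (E × Bool) ⊕ (V × Fin 4)

/-- Edges of the hub graph. -/
abbrev HE (V E : Type) : Type := E ⊕ (((E × Bool) × Fin 4) ⊕ (V × (Fin 4 × Fin 4)))

/-- The vertex of a flag. -/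
def fe (s t : E → V) (q : E × Bool) : V := if q.2 then t q.1 else s q.1

/-- First endpoints in the hub graph. -/
def hs (V E : Type) : HE V E → HP V E :=
  Sum.elim (fun e => Sum.inl (e, false))
    (Sum.elim (fun q => Sum.inl q.1) (fun r => Sum.inr (r.1, r.2.1)))

/-- Second endpoints in the hub graph. -/
def ht (s t : E → V) : HE V E → HP V E :=
  Sum.elim (fun e => Sum.inl (e, true))
    (Sum.elim (fun q => Sum.inr (fe s t q.1, q.2)) (fun r => Sum.inr (r.1, r.2.2)))

/-- The total weight at `v`. -/
def wdeg (s t : E → V) (p : E → ℚ) (v : V) : ℚ := ∑ e ∈ cut s t {v}, p e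

/-- The weights of the hub graph. -/
def hx (s t : E → V) (p : E → ℚ) : HE V E → ℚ :=
  Sum.elim (fun e => 1 - p e)
    (Sum.elim (fun q => p q.1.1 / 4)
      (fun r => if r.2.1 = r.2.2 then 0 else (1 - wdeg s t p r.1 / 4) / 6))

variable {s t : E → V} {p : E → ℚ}

omit [Fintype V] [DecidableEq E] in
theorem sum_flag (hl : ∀ e, s e ≠ t e) {R : Type} [AddCommMonoid R] (f : E → R) (v : V) :
    ∑ q : E × Bool, (if fe s t q = v then f q.1 else 0) = ∑ e ∈ cut s t {v}, f e := by
  rw [Fintype.sum_prod_type]
  unfold cut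
  rw [Finset.sum_filter]
  apply Finset.sum_congr rfl
  intro e _
  have := hl e
  rw [Fintype.sum_bool]
  simp only [fe, Finset.mem_singleton, if_true, Bool.false_eq_true, if_false]
  by_cases h3 : s e = v <;> by_cases h4 : t e = v <;> simp_all

/-- The three parts of a cut of the hub graph. -/
theorem hub_cut (S : Finset (HP V E)) :
    ∑ x ∈ cut (hs V E) (ht s t) S, hx s t p x =
      ∑ e, (if ¬ ((Sum.inl (e, false) : HP V E) ∈ S ↔ (Sum.inl (e, true) : HP V E) ∈ S)
        then 1 - p e else 0) +
      (∑ q : E × Bool, ∑ i : Fin 4,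
        (if ¬ ((Sum.inl q : HP V E) ∈ S ↔ (Sum.inr (fe s t q, i) : HP V E) ∈ S)
          then p q.1 / 4 else 0) +
      ∑ v : V, ∑ i : Fin 4, ∑ j : Fin 4,
        (if ¬ ((Sum.inr (v, i) : HP V E) ∈ S ↔ (Sum.inr (v, j) : HP V E) ∈ S)
          then (1 - wdeg s t p v / 4) / 6 else 0)) := by
  unfold cut
  rw [Finset.sum_filter, Fintype.sum_sum_type, Fintype.sum_sum_type]
  congr 1
  congr 1
  · rw [Fintype.sum_prod_type]
    rfl
  · rw [Fintype.sum_prod_type]
    apply Finset.sum_congr rfl
    intro v _
    rw [Fintype.sum_prod_type]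
    apply Finset.sum_congr rfl
    intro i _
    apply Finset.sum_congr rfl
    intro j _
    simp only [hs, ht, hx, Sum.elim_inr]
    by_cases h : i = j
    · subst h
      simp
    · simp [h]

/-- A hub which is split. -/
theorem hub_split (h : Fin 4 → Prop) [DecidablePred h] (c : ℚ) (hc : 0 ≤ c)
    (hh : ∃ i j, h i ∧ ¬ h j) :
    6 * c ≤ ∑ i : Fin 4, ∑ j : Fin 4, (if ¬ (h i ↔ h j) then c else 0) := by
  simp only [Fin.sum_univ_four]
  obtain ⟨i, j, hi, hj⟩ := hh
  by_cases h0 : h 0 <;> by_cases h1 : h 1 <;> by_cases h2 : h 2 <;> by_cases h3 : h 3 <;>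
    simp only [h0, h1, h2, h3, not_true_eq_false, not_false_eq_true, if_true, if_false, iff_true,
      iff_false] <;>
    first
      | linarith
      | (exfalso; fin_cases i <;> fin_cases j <;> simp_all)

theorem spoke_split (P : Prop) [Decidable P] (h : Fin 4 → Prop) [DecidablePred h] (c : ℚ)
    (hc : 0 ≤ c) (hh : ∃ i j, h i ∧ ¬ h j) :
    c / 4 ≤ ∑ i : Fin 4, (if ¬ (P ↔ h i) then c / 4 else 0) := by
  obtain ⟨i, j, hi, hj⟩ := hh
  have h1 : ∀ k, 0 ≤ (if ¬ (P ↔ h k) then c / 4 else 0) := by
    intro k
    split_ifs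
    · exact le_rfl
    · positivity
  by_cases hP : P
  · have := Finset.single_le_sum (fun k _ => h1 k) (Finset.mem_univ j)
    refine le_trans ?_ this
    rw [if_pos]
    simp [hP, hj]
  · have := Finset.single_le_sum (fun k _ => h1 k) (Finset.mem_univ i)
    refine le_trans ?_ this
    rw [if_pos]
    simp [hP, hi]

theorem spoke_eq (P : Prop) [Decidable P] (h : Fin 4 → Prop) [DecidablePred h] (c : ℚ)
    (Q : Prop) [Decidable Q] (hh : ∀ i, h i ↔ Q) :
    ∑ i : Fin 4, (if ¬ (P ↔ h i) then c / 4 else 0) = if ¬ (P ↔ Q) then c else 0 := by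
  simp only [Fin.sum_univ_four, hh]
  split_ifs
  · ring
  · ring

theorem flag_le (P0 P1 Q0 Q1 : Prop) [Decidable P0] [Decidable P1] [Decidable Q0] [Decidable Q1]
    (c : ℚ) (_hc : 0 ≤ c) (h : ¬ ((P0 ↔ P1) ↔ (Q0 ↔ Q1))) :
    c ≤ (if ¬ (P1 ↔ Q1) then c else 0) + (if ¬ (P0 ↔ Q0) then c else 0) := by
  by_cases h1 : P0 <;> by_cases h2 : P1 <;> by_cases h3 : Q0 <;> by_cases h4 : Q1 <;> simp_all

/-- The weights of the hub graph lie in the perfect matching polytope. -/
theorem hub_inQ (hl : ∀ e, s e ≠ t e) (h0 : ∀ e, 0 ≤ p e) (h2 : ∀ e, p e ≤ 1 / 2)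
    (h4 : ∀ v, wdeg s t p v ≤ 4)
    (hp : ∀ S : Finset V, ∀ e ∈ cut s t S, p e ≤ ∑ f ∈ (cut s t S).erase e, p f) :
    InQ (hs V E) (ht s t) (hx s t p) := by
  have hw : ∀ v, 0 ≤ (1 - wdeg s t p v / 4) / 6 := by
    intro v
    have := h4 v
    apply div_nonneg _ (by norm_num)
    linarith
  refine ⟨?_, ?_, ?_, ?_⟩
  · rintro (e | q | r)
    · have := h2 e
      simp only [hx, Sum.elim_inl]
      linarith
    · have := h0 q.1.1
      simp only [hx, Sum.elim_inl, Sum.elim_inr]
      positivity
    · simp only [hx, Sum.elim_inr]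
      split_ifs
      · exact le_rfl
      · exact hw _
  · rintro (e | q | r) h
    · simp [hs, ht] at h
    · simp [hs, ht] at h
    · simp only [hs, ht, Sum.elim_inr, Sum.inr.injEq, Prod.mk.injEq, true_and] at h
      simp [hx, h]
  · rintro (q | r)
    · rw [hub_cut]
      have e1 : ∑ e, (if ¬ ((Sum.inl (e, false) : HP V E) ∈ ({Sum.inl q} : Finset (HP V E)) ↔
          (Sum.inl (e, true) : HP V E) ∈ ({Sum.inl q} : Finset (HP V E)))
          then 1 - p e else 0) = 1 - p q.1 := by
        rw [Finset.sum_eq_single q.1]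
        · obtain ⟨e, b⟩ := q
          cases b <;> simp
        · intro e _ he
          rw [if_neg]
          obtain ⟨e', b⟩ := q
          simp only [Finset.mem_singleton, Sum.inl.injEq, Prod.mk.injEq, not_not]
          have : e ≠ e' := he
          simp [this]
        · intro h; exact absurd (Finset.mem_univ _) h
      have e2 : ∑ q' : E × Bool, ∑ i : Fin 4,
          (if ¬ ((Sum.inl q' : HP V E) ∈ ({Sum.inl q} : Finset (HP V E)) ↔
            (Sum.inr (fe s t q', i) : HP V E) ∈ ({Sum.inl q} : Finset (HP V E)))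
          then p q'.1 / 4 else 0) = p q.1 := by
        rw [Finset.sum_eq_single q]
        · simp only [Finset.mem_singleton, reduceCtorEq, iff_false, not_true_eq_false,
            not_false_eq_true, if_true, Fin.sum_univ_four]
          ring
        · intro q' _ hq
          simp [hq]
        · intro h; exact absurd (Finset.mem_univ _) h
      rw [e1, e2]
      simp
    · rw [hub_cut]
      obtain ⟨v, k⟩ := r
      have e1 : ∑ q' : E × Bool, ∑ i : Fin 4,
          (if ¬ ((Sum.inl q' : HP V E) ∈ ({Sum.inr (v, k)} : Finset (HP V E)) ↔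
            (Sum.inr (fe s t q', i) : HP V E) ∈ ({Sum.inr (v, k)} : Finset (HP V E)))
          then p q'.1 / 4 else 0) = wdeg s t p v / 4 := by
        unfold wdeg
        rw [← sum_flag hl p v, Finset.sum_div]
        apply Finset.sum_congr rfl
        intro q' _
        rw [Finset.sum_eq_single k]
        · by_cases h : fe s t q' = v <;> simp [h]
        · intro i _ hi
          simp [hi]
        · intro h; exact absurd (Finset.mem_univ _) h
      have e2 : ∑ v' : V, ∑ i : Fin 4, ∑ j : Fin 4,
          (if ¬ ((Sum.inr (v', i) : HP V E) ∈ ({Sum.inr (v, k)} : Finset (HP V E)) ↔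
            (Sum.inr (v', j) : HP V E) ∈ ({Sum.inr (v, k)} : Finset (HP V E)))
          then (1 - wdeg s t p v' / 4) / 6 else 0) = 1 - wdeg s t p v / 4 := by
        rw [Finset.sum_eq_single v]
        · simp only [Finset.mem_singleton, Sum.inr.injEq, Prod.mk.injEq, true_and,
            Fin.sum_univ_four]
          fin_cases k <;> simp <;> ring
        · intro v' _ hv
          simp [hv]
        · intro h; exact absurd (Finset.mem_univ _) h
      rw [e1, e2]
      simp
  · intro S hS
    rw [hub_cut]
    have n1 : ∀ e, 0 ≤ (if ¬ ((Sum.inl (e, false) : HP V E) ∈ S ↔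
        (Sum.inl (e, true) : HP V E) ∈ S) then 1 - p e else 0) := by
      intro e
      have := h2 e
      split_ifs
      · exact le_rfl
      · linarith
    have n2 : ∀ q : E × Bool, 0 ≤ ∑ i : Fin 4,
        (if ¬ ((Sum.inl q : HP V E) ∈ S ↔ (Sum.inr (fe s t q, i) : HP V E) ∈ S)
          then p q.1 / 4 else 0) := by
      intro q
      apply Finset.sum_nonneg
      intro i _
      have := h0 q.1
      split_ifs
      · exact le_rfl
      · positivity
    have n3 : ∀ v : V, 0 ≤ ∑ i : Fin 4, ∑ j : Fin 4,
        (if ¬ ((Sum.inr (v, i) : HP V E) ∈ S ↔ (Sum.inr (v, j) : HP V E) ∈ S)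
          then (1 - wdeg s t p v / 4) / 6 else 0) := by
      intro v
      apply Finset.sum_nonneg
      intro i _
      apply Finset.sum_nonneg
      intro j _
      split_ifs
      · exact le_rfl
      · exact hw v
    by_cases hsp : ∃ v i j, (Sum.inr (v, i) : HP V E) ∈ S ∧ (Sum.inr (v, j) : HP V E) ∉ S
    · obtain ⟨v, i, j, hi, hj⟩ := hsp
      have a1 := hub_split (fun k => (Sum.inr (v, k) : HP V E) ∈ S)
        ((1 - wdeg s t p v / 4) / 6) (hw v) ⟨i, j, hi, hj⟩
      have a2 : wdeg s t p v / 4 ≤ ∑ q : E × Bool, ∑ i : Fin 4,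
          (if ¬ ((Sum.inl q : HP V E) ∈ S ↔ (Sum.inr (fe s t q, i) : HP V E) ∈ S)
          then p q.1 / 4 else 0) := by
        unfold wdeg
        rw [← sum_flag hl p v, Finset.sum_div]
        apply Finset.sum_le_sum
        intro q _
        split_ifs with hq
        · apply spoke_split _ (fun k => (Sum.inr (fe s t q, k) : HP V E) ∈ S) _ (h0 _)
          exact ⟨i, j, by rw [hq]; exact hi, by rw [hq]; exact hj⟩
        · rw [zero_div]
          exact n2 q
      have a3 := Finset.single_le_sum (fun v _ => n3 v) (Finset.mem_univ v)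
      have a4 := Finset.sum_nonneg fun e (_ : e ∈ (univ : Finset E)) => n1 e
      linarith
    · push Not at hsp
      set X : Finset V := univ.filter fun v => (Sum.inr (v, (0 : Fin 4)) : HP V E) ∈ S with hX
      have hXm : ∀ v i, (Sum.inr (v, i) : HP V E) ∈ S ↔ v ∈ X := by
        intro v i
        rw [hX, Finset.mem_filter]
        constructor
        · intro h
          exact ⟨Finset.mem_univ _, hsp v i 0 h⟩
        · intro h
          exact hsp v 0 i h.2
      have b1 : ∀ q : E × Bool, ∑ i : Fin 4,
          (if ¬ ((Sum.inl q : HP V E) ∈ S ↔ (Sum.inr (fe s t q, i) : HP V E) ∈ S)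
          then p q.1 / 4 else 0) =
          if ¬ ((Sum.inl q : HP V E) ∈ S ↔ fe s t q ∈ X) then p q.1 else 0 := by
        intro q
        exact spoke_eq _ (fun i => (Sum.inr (fe s t q, i) : HP V E) ∈ S) _ _
          (fun i => hXm _ i)
      have b2 := Finset.sum_nonneg fun v (_ : v ∈ (univ : Finset V)) => n3 v
      have b3 := Finset.sum_nonneg fun q (_ : q ∈ (univ : Finset (E × Bool))) => n2 q
      -- some external edge is cut
      have hex : ∃ e, ¬ ((Sum.inl (e, false) : HP V E) ∈ S ↔ (Sum.inl (e, true) : HP V E) ∈ S) := by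
        by_contra hcon
        push Not at hcon
        have c1 : S.card = ∑ x : HP V E, (if x ∈ S then 1 else 0) := by
          rw [Finset.sum_boole]
          simp
        rw [c1, Fintype.sum_sum_type, Fintype.sum_prod_type, Fintype.sum_prod_type] at hS
        have c2 : Even (∑ e : E, ∑ b : Bool,
            (if (Sum.inl (e, b) : HP V E) ∈ S then 1 else 0 : ℕ)) := by
          apply Finset.even_sum
          intro e _
          rw [Fintype.sum_bool]
          have := hcon e
          by_cases h : (Sum.inl (e, true) : HP V E) ∈ S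
          · rw [if_pos h, if_pos (this.mpr h)]
            decide
          · rw [if_neg h, if_neg (fun h' => h (this.mp h'))]
            decide
        have c3 : Even (∑ v : V, ∑ i : Fin 4,
            (if (Sum.inr (v, i) : HP V E) ∈ S then 1 else 0 : ℕ)) := by
          apply Finset.even_sum
          intro v _
          simp only [hXm]
          rw [Fin.sum_univ_four]
          by_cases h : v ∈ X <;> simp only [h, if_true, if_false] <;> decide
        exact (Nat.not_even_iff_odd.mpr hS) (c2.add c3)
      obtain ⟨e0, he0⟩ := hex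
      by_cases hex2 : ∃ e1, e1 ≠ e0 ∧
          ¬ ((Sum.inl (e1, false) : HP V E) ∈ S ↔ (Sum.inl (e1, true) : HP V E) ∈ S)
      · obtain ⟨e1, he1, he1'⟩ := hex2
        have d1 : (1 - p e0) + (1 - p e1) ≤ ∑ e, (if ¬ ((Sum.inl (e, false) : HP V E) ∈ S ↔
            (Sum.inl (e, true) : HP V E) ∈ S) then 1 - p e else 0) := by
          have := Finset.sum_le_sum_of_subset_of_nonneg (Finset.subset_univ {e0, e1})
            (f := fun e => (if ¬ ((Sum.inl (e, false) : HP V E) ∈ S ↔
              (Sum.inl (e, true) : HP V E) ∈ S) then 1 - p e else 0)) (fun e _ _ => n1 e)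
          rw [Finset.sum_pair he1.symm, if_pos he0, if_pos he1'] at this
          exact this
        have := h2 e0
        have := h2 e1
        linarith
      · push Not at hex2
        have d1 := Finset.single_le_sum (fun e _ => n1 e) (Finset.mem_univ e0)
        rw [if_pos he0] at d1
        simp_rw [b1]
        have d2 : ∀ q : E × Bool, 0 ≤ (if ¬ ((Sum.inl q : HP V E) ∈ S ↔ fe s t q ∈ X)
            then p q.1 else 0) := by
          intro q
          have := h0 q.1
          split_ifs
          · exact le_rfl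
          · exact this
        rw [Fintype.sum_prod_type (f := fun q : E × Bool =>
          (if ¬ ((Sum.inl q : HP V E) ∈ S ↔ fe s t q ∈ X) then p q.1 else 0))]
        have d3 : ∀ e, 0 ≤ ∑ b : Bool, (if ¬ ((Sum.inl (e, b) : HP V E) ∈ S ↔
            fe s t (e, b) ∈ X) then p (e, b).1 else 0) :=
          fun e => Finset.sum_nonneg fun b _ => d2 (e, b)
        by_cases hc : e0 ∈ cut s t X
        · have d4 : ∑ f ∈ (cut s t X).erase e0, p f ≤ ∑ e, ∑ b : Bool,
              (if ¬ ((Sum.inl (e, b) : HP V E) ∈ S ↔ fe s t (e, b) ∈ X)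
                then p (e, b).1 else 0) := by
            refine le_trans ?_ (Finset.sum_le_sum_of_subset_of_nonneg
              (Finset.subset_univ ((cut s t X).erase e0)) fun e _ _ => d3 e)
            apply Finset.sum_le_sum
            intro e he
            rw [Finset.mem_erase, mem_cut] at he
            have hh := hex2 e he.1
            rw [Fintype.sum_bool]
            refine flag_le _ _ _ _ _ (h0 e) ?_
            rw [show fe s t (e, false) = s e from rfl, show fe s t (e, true) = t e from rfl]
            tauto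
          have d5 := hp X e0 hc
          linarith
        · have d4 := Finset.single_le_sum (fun e _ => d3 e) (Finset.mem_univ e0)
          have d5 : p e0 ≤ ∑ b : Bool, (if ¬ ((Sum.inl (e0, b) : HP V E) ∈ S ↔
              fe s t (e0, b) ∈ X) then p (e0, b).1 else 0) := by
            rw [mem_cut] at hc
            rw [Fintype.sum_bool]
            refine flag_le _ _ _ _ _ (h0 e0) ?_
            rw [show fe s t (e0, false) = s e0 from rfl, show fe s t (e0, true) = t e0 from rfl]
            tauto
          linarith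

open scoped Classical in
/-- The external edges outside of a perfect matching form an even set. -/
theorem hub_even (hl : ∀ e, s e ≠ t e) {M : Finset (HE V E)}
    (hM : IsPM (hs V E) (ht s t) M) (v : V) :
    Even ((univ.filter fun e : E => (Sum.inl e : HE V E) ∉ M) ∩ cut s t {v}).card := by
  classical
  set A : Finset (HP V E) := (univ.filter fun q : E × Bool => fe s t q = v).disjSum
    (univ.filter fun r : V × Fin 4 => r.1 = v) with hA
  have m1 : ∀ q : E × Bool, (Sum.inl q : HP V E) ∈ A ↔ fe s t q = v := by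
    intro q; rw [hA, Finset.inl_mem_disjSum]; simp
  have m2 : ∀ r : V × Fin 4, (Sum.inr r : HP V E) ∈ A ↔ r.1 = v := by
    intro q; rw [hA, Finset.inr_mem_disjSum]; simp
  have h1 := pm_parity (hs V E) (ht s t) M A fun x _ => hM x
  have h2 : (M ∩ cut (hs V E) (ht s t) A).card =
      ((cut s t {v}).filter fun e => (Sum.inl e : HE V E) ∈ M).card := by
    have : M ∩ cut (hs V E) (ht s t) A =
        ((cut s t {v}).filter fun e => (Sum.inl e : HE V E) ∈ M).map ⟨Sum.inl, Sum.inl_injective⟩ := by
      ext x
      rw [Finset.mem_inter, mem_cut, Finset.mem_map]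
      simp only [Finset.mem_filter, Function.Embedding.coeFn_mk]
      rcases x with e | q | r
      · simp only [hs, ht, Sum.elim_inl, m1, fe, Sum.inl.injEq, exists_eq_right,
          Bool.false_eq_true, if_false, if_true, mem_cut_singleton]
        tauto
      · simp [hs, ht, m1, m2]
      · simp [hs, ht, m2]
    rw [this, Finset.card_map]
  have h3 : A.card = (cut s t {v}).card + 4 := by
    have c1 : (univ.filter fun r : V × Fin 4 => r.1 = v).card = 4 := by
      rw [Finset.card_filter, Fintype.sum_prod_type, Finset.sum_eq_single v]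
      · simp
      · intro w _ hw
        simp [hw]
      · intro h; exact absurd (Finset.mem_univ _) h
    rw [hA, Finset.card_disjSum, Finset.card_filter, sum_flag hl (fun _ => 1) v, c1]
    simp
  have h4 : ((univ.filter fun e : E => (Sum.inl e : HE V E) ∉ M) ∩ cut s t {v}).card +
      ((cut s t {v}).filter fun e => (Sum.inl e : HE V E) ∈ M).card = (cut s t {v}).card := by
    have h5 := Finset.card_filter_add_card_filter_not (s := cut s t {v})
      (fun e => (Sum.inl e : HE V E) ∈ M)
    have h6 : (univ.filter fun e : E => (Sum.inl e : HE V E) ∉ M) ∩ cut s t {v} =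
        (cut s t {v}).filter fun e => ¬ (Sum.inl e : HE V E) ∈ M := by
      ext e
      simp only [Finset.mem_inter, Finset.mem_filter, Finset.mem_univ, true_and]
      tauto
    rw [h6]
    omega
  rw [Nat.even_iff]
  omega

theorem sum_count {α : Type} [Fintype α] [DecidableEq α] (L : List α) (P : α → Prop)
    [DecidablePred P] : ∑ C, (if P C then (L.count C : ℚ) else 0) = (L.countP fun C => P C) := by
  induction L with
  | nil => simp
  | cons a L IH =>
    rw [List.countP_cons]
    push_cast
    rw [← IH]
    have : ∀ C, (if P C then ((a :: L).count C : ℚ) else 0) =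
        (if P C then (L.count C : ℚ) else 0) + (if C = a then (if P a then 1 else 0) else 0) := by
      intro C
      rw [List.count_cons]
      by_cases h : C = a
      · subst h
        by_cases h1 : P C <;> simp [h1]
      · have h' : ¬ a = C := fun h1 => h h1.symm
        simp [h, h']
    simp_rw [this]
    rw [Finset.sum_add_distrib]
    simp

/-- **Seymour's sums of circuits theorem.** -/
theorem cycle_law (hl : ∀ e, s e ≠ t e) (p : E → ℚ) (h0 : ∀ e, 0 ≤ p e)
    (hp : ∀ S : Finset V, ∀ e ∈ cut s t S, p e ≤ ∑ f ∈ (cut s t S).erase e, p f) :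
    ∃ u : Finset E → ℚ, (∀ C, 0 ≤ u C) ∧ (∀ C, u C ≠ 0 → IsCycle s t C) ∧
      ∀ e, ∑ C, (if e ∈ C then u C else 0) = p e := by
  classical
  set N : ℚ := 2 + 2 * ∑ e, p e with hN
  have hs0 : 0 ≤ ∑ e, p e := Finset.sum_nonneg fun e _ => h0 e
  have hNpos : 0 < N := by linarith
  have hle : ∀ e, p e ≤ ∑ e, p e := fun e =>
    Finset.single_le_sum (fun e _ => h0 e) (Finset.mem_univ e)
  have hq := hub_inQ (s := s) (t := t) (p := fun e => p e / N) hl
    (fun e => div_nonneg (h0 e) hNpos.le)
    (fun e => by
      rw [div_le_iff₀ hNpos]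
      have := hle e
      linarith)
    (fun v => by
      unfold wdeg
      rw [← Finset.sum_div, div_le_iff₀ hNpos]
      have : ∑ e ∈ cut s t {v}, p e ≤ ∑ e, p e :=
        Finset.sum_le_sum_of_subset_of_nonneg (Finset.subset_univ _) fun e _ _ => h0 e
      linarith)
    (fun S e he => by
      rw [← Finset.sum_div]
      exact div_le_div_of_nonneg_right (hp S e he) hNpos.le)
  obtain ⟨ι, hι, w, M, hw0, hM, hw1, hwM⟩ := edmonds _ _ _ _ hq
  have hL : ∀ i, ∃ L : List (Finset E), (∀ C ∈ L, w i ≠ 0 → IsCycle s t C) ∧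
      (w i ≠ 0 → ∀ e, (L.countP fun C => e ∈ C) = if (Sum.inl e : HE V E) ∉ M i then 1 else 0) := by
    intro i
    by_cases hi : w i = 0
    · exact ⟨[], by simp, fun h => absurd hi h⟩
    · obtain ⟨L, h1, h2⟩ := even_decomp hl _
        (univ.filter fun e : E => (Sum.inl e : HE V E) ∉ M i) rfl fun v => hub_even hl (hM i hi) v
      refine ⟨L, fun C hC _ => h1 C hC, fun _ e => ?_⟩
      rw [h2 e]
      simp
  choose L hL1 hL2 using hL
  refine ⟨fun C => ∑ i, N * w i * ((L i).count C : ℚ), ?_, ?_, ?_⟩
  · intro C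
    apply Finset.sum_nonneg
    intro i _
    have := hw0 i
    positivity
  · intro C hC
    obtain ⟨i, -, hi⟩ := Finset.exists_ne_zero_of_sum_ne_zero hC
    have h1 : w i ≠ 0 := fun h => hi (by rw [h]; ring)
    have h2 : (L i).count C ≠ 0 := fun h => hi (by rw [h]; simp)
    exact hL1 i C (List.count_pos_iff.mp (Nat.pos_of_ne_zero h2)) h1
  · intro e
    have h1 : ∀ C, (if e ∈ C then ∑ i, N * w i * ((L i).count C : ℚ) else 0) =
        ∑ i, N * w i * (if e ∈ C then ((L i).count C : ℚ) else 0) := by
      intro C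
      split_ifs
      · rfl
      · simp
    simp_rw [h1]
    rw [Finset.sum_comm]
    have h2 : ∀ i, ∑ C, N * w i * (if e ∈ C then ((L i).count C : ℚ) else 0) =
        N * (w i - (if (Sum.inl e : HE V E) ∈ M i then w i else 0)) := by
      intro i
      rw [← Finset.mul_sum, sum_count (L i) (fun C => e ∈ C)]
      by_cases hi : w i = 0
      · simp [hi]
      · rw [hL2 i hi e]
        by_cases h3 : (Sum.inl e : HE V E) ∈ M i <;> simp [h3]
    simp_rw [h2]
    rw [← Finset.mul_sum, Finset.sum_sub_distrib, hw1, hwM]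
    simp only [hx, Sum.elim_inl]
    field_simp
    ring

end Hub

end Pool.Agent.Lib.MP_95bb8c_al.BU
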