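import Pool.Agent.Lib.MP_95bb8c_al.BU.WStarLaw
import Pool.Agent.Lib.MP_95bb8c_al.BU.Defs

set_option autoImplicit false
set_option linter.unusedSectionVars false

namespace Pool.Agent.Lib.MP_95bb8c_al.BU

open Finset

variable {V E L : Type} [Fintype V] [DecidableEq V] [Fintype E] [DecidableEq E]
  [Fintype L] [DecidableEq L]
variable {s t : E → V}

/-- **Theorem A**: a law of cycles with all turns across given partitions into parts with at most
half of the edges. -/
theorem star_law (hl : ∀ e, s e ≠ t e)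
    (hg : WGood s t) (π : V → E → L) (hπ : ∀ v l, 2 * (part s t π v l).card ≤ dg s t v) :
    ∃ u : Finset E → ℚ, (∀ C, 0 ≤ u C) ∧
      (∀ C, u C ≠ 0 → IsCycle s t C ∧
        ∀ v, ∀ e ∈ C, ∀ f ∈ C, e ∈ cut s t {v} → f ∈ cut s t {v} → e ≠ f → π v e ≠ π v f) ∧
      ∀ e, ∑ C, (if e ∈ C then u C else 0) = 1 := by
  choose w hw1 hw2 using hg
  obtain ⟨u, h1, h2, h3⟩ := W.star_law hl (fun _ => 1) (fun _ => zero_le_one) w hw1
    (fun v S hv hS => by
      rw [Finset.sum_const, Finset.sum_const, nsmul_eq_mul, nsmul_eq_mul, mul_one, mul_one]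
      exact_mod_cast hw2 v S hv hS) π (fun v a => by
      have h := hπ v a
      unfold W.part
      rw [← Finset.sum_filter, Finset.sum_const, Finset.sum_const, nsmul_eq_mul, nsmul_eq_mul,
        mul_one, mul_one]
      exact_mod_cast h)
  refine ⟨u, h1, fun C hC => ⟨(h2 C hC).1, ?_⟩, h3⟩
  intro v e he f hf hev hfv hef
  exact (h2 C hC).2 v e (Finset.mem_inter.mpr ⟨he, hev⟩) f (Finset.mem_inter.mpr ⟨hf, hfv⟩) hef

end Pool.Agent.Lib.MP_95bb8c_al.BU
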