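import Pool.Agent.Lib.MP_95bb8c_al.BU.Seymour

set_option autoImplicit false

namespace Pool.Agent.Lib.MP_95bb8c_al.BU.W

open Finset

variable {V E K : Type} [Fintype V] [DecidableEq V] [Fintype E] [DecidableEq E]
  [Fintype K] [DecidableEq K]

/-- First endpoints in the star graph: hubs `v` and leaves `(v, a)`. -/
def ss (s : E → V) (P : V → E → K) : E ⊕ (V × K) → V ⊕ (V × K) :=
  Sum.elim (fun e => Sum.inr (s e, P (s e) e)) (fun r => Sum.inl r.1)

/-- Second endpoints in the star graph. -/
def sn (t : E → V) (P : V → E → K) : E ⊕ (V × K) → V ⊕ (V × K) :=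
  Sum.elim (fun e => Sum.inr (t e, P (t e) e)) Sum.inr

/-- The weight of the part `a` at `v`. -/
def part (s t : E → V) (P : V → E → K) (k : E → ℚ) (v : V) (a : K) : ℚ :=
  ∑ e ∈ cut s t {v}, if P v e = a then k e else 0

/-- The weights of the star graph. -/
def sy (s t : E → V) (P : V → E → K) (k : E → ℚ) : E ⊕ (V × K) → ℚ :=
  Sum.elim k (fun r => part s t P k r.1 r.2)

variable {s t : E → V} {P : V → E → K} {k : E → ℚ}

omit [Fintype V] [DecidableEq V] [Fintype E] [DecidableEq E] [Fintype K] [DecidableEq K] in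
theorem star_loop (hl : ∀ e, s e ≠ t e) (x : E ⊕ (V × K)) : ss s P x ≠ sn t P x := by
  rcases x with e | r
  · intro h
    simp only [ss, sn, Sum.elim_inl, Sum.inr.injEq, Prod.mk.injEq] at h
    exact hl e h.1
  · simp [ss, sn]

/-- Summing over the flags. -/
theorem sum_ends (hl : ∀ e, s e ≠ t e) (g : V → E → ℚ) :
    ∑ v, ∑ e ∈ cut s t {v}, g v e = ∑ e, (g (s e) e + g (t e) e) := by
  have h1 : ∀ v, ∑ e ∈ cut s t {v}, g v e = ∑ e, (if e ∈ cut s t {v} then g v e else 0) := by
    intro v
    rw [← Finset.sum_filter]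
    congr 1
    ext e
    simp
  simp_rw [h1]
  rw [Finset.sum_comm]
  apply Finset.sum_congr rfl
  intro e _
  have h2 : ∀ v, (if e ∈ cut s t {v} then g v e else 0) =
      (if v = s e then g v e else 0) + (if v = t e then g v e else 0) := by
    intro v
    simp only [mem_cut_singleton]
    have := hl e
    by_cases h3 : v = s e <;> by_cases h4 : v = t e <;> simp_all [eq_comm]
  simp_rw [h2]
  rw [Finset.sum_add_distrib]
  simp

/-- The cost of an edge in a cut of the star graph. -/
def cc (s t : E → V) (P : V → E → K) (S : Finset (V ⊕ (V × K))) (e : E) : ℚ :=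
  (if ¬ ((Sum.inr (s e, P (s e) e) : V ⊕ (V × K)) ∈ S ↔
      (Sum.inr (t e, P (t e) e) : V ⊕ (V × K)) ∈ S) then 1 else 0) +
  ((if ¬ ((Sum.inl (s e) : V ⊕ (V × K)) ∈ S ↔ (Sum.inr (s e, P (s e) e) : V ⊕ (V × K)) ∈ S)
      then 1 else 0) +
    (if ¬ ((Sum.inl (t e) : V ⊕ (V × K)) ∈ S ↔ (Sum.inr (t e, P (t e) e) : V ⊕ (V × K)) ∈ S)
      then 1 else 0))

theorem star_cut_sum (hl : ∀ e, s e ≠ t e) (S : Finset (V ⊕ (V × K))) :
    ∑ x ∈ cut (ss s P) (sn t P) S, sy s t P k x = ∑ e, k e * cc s t P S e := by
  unfold cut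
  rw [Finset.sum_filter, Fintype.sum_sum_type, Fintype.sum_prod_type]
  have h1 : ∀ v, ∑ a : K, (if ¬ (ss s P (Sum.inr (v, a)) ∈ S ↔ sn t P (Sum.inr (v, a)) ∈ S)
      then sy s t P k (Sum.inr (v, a)) else 0) = ∑ e ∈ cut s t {v},
      (if ¬ ((Sum.inl v : V ⊕ (V × K)) ∈ S ↔ (Sum.inr (v, P v e) : V ⊕ (V × K)) ∈ S)
        then k e else 0) := by
    intro v
    have h2 : ∀ a : K, (if ¬ (ss s P (Sum.inr (v, a)) ∈ S ↔ sn t P (Sum.inr (v, a)) ∈ S)
        then sy s t P k (Sum.inr (v, a)) else 0) = ∑ e ∈ cut s t {v}, (if P v e = a then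
        (if ¬ ((Sum.inl v : V ⊕ (V × K)) ∈ S ↔ (Sum.inr (v, a) : V ⊕ (V × K)) ∈ S)
          then k e else 0) else 0) := by
      intro a
      simp only [ss, sn, sy, Sum.elim_inr, part]
      split_ifs with h
      · simp
      · rfl
    simp_rw [h2]
    rw [Finset.sum_comm]
    apply Finset.sum_congr rfl
    intro e _
    simp
  simp_rw [h1]
  rw [sum_ends hl (fun v e =>
    (if ¬ ((Sum.inl v : V ⊕ (V × K)) ∈ S ↔ (Sum.inr (v, P v e) : V ⊕ (V × K)) ∈ S)
        then k e else 0)), ← Finset.sum_add_distrib]
  apply Finset.sum_congr rfl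
  intro e _
  simp only [cc, mul_add, mul_ite, mul_one, mul_zero]
  rfl

omit [Fintype K] in
/-- The partner condition bounds each part of a cut. -/
theorem part_cut (hk : ∀ e, 0 ≤ k e) (f : V → V) (hf : ∀ v, f v ≠ v)
    (hpart : ∀ v S, v ∈ S → f v ∉ S → ∑ e ∈ cut s t {v}, k e ≤ ∑ e ∈ cut s t S, k e)
    (hP : ∀ v a, 2 * part s t P k v a ≤ ∑ e ∈ cut s t {v}, k e) (v : V) (a : K)
    (X : Finset V) :
    2 * ∑ e ∈ cut s t {v}, (if P v e = a ∧ e ∈ cut s t X then k e else 0) ≤
      ∑ e ∈ cut s t X, k e := by
  have key : ∀ X : Finset V, v ∈ X →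
      2 * ∑ e ∈ cut s t {v}, (if P v e = a ∧ e ∈ cut s t X then k e else 0) ≤
      ∑ e ∈ cut s t X, k e := by
    intro X hv
    by_cases hfX : f v ∈ X
    · have h1 := hpart v (univ \ (X.erase v)) (by simp) (by simp [hfX, hf v])
      rw [cut_compl] at h1
      have h2 : ∑ e ∈ cut s t (X.erase v), k e + 2 * ∑ e ∈ cut s t X ∩ cut s t {v}, k e =
          ∑ e ∈ cut s t X, k e + ∑ e ∈ cut s t {v}, k e := by
        have e1 : ∀ S : Finset V, ∑ e ∈ cut s t S, k e =
            ∑ e, (if ¬ (s e ∈ S ↔ t e ∈ S) then k e else 0) := by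
          intro S
          unfold cut
          rw [Finset.sum_filter]
        have e2 : ∑ e ∈ cut s t X ∩ cut s t {v}, k e =
            ∑ e, (if ¬ (s e ∈ X ↔ t e ∈ X) ∧ ¬ (s e = v ↔ t e = v) then k e else 0) := by
          rw [← Finset.sum_filter]
          congr 1
          ext e
          simp [mem_cut]
        rw [e1, e1, e1, e2, Finset.mul_sum, ← Finset.sum_add_distrib, ← Finset.sum_add_distrib]
        apply Finset.sum_congr rfl
        intro e _
        simp only [Finset.mem_erase, Finset.mem_singleton]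
        by_cases h3 : s e = v <;> by_cases h4 : t e = v <;> by_cases h5 : s e ∈ X <;>
          by_cases h6 : t e ∈ X <;> simp_all <;> ring
      have h3 : ∑ e ∈ cut s t {v}, (if P v e = a ∧ e ∈ cut s t X then k e else 0) ≤
          ∑ e ∈ cut s t X ∩ cut s t {v}, k e := by
        rw [Finset.inter_comm, ← Finset.filter_mem_eq_inter, Finset.sum_filter]
        apply Finset.sum_le_sum
        intro e _
        have := hk e
        by_cases h4 : P v e = a <;> by_cases h5 : e ∈ cut s t X <;> simp [h4, h5, this]
      linarith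
    · have h1 := hpart v X hv hfX
      have h2 := hP v a
      have h3 : ∑ e ∈ cut s t {v}, (if P v e = a ∧ e ∈ cut s t X then k e else 0) ≤
          part s t P k v a := by
        unfold part
        apply Finset.sum_le_sum
        intro e _
        have := hk e
        by_cases h4 : P v e = a <;> by_cases h5 : e ∈ cut s t X <;> simp [h4, h5, this]
      linarith
  by_cases hv : v ∈ X
  · exact key X hv
  · have h1 := key (univ \ X) (by simp [hv])
    rwa [cut_compl] at h1

theorem cc_ge_one (A B C D : Prop) [Decidable A] [Decidable B] [Decidable C] [Decidable D]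
    (h : ¬ (A ↔ B)) : (1 : ℚ) ≤ (if ¬ (C ↔ D) then 1 else 0) +
      ((if ¬ (A ↔ C) then 1 else 0) + (if ¬ (B ↔ D) then 1 else 0)) := by
  by_cases q1 : A <;> by_cases q2 : B <;> by_cases q3 : C <;> by_cases q4 : D <;>
    simp_all

theorem cc_ge_two (A B C D : Prop) [Decidable A] [Decidable B] [Decidable C] [Decidable D]
    (h : A ↔ B) (h' : ¬ (C ↔ D) ∨ ¬ (A ↔ C) ∨ ¬ (B ↔ D)) :
    (2 : ℚ) ≤ (if ¬ (C ↔ D) then 1 else 0) +
      ((if ¬ (A ↔ C) then 1 else 0) + (if ¬ (B ↔ D) then 1 else 0)) := by
  by_cases q1 : A <;> by_cases q2 : B <;> by_cases q3 : C <;> by_cases q4 : D <;>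
    simp_all <;> norm_num

/-- The star graph satisfies the cut condition. -/
theorem star_cut (hl : ∀ e, s e ≠ t e) (hk : ∀ e, 0 ≤ k e) (f : V → V) (hf : ∀ v, f v ≠ v)
    (hpart : ∀ v S, v ∈ S → f v ∉ S → ∑ e ∈ cut s t {v}, k e ≤ ∑ e ∈ cut s t S, k e)
    (hP : ∀ v a, 2 * part s t P k v a ≤ ∑ e ∈ cut s t {v}, k e)
    (S : Finset (V ⊕ (V × K))) :
    ∀ x ∈ cut (ss s P) (sn t P) S, sy s t P k x ≤
      ∑ y ∈ (cut (ss s P) (sn t P) S).erase x, sy s t P k y := by
  intro x hx
  have h1 : 2 * sy s t P k x ≤ ∑ y ∈ cut (ss s P) (sn t P) S, sy s t P k y := by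
    rw [star_cut_sum hl]
    set X : Finset V := univ.filter fun v => (Sum.inl v : V ⊕ (V × K)) ∈ S with hX
    have hXm : ∀ v, (Sum.inl v : V ⊕ (V × K)) ∈ S ↔ v ∈ X := by
      intro v; rw [hX, Finset.mem_filter]; simp
    have hcc : ∀ e, 0 ≤ cc s t P S e := by
      intro e
      unfold cc
      split_ifs <;> norm_num
    rw [mem_cut] at hx
    rcases x with e0 | ⟨v, a⟩
    · simp only [ss, sn, Sum.elim_inl] at hx
      simp only [sy, Sum.elim_inl]
      by_cases he : e0 ∈ cut s t X
      · have h2 := part_cut hk f hf hpart hP (s e0) (P (s e0) e0) X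
        have h3 : k e0 ≤ ∑ e ∈ cut s t {s e0},
            (if P (s e0) e = P (s e0) e0 ∧ e ∈ cut s t X then k e else 0) := by
          have := Finset.single_le_sum (f := fun e =>
            (if P (s e0) e = P (s e0) e0 ∧ e ∈ cut s t X then k e else 0))
            (fun e _ => by
              have := hk e
              show 0 ≤ (if P (s e0) e = P (s e0) e0 ∧ e ∈ cut s t X then k e else 0)
              split_ifs
              · exact this
              · exact le_rfl) (mem_cut_s (hl e0))
          simpa [he] using this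
        have h4 : ∑ e ∈ cut s t X, k e ≤ ∑ e, k e * cc s t P S e := by
          have e1 : ∑ e ∈ cut s t X, k e = ∑ e, (if ¬ (s e ∈ X ↔ t e ∈ X) then k e else 0) := by
            unfold cut
            rw [Finset.sum_filter]
          rw [e1]
          apply Finset.sum_le_sum
          intro e _
          split_ifs with h5
          · exact mul_nonneg (hk e) (hcc e)
          · have h6 : 1 ≤ cc s t P S e := by
              apply cc_ge_one
              rw [hXm, hXm]
              exact h5
            nlinarith [hk e]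
        linarith
      · have h6 : 2 ≤ cc s t P S e0 := by
          rw [mem_cut, not_not] at he
          apply cc_ge_two
          · rw [hXm, hXm]
            exact he
          · exact Or.inl hx
        have h7 := Finset.single_le_sum (f := fun e => k e * cc s t P S e)
          (fun e _ => mul_nonneg (hk e) (hcc e)) (Finset.mem_univ e0)
        nlinarith [hk e0]
    · simp only [ss, sn, Sum.elim_inr] at hx
      simp only [sy, Sum.elim_inr]
      have h2 := part_cut hk f hf hpart hP v a X
      have h3 : part s t P k v a =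
          ∑ e ∈ cut s t {v}, (if P v e = a ∧ e ∈ cut s t X then k e else 0) +
          ∑ e ∈ cut s t {v}, (if P v e = a ∧ e ∉ cut s t X then k e else 0) := by
        unfold part
        rw [← Finset.sum_add_distrib]
        apply Finset.sum_congr rfl
        intro e _
        by_cases h4 : P v e = a <;> by_cases h5 : e ∈ cut s t X <;> simp [h4, h5]
      have h4 : ∑ e ∈ cut s t X, k e +
          2 * ∑ e ∈ cut s t {v}, (if P v e = a ∧ e ∉ cut s t X then k e else 0) ≤
          ∑ e, k e * cc s t P S e := by
        have e1 : ∑ e ∈ cut s t X, k e = ∑ e, (if e ∈ cut s t X then k e else 0) := by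
          rw [← Finset.sum_filter]
          congr 1
          ext e
          simp
        have e2 : ∑ e ∈ cut s t {v}, (if P v e = a ∧ e ∉ cut s t X then k e else 0) =
            ∑ e, (if e ∈ cut s t {v} ∧ P v e = a ∧ e ∉ cut s t X then k e else 0) := by
          rw [← Finset.sum_filter, ← Finset.sum_filter]
          congr 1
          ext e
          simp
        rw [e1, e2, Finset.mul_sum, ← Finset.sum_add_distrib]
        apply Finset.sum_le_sum
        intro e _
        have h5 : (if e ∈ cut s t X then (1 : ℚ) else 0) +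
            2 * (if e ∈ cut s t {v} ∧ P v e = a ∧ e ∉ cut s t X then (1 : ℚ) else 0) ≤
            cc s t P S e := by
          by_cases q : e ∈ cut s t X
          · have : 1 ≤ cc s t P S e := by
              apply cc_ge_one
              rw [hXm, hXm]
              exact mem_cut.mp q
            simpa [q] using this
          · by_cases q' : e ∈ cut s t {v} ∧ P v e = a
            · have : 2 ≤ cc s t P S e := by
                apply cc_ge_two
                · rw [hXm, hXm]
                  rw [mem_cut, not_not] at q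
                  exact q
                · right
                  obtain ⟨q1, q2⟩ := q'
                  rcases end_of_mem (hl := hl) q1 with ⟨h3, -⟩ | ⟨h3, -⟩
                  · left
                    rw [h3, q2]
                    exact hx
                  · right
                    rw [h3, q2]
                    exact hx
              simpa [q, q'.1, q'.2] using this
            · have q'' : ¬ (e ∈ cut s t {v} ∧ P v e = a ∧ e ∉ cut s t X) :=
                fun h => q' ⟨h.1, h.2.1⟩
              rw [if_neg q, if_neg q'']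
              simpa using hcc e
        have h6 := mul_le_mul_of_nonneg_left h5 (hk e)
        refine le_trans (le_of_eq ?_) h6
        split_ifs <;> ring
      linarith
  rw [← Finset.add_sum_erase _ _ hx] at h1
  linarith

end Pool.Agent.Lib.MP_95bb8c_al.BU.W
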