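import Pool.Agent.Lib.MP_95bb8c_al.BU.WStarCut

set_option autoImplicit false

namespace Pool.Agent.Lib.MP_95bb8c_al.BU.W

open Finset

variable {V E K : Type} [Fintype V] [DecidableEq V] [Fintype E] [DecidableEq E]
  [Fintype K] [DecidableEq K]
variable {s t : E → V} {P : V → E → K} {k : E → ℚ}

omit [DecidableEq E] in
theorem mem_cut_hub {v : V} {x : E ⊕ (V × K)} :
    x ∈ cut (ss s P) (sn t P) {Sum.inl v} ↔ ∃ a, x = Sum.inr (v, a) := by
  rw [mem_cut_singleton]
  rcases x with e | ⟨w, a⟩
  · simp [ss, sn]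
  · simp [ss, sn]

omit [DecidableEq E] in
theorem mem_cut_leaf_inr {v w : V} {a b : K} :
    (Sum.inr (w, b) : E ⊕ (V × K)) ∈ cut (ss s P) (sn t P) {Sum.inr (v, a)} ↔
      w = v ∧ b = a := by
  rw [mem_cut_singleton]
  simp [ss, sn]

omit [DecidableEq E] in
theorem mem_cut_leaf_inl (hl : ∀ e, s e ≠ t e) {v : V} {a : K} {e : E} :
    (Sum.inl e : E ⊕ (V × K)) ∈ cut (ss s P) (sn t P) {Sum.inr (v, a)} ↔
      e ∈ cut s t {v} ∧ P v e = a := by
  rw [mem_cut_singleton, mem_cut_singleton]
  simp only [ss, sn, Sum.elim_inl, Sum.inr.injEq, Prod.mk.injEq]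
  have := hl e
  by_cases h1 : s e = v <;> by_cases h2 : t e = v <;> simp_all

/-- The total weight at a leaf. -/
theorem leaf_sum (hl : ∀ e, s e ≠ t e) (v : V) (a : K) :
    ∑ x ∈ cut (ss s P) (sn t P) {Sum.inr (v, a)}, sy s t P k x = 2 * part s t P k v a := by
  have h1 : ∑ x ∈ cut (ss s P) (sn t P) {Sum.inr (v, a)}, sy s t P k x =
      ∑ x, (if x ∈ cut (ss s P) (sn t P) {Sum.inr (v, a)} then sy s t P k x else 0) := by
    rw [← Finset.sum_filter]
    congr 1
    ext x
    simp
  rw [h1, Fintype.sum_sum_type, Fintype.sum_prod_type]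
  have h2 : ∑ w : V, ∑ b : K, (if (Sum.inr (w, b) : E ⊕ (V × K)) ∈
      cut (ss s P) (sn t P) {Sum.inr (v, a)} then sy s t P k (Sum.inr (w, b)) else 0) =
      part s t P k v a := by
    rw [Finset.sum_eq_single v]
    · rw [Finset.sum_eq_single a]
      · rw [if_pos (mem_cut_leaf_inr.mpr ⟨rfl, rfl⟩)]
        rfl
      · intro b _ hb
        rw [if_neg]
        rw [mem_cut_leaf_inr]
        exact fun h => hb h.2
      · intro h; exact absurd (Finset.mem_univ _) h
    · intro w _ hw
      apply Finset.sum_eq_zero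
      intro b _
      rw [if_neg]
      rw [mem_cut_leaf_inr]
      exact fun h => hw h.1
    · intro h; exact absurd (Finset.mem_univ _) h
  have h3 : ∑ e : E, (if (Sum.inl e : E ⊕ (V × K)) ∈
      cut (ss s P) (sn t P) {Sum.inr (v, a)} then sy s t P k (Sum.inl e) else 0) =
      part s t P k v a := by
    unfold part
    rw [← Finset.sum_filter, ← Finset.sum_filter]
    apply Finset.sum_congr
    · ext e
      rw [Finset.mem_filter, Finset.mem_filter, mem_cut_leaf_inl hl]
      simp
    · intro e _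
      rfl
  rw [h2, h3]
  ring

/-- The restriction of a set of edges of the star graph. -/
def res (C : Finset (E ⊕ (V × K))) : Finset E := univ.filter fun e => Sum.inl e ∈ C

omit [Fintype V] [Fintype K] in
theorem mem_res {C : Finset (E ⊕ (V × K))} {e : E} : e ∈ res C ↔ Sum.inl e ∈ C := by
  simp [res]

/-- The edges of `C` at a leaf. -/
theorem leaf_inter (hl : ∀ e, s e ≠ t e) (C : Finset (E ⊕ (V × K))) (v : V) (a : K) :
    (C ∩ cut (ss s P) (sn t P) {Sum.inr (v, a)}).card =
      (((res C) ∩ cut s t {v}).filter fun e => P v e = a).card +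
        (if (Sum.inr (v, a) : E ⊕ (V × K)) ∈ C then 1 else 0) := by
  have h1 : C ∩ cut (ss s P) (sn t P) {Sum.inr (v, a)} =
      ((((res C) ∩ cut s t {v}).filter fun e => P v e = a).map
        ⟨Sum.inl, Sum.inl_injective⟩) ∪
      (if (Sum.inr (v, a) : E ⊕ (V × K)) ∈ C then {Sum.inr (v, a)} else ∅) := by
    ext x
    rw [Finset.mem_inter, Finset.mem_union, Finset.mem_map]
    simp only [Finset.mem_filter, Finset.mem_inter, mem_res, Function.Embedding.coeFn_mk]
    rcases x with e | ⟨w, b⟩
    · rw [mem_cut_leaf_inl hl]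
      constructor
      · rintro ⟨h1, h2, h3⟩
        exact Or.inl ⟨e, ⟨⟨h1, h2⟩, h3⟩, rfl⟩
      · rintro (⟨e', ⟨⟨h1, h2⟩, h3⟩, h4⟩ | h)
        · rw [Sum.inl.injEq] at h4
          subst h4
          exact ⟨h1, h2, h3⟩
        · split_ifs at h
          · simp at h
          · simp at h
    · rw [mem_cut_leaf_inr]
      constructor
      · rintro ⟨h1, rfl, rfl⟩
        right
        rw [if_pos h1]
        simp
      · rintro (⟨e', -, h4⟩ | h)
        · simp at h4
        · split_ifs at h with h5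
          · rw [Finset.mem_singleton, Sum.inr.injEq, Prod.mk.injEq] at h
            obtain ⟨rfl, rfl⟩ := h
            exact ⟨h5, rfl, rfl⟩
          · simp at h
  rw [h1, Finset.card_union_of_disjoint, Finset.card_map]
  · congr 1
    split_ifs <;> simp
  · rw [Finset.disjoint_left]
    intro x hx hx'
    rw [Finset.mem_map] at hx
    obtain ⟨e, -, rfl⟩ := hx
    split_ifs at hx' <;> simp at hx'

/-- The edges of `C` at a hub. -/
theorem hub_inter (C : Finset (E ⊕ (V × K))) (v : V) :
    (C ∩ cut (ss s P) (sn t P) {Sum.inl v}).card =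
      ∑ a : K, (if (Sum.inr (v, a) : E ⊕ (V × K)) ∈ C then 1 else 0) := by
  have h1 : C ∩ cut (ss s P) (sn t P) {Sum.inl v} =
      (univ.filter fun a : K => (Sum.inr (v, a) : E ⊕ (V × K)) ∈ C).map
        ⟨fun a => Sum.inr (v, a), fun a b h => by simpa using h⟩ := by
    ext x
    rw [Finset.mem_inter, mem_cut_hub, Finset.mem_map]
    simp only [Finset.mem_filter, Finset.mem_univ, true_and]
    constructor
    · rintro ⟨h1, a, rfl⟩
      exact ⟨a, h1, rfl⟩
    · rintro ⟨a, h1, rfl⟩
      exact ⟨h1, a, rfl⟩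
  rw [h1, Finset.card_map, Finset.card_filter]

/-- A cycle of the star graph which uses the leaf edge at each leaf restricts to a cycle with all
turns across the parts. -/
theorem res_cycle (hl : ∀ e, s e ≠ t e) {C : Finset (E ⊕ (V × K))}
    (hC : IsCycle (ss s P) (sn t P) C)
    (hleaf : ∀ v a, (C ∩ cut (ss s P) (sn t P) {Sum.inr (v, a)}).card =
      2 * (if (Sum.inr (v, a) : E ⊕ (V × K)) ∈ C then 1 else 0)) :
    IsCycle s t (res C) ∧ ∀ v, ∀ e ∈ res C ∩ cut s t {v}, ∀ f ∈ res C ∩ cut s t {v},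
      e ≠ f → P v e ≠ P v f := by
  have h1 : ∀ v a, (((res C) ∩ cut s t {v}).filter fun e => P v e = a).card =
      (if (Sum.inr (v, a) : E ⊕ (V × K)) ∈ C then 1 else 0) := by
    intro v a
    have h2 := hleaf v a
    rw [leaf_inter hl] at h2
    omega
  have h2 : ∀ v, ((res C) ∩ cut s t {v}).card =
      (C ∩ cut (ss s P) (sn t P) {Sum.inl v}).card := by
    intro v
    rw [hub_inter, Finset.card_eq_sum_card_fiberwise (f := P v) (t := (univ : Finset K))
      (fun _ _ => Finset.mem_coe.mpr (Finset.mem_univ _))]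
    exact Finset.sum_congr rfl fun a _ => h1 v a
  refine ⟨⟨?_, ?_, ?_⟩, ?_⟩
  · obtain ⟨x, hx⟩ := hC.nonempty
    rcases x with e | ⟨v, a⟩
    · exact ⟨e, mem_res.mpr hx⟩
    · have h3 := h1 v a
      rw [if_pos hx] at h3
      obtain ⟨e, he⟩ := Finset.card_pos.mp (by rw [h3]; exact Nat.one_pos)
      rw [Finset.mem_filter, Finset.mem_inter] at he
      exact ⟨e, he.1.1⟩
  · intro v
    rw [h2 v]
    exact hC.deg _
  · intro S hS
    set S' : Finset (V ⊕ (V × K)) := S.disjSum (univ.filter fun r : V × K => r.1 ∈ S) with hS'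
    have m2 : ∀ r : V × K, (Sum.inr r : V ⊕ (V × K)) ∈ S' ↔ r.1 ∈ S := by
      intro r
      rw [hS', Finset.inr_mem_disjSum]
      simp
    have h3 : C ∩ cut (ss s P) (sn t P) S' = ∅ := by
      rw [Finset.eq_empty_iff_forall_notMem]
      intro x hx
      rw [Finset.mem_inter, mem_cut] at hx
      rcases x with e | ⟨v, a⟩
      · simp only [ss, sn, Sum.elim_inl, m2] at hx
        have : e ∈ res C ∩ cut s t S := by
          rw [Finset.mem_inter, mem_res, mem_cut]
          exact hx
        rw [hS] at this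
        simp at this
      · obtain ⟨-, hx⟩ := hx
        apply hx
        show (Sum.inl v : V ⊕ (V × K)) ∈ S' ↔ (Sum.inr (v, a) : V ⊕ (V × K)) ∈ S'
        rw [m2, hS', Finset.inl_mem_disjSum]
    rcases hC.conn S' h3 with h4 | h4
    · left
      intro e he
      have := h4 _ (mem_res.mp he)
      exact (m2 _).mp this
    · right
      intro e he h5
      exact h4 _ (mem_res.mp he) ((m2 _).mpr h5)
  · intro v e he f hf hef hP
    have h3 := h1 v (P v f)
    have h4 : 1 < (((res C) ∩ cut s t {v}).filter fun e => P v e = P v f).card := by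
      rw [Finset.one_lt_card]
      exact ⟨e, Finset.mem_filter.mpr ⟨he, hP⟩, f, Finset.mem_filter.mpr ⟨hf, rfl⟩, hef⟩
    rw [h3] at h4
    split_ifs at h4 <;> omega

/-- **Theorem A.** A multigraph with edge weights `k` in which each vertex has a partner, and a
partition of the edges at each vertex into parts of weight at most one half: there is a law on
cycles with marginals `k` all of whose turns go across the partitions. -/
theorem star_law (hl : ∀ e, s e ≠ t e) (k : E → ℚ) (hk : ∀ e, 0 ≤ k e) (f : V → V)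
    (hf : ∀ v, f v ≠ v)
    (hpart : ∀ v S, v ∈ S → f v ∉ S → ∑ e ∈ cut s t {v}, k e ≤ ∑ e ∈ cut s t S, k e)
    (P : V → E → K) (hP : ∀ v a, 2 * part s t P k v a ≤ ∑ e ∈ cut s t {v}, k e) :
    ∃ u : Finset E → ℚ, (∀ C, 0 ≤ u C) ∧ (∀ C, u C ≠ 0 → IsCycle s t C ∧
      ∀ v, ∀ e ∈ C ∩ cut s t {v}, ∀ f ∈ C ∩ cut s t {v}, e ≠ f → P v e ≠ P v f) ∧
      ∀ e, ∑ C, (if e ∈ C then u C else 0) = k e := by
  classical
  obtain ⟨u, hu0, hu1, hu2⟩ := cycle_law (star_loop (P := P) hl) (sy s t P k)
    (by
      rintro (e | r)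
      · exact hk e
      · simp only [sy, Sum.elim_inr, part]
        apply Finset.sum_nonneg
        intro e _
        have := hk e
        split_ifs
        · exact this
        · exact le_rfl)
    (star_cut hl hk f hf hpart hP)
  have hleaf : ∀ C, u C ≠ 0 → ∀ v a, (C ∩ cut (ss s P) (sn t P) {Sum.inr (v, a)}).card =
      2 * (if (Sum.inr (v, a) : E ⊕ (V × K)) ∈ C then 1 else 0) := by
    intro C hC v a
    have h1 : ∑ C, u C * ((C ∩ cut (ss s P) (sn t P) {Sum.inr (v, a)}).card : ℚ) =
        2 * part s t P k v a := by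
      rw [← leaf_sum hl v a]
      have h2 : ∀ C : Finset (E ⊕ (V × K)),
          u C * ((C ∩ cut (ss s P) (sn t P) {Sum.inr (v, a)}).card : ℚ) =
          ∑ x ∈ cut (ss s P) (sn t P) {Sum.inr (v, a)}, (if x ∈ C then u C else 0) := by
        intro C
        rw [card_inter_sum]
        push_cast
        rw [Finset.mul_sum]
        apply Finset.sum_congr rfl
        intro x _
        split_ifs <;> simp
      simp_rw [h2]
      rw [Finset.sum_comm]
      exact Finset.sum_congr rfl fun x _ => hu2 x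
    have h2 : ∑ C, u C * (2 * (if (Sum.inr (v, a) : E ⊕ (V × K)) ∈ C then 1 else 0) : ℕ) =
        2 * part s t P k v a := by
      have h3 := hu2 (Sum.inr (v, a))
      have h4 : sy s t P k (Sum.inr (v, a)) = part s t P k v a := rfl
      rw [h4] at h3
      rw [← h3, Finset.mul_sum]
      apply Finset.sum_congr rfl
      intro C _
      split_ifs
      · push_cast
        ring
      · push_cast
        ring
    have h3 : ∑ C, u C * (((C ∩ cut (ss s P) (sn t P) {Sum.inr (v, a)}).card : ℚ) -
        ((2 * (if (Sum.inr (v, a) : E ⊕ (V × K)) ∈ C then 1 else 0) : ℕ) : ℚ)) = 0 := by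
      simp_rw [mul_sub]
      rw [Finset.sum_sub_distrib, h1, h2, sub_self]
    have h4 : ∀ C, u C ≠ 0 → (2 * (if (Sum.inr (v, a) : E ⊕ (V × K)) ∈ C then 1 else 0) : ℕ) ≤
        (C ∩ cut (ss s P) (sn t P) {Sum.inr (v, a)}).card := by
      intro C hC
      rcases (hu1 C hC).deg (Sum.inr (v, a)) with h | h
      · have h8 : (Sum.inr (v, a) : E ⊕ (V × K)) ∉ C := by
          intro h5
          have : (Sum.inr (v, a) : E ⊕ (V × K)) ∈
              C ∩ cut (ss s P) (sn t P) {Sum.inr (v, a)} :=
            Finset.mem_inter.mpr ⟨h5, mem_cut_leaf_inr.mpr ⟨rfl, rfl⟩⟩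
          rw [Finset.card_eq_zero] at h
          rw [h] at this
          simp at this
        rw [h, if_neg h8]
      · rw [h]
        split_ifs <;> omega
    have h5 : ∀ C, 0 ≤ u C * (((C ∩ cut (ss s P) (sn t P) {Sum.inr (v, a)}).card : ℚ) -
        ((2 * (if (Sum.inr (v, a) : E ⊕ (V × K)) ∈ C then 1 else 0) : ℕ) : ℚ)) := by
      intro C
      by_cases hC : u C = 0
      · rw [hC, zero_mul]
      · apply mul_nonneg (hu0 C)
        rw [sub_nonneg]
        exact_mod_cast h4 C hC
    have h6 := (Finset.sum_eq_zero_iff_of_nonneg fun C _ => h5 C).mp h3 C (Finset.mem_univ C)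
    rcases mul_eq_zero.mp h6 with h | h
    · exact absurd h hC
    · have h7 := sub_eq_zero.mp h
      exact_mod_cast h7
  refine ⟨fun D => ∑ C, (if res C = D then u C else 0), ?_, ?_, ?_⟩
  · intro D
    apply Finset.sum_nonneg
    intro C _
    have := hu0 C
    split_ifs
    · exact this
    · exact le_rfl
  · intro D hD
    obtain ⟨C, -, hC⟩ := Finset.exists_ne_zero_of_sum_ne_zero hD
    split_ifs at hC with h
    · rw [← h]
      exact res_cycle hl (hu1 C hC) (hleaf C hC)
    · exact absurd rfl hC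
  · intro e
    have h1 : ∀ D : Finset E, (if e ∈ D then ∑ C, (if res C = D then u C else 0) else 0) =
        ∑ C, (if res C = D then (if e ∈ D then u C else 0) else 0) := by
      intro D
      split_ifs
      · rfl
      · simp
    simp_rw [h1]
    rw [Finset.sum_comm]
    have h2 : ∀ C : Finset (E ⊕ (V × K)),
        ∑ D, (if res C = D then (if e ∈ D then u C else 0) else 0) =
        (if (Sum.inl e : E ⊕ (V × K)) ∈ C then u C else 0) := by
      intro C
      rw [Finset.sum_ite_eq]
      simp only [Finset.mem_univ, if_true, mem_res]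
    simp_rw [h2]
    exact hu2 (Sum.inl e)

end Pool.Agent.Lib.MP_95bb8c_al.BU.W
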