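import Pool.Agent.Lib.MP_95bb8c_al.BU.Graph
import Pool.Agent.Lib.MP_95bb8c_al.Whitehead

set_option autoImplicit false
set_option linter.unusedSectionVars false

namespace Pool.Agent.Lib.MP_95bb8c_al.BU

open Finset

variable {n : ℕ}

/-- The letter `k` places after the position `p` (cyclically). -/
def ahead {U : List (List (Letter n))} (p : Pos U) (k : ℕ) : Letter n := (Pos.next^[k] p).letter

/-- The letter `k` places before the position `p` (cyclically). -/
def behind {U : List (List (Letter n))} (p : Pos U) (k : ℕ) : Letter n := (Pos.prev^[k] p).letter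

/-- The reading of `U` at the position `p`: the bi-infinite word obtained by repeating the word
of `p`, centred at `p`; it is replaced by its inverse if the letter at `p` is an inverse of a
generator, so that a generator is in the centre. -/
def reading {U : List (List (Letter n))} (p : Pos U) : ℕ → Letter n × Letter n :=
  if p.letter.2 then fun k => (ahead p k, behind p k)
  else fun k => (bar (behind p k), bar (ahead p k))

open Classical in
/-- The readings at the occurrences of the generator `a` and its inverse. -/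
noncomputable def readings (U : List (List (Letter n))) (a : Fin n) :
    Finset (ℕ → Letter n × Letter n) :=
  (univ.filter fun p : Pos U => p.letter.1 = a).image reading

section Twins

variable {U : List (List (Letter n))}

/-- One step in the direction `d`. -/
private def stp (d : Bool) (p : Pos U) : Pos U := if d then p.next else p.prev

/-- The letter at `p` read in the direction `d`. -/
private def ltr (d : Bool) (p : Pos U) : Letter n := if d then p.letter else bar p.letter

/-- The edge from `p` in the direction `d`. -/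
private def edg (d : Bool) (p : Pos U) : Pos U := if d then p else p.prev

private theorem stp_stp (d : Bool) (p : Pos U) : stp (!d) (stp d p) = p := by
  cases d
  · exact next_prev p
  · exact prev_next p

private theorem stp_stp' (d : Bool) (p : Pos U) : stp d (stp (!d) p) = p := by
  cases d
  · exact prev_next p
  · exact next_prev p

private theorem ltr_not (d : Bool) (p : Pos U) : ltr (!d) p = bar (ltr d p) := by
  cases d
  · exact (bar_bar _).symm
  · rfl

/-- The same reading in both directions. -/
private def Eq2 (p : Pos U) (d : Bool) (q : Pos U) (d' : Bool) : Prop :=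
  ∀ k, ltr d ((stp d)^[k] p) = ltr d' ((stp d')^[k] q) ∧
    ltr d ((stp (!d))^[k] p) = ltr d' ((stp (!d'))^[k] q)

private theorem Eq2.fwd {p q : Pos U} {d d' : Bool} (h : Eq2 p d q d') :
    Eq2 (stp d p) d (stp d' q) d' := by
  intro k
  refine ⟨?_, ?_⟩
  · rw [← Function.iterate_succ_apply, ← Function.iterate_succ_apply]
    exact (h (k + 1)).1
  · cases k with
    | zero => exact (h 1).1
    | succ k =>
      rw [Function.iterate_succ_apply, Function.iterate_succ_apply, stp_stp, stp_stp]
      exact (h k).2

private theorem Eq2.flip {p q : Pos U} {d d' : Bool} (h : Eq2 p d q d') :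
    Eq2 p (!d) q (!d') := by
  intro k
  rw [Bool.not_not, Bool.not_not, ltr_not, ltr_not, ltr_not, ltr_not, (h k).1, (h k).2]
  exact ⟨rfl, rfl⟩

private theorem Eq2.bwd {p q : Pos U} {d d' : Bool} (h : Eq2 p d q d') :
    Eq2 (stp (!d) p) d (stp (!d') q) d' := by
  have h1 := h.flip.fwd.flip
  rwa [Bool.not_not, Bool.not_not] at h1

private theorem ends_edg (d : Bool) (p : Pos U) :
    (src U (edg d p) = ltr d p ∧ tgt U (edg d p) = bar (ltr d (stp d p))) ∨
      (tgt U (edg d p) = ltr d p ∧ src U (edg d p) = bar (ltr d (stp d p))) := by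
  cases d
  · right
    refine ⟨?_, ?_⟩
    · show bar (p.prev.next).letter = bar p.letter
      rw [next_prev]
    · show p.prev.letter = bar (bar p.prev.letter)
      rw [bar_bar]
  · left
    exact ⟨rfl, rfl⟩

private theorem mem_edg (hU : CycRed U) (d : Bool) (p : Pos U) (v : Letter n) :
    edg d p ∈ cut (src U) (tgt U) {v} ↔ ltr d p = v ∨ bar (ltr d (stp d p)) = v := by
  rw [mem_star (no_loop hU)]
  rcases ends_edg d p with h | h
  · rw [h.1, h.2]
  · rw [h.1, h.2]
    exact or_comm

private theorem con_left (hU : CycRed U) (d : Bool) (p : Pos U) (v : Letter n)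
    (h : ltr d p = v) : conMap U v (edg d p) = edg d (stp (!d) p) := by
  have hl := no_loop hU (edg d p)
  unfold conMap
  cases d
  · have h1 : tgt U (edg false p) = v := by
      rw [← h]
      show bar (p.prev.next).letter = bar p.letter
      rw [next_prev]
    rw [if_pos h1]
    show p.prev.next = p.next.prev
    rw [next_prev, prev_next]
  · have h1 : src U (edg true p) = v := h
    rw [if_neg (fun h2 => hl (h1.trans h2.symm))]
    rfl

private theorem con_right (hU : CycRed U) (d : Bool) (p : Pos U) (v : Letter n)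
    (h : bar (ltr d (stp d p)) = v) : conMap U v (edg d p) = edg d (stp d p) := by
  have hl := no_loop hU (edg d p)
  unfold conMap
  cases d
  · have h1 : src U (edg false p) = v := by
      rw [← h]
      show p.prev.letter = bar (bar p.prev.letter)
      rw [bar_bar]
    rw [if_neg (fun h2 => hl (h1.trans h2.symm))]
    rfl
  · have h1 : tgt U (edg true p) = v := h
    rw [if_pos h1]
    rfl

/-- Relations between parallel edges which are stable under the connecting map. -/
private def Clo (R : Pos U → Pos U → Prop) : Prop :=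
  ∀ e f, R e f → ∀ v, e ∈ cut (src U) (tgt U) {v} →
    f ∈ cut (src U) (tgt U) {v} ∧ R (conMap U v e) (conMap U v f)

private def Twin (e f : Pos U) : Prop := ∃ R : Pos U → Pos U → Prop, Clo R ∧ R e f

private theorem Twin.refl (e : Pos U) : Twin e e :=
  ⟨fun a b => a = b, fun _ _ h _ ha => ⟨h ▸ ha, congrArg _ h⟩, rfl⟩

private theorem clo_mem (hU : CycRed U) {e f : Pos U}
    (h : ∀ v, e ∈ cut (src U) (tgt U) {v} → f ∈ cut (src U) (tgt U) {v}) (v : Letter n)
    (hf : f ∈ cut (src U) (tgt U) {v}) : e ∈ cut (src U) (tgt U) {v} := by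
  have h1 := h (src U e) (by rw [mem_star (no_loop hU)]; exact Or.inl rfl)
  have h2 := h (tgt U e) (by rw [mem_star (no_loop hU)]; exact Or.inr rfl)
  rw [mem_star (no_loop hU)] at h1 h2 hf ⊢
  have hl := no_loop hU e
  rcases hf with h3 | h3
  · rcases h1 with h4 | h4
    · exact Or.inl (h4.symm.trans h3)
    · rcases h2 with h5 | h5
      · exact Or.inr (h5.symm.trans h3)
      · exact absurd (h4.symm.trans h5) hl
  · rcases h1 with h4 | h4
    · rcases h2 with h5 | h5
      · exact absurd (h4.symm.trans h5) hl
      · exact Or.inr (h5.symm.trans h3)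
    · exact Or.inl (h4.symm.trans h3)

private theorem Twin.symm (hU : CycRed U) {e f : Pos U} (h : Twin e f) : Twin f e := by
  obtain ⟨R, hR, h1⟩ := h
  refine ⟨fun a b => R b a, ?_, h1⟩
  intro a b hab v ha
  have hb : b ∈ cut (src U) (tgt U) {v} := clo_mem hU (fun w hw => (hR b a hab w hw).1) v ha
  exact ⟨hb, (hR b a hab v hb).2⟩

private theorem Twin.trans {e f g : Pos U} (h1 : Twin e f) (h2 : Twin f g) : Twin e g := by
  obtain ⟨R, hR, h3⟩ := h1
  obtain ⟨Q, hQ, h4⟩ := h2
  refine ⟨fun a c => ∃ b, R a b ∧ Q b c, ?_, f, h3, h4⟩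
  rintro a c ⟨b, hab, hbc⟩ v ha
  obtain ⟨hb, h5⟩ := hR a b hab v ha
  obtain ⟨hc, h6⟩ := hQ b c hbc v hb
  exact ⟨hc, _, h5, h6⟩

private theorem Twin.mem {e f : Pos U} (h : Twin e f) {v : Letter n}
    (he : e ∈ cut (src U) (tgt U) {v}) : f ∈ cut (src U) (tgt U) {v} := by
  obtain ⟨R, hR, h1⟩ := h
  exact (hR e f h1 v he).1

private theorem Twin.con {e f : Pos U} (h : Twin e f) {v : Letter n}
    (he : e ∈ cut (src U) (tgt U) {v}) : Twin (conMap U v e) (conMap U v f) := by
  obtain ⟨R, hR, h1⟩ := h
  exact ⟨R, hR, (hR e f h1 v he).2⟩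

private theorem twin_of_eq2 (hU : CycRed U) {p q : Pos U} {d d' : Bool} (h : Eq2 p d q d') :
    Twin (edg d p) (edg d' q) := by
  refine ⟨fun e f => ∃ p q d d', e = edg d p ∧ f = edg d' q ∧ Eq2 p d q d', ?_,
    p, q, d, d', rfl, rfl, h⟩
  rintro e f ⟨p, q, d, d', rfl, rfl, h⟩ v hv
  rw [mem_edg hU] at hv ⊢
  have h0 : ltr d p = ltr d' q := (h 0).1
  have h1 : ltr d (stp d p) = ltr d' (stp d' q) := (h 1).1
  rcases hv with hv | hv
  · refine ⟨Or.inl (h0 ▸ hv), ?_⟩
    rw [con_left hU d p v hv, con_left hU d' q v (h0 ▸ hv)]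
    exact ⟨_, _, d, d', rfl, rfl, h.bwd⟩
  · refine ⟨Or.inr (h1 ▸ hv), ?_⟩
    rw [con_right hU d p v hv, con_right hU d' q v (h1 ▸ hv)]
    exact ⟨_, _, d, d', rfl, rfl, h.fwd⟩

private theorem stp_true (k : ℕ) (p : Pos U) : (stp true)^[k] p = Pos.next^[k] p := rfl

private theorem reading_eq (p : Pos U) (k : ℕ) :
    reading p k = (ltr p.letter.2 ((stp p.letter.2)^[k] p),
      ltr p.letter.2 ((stp (!p.letter.2))^[k] p)) := by
  unfold reading
  cases h : p.letter.2
  · rfl
  · rfl

private theorem eq2_of_reading {p q : Pos U} (h : reading p = reading q) :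
    Eq2 p p.letter.2 q q.letter.2 := by
  intro k
  have h1 := congrFun h k
  rw [reading_eq, reading_eq, Prod.mk.injEq] at h1
  exact h1

/-- The edge at the vertex `v` which belongs to the occurrence `p` of `v` or its inverse. -/
private def edv (v : Letter n) (p : Pos U) : Pos U := edg (p.letter.2 == v.2) p

private theorem twin_edv (hU : CycRed U) (v : Letter n) {p q : Pos U}
    (h : reading p = reading q) : Twin (edv v p) (edv v q) := by
  have h1 := eq2_of_reading h
  unfold edv
  have hf : ∀ x : Bool, (x == false) = !x := by intro x; cases x <;> rfl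
  have ht : ∀ x : Bool, (x == true) = x := by intro x; cases x <;> rfl
  cases hv : v.2
  · have h2 := twin_of_eq2 hU h1.flip
    rw [hf, hf]
    exact h2
  · have h2 := twin_of_eq2 hU h1
    rw [ht, ht]
    exact h2

private theorem ltr_edv (v : Letter n) (p : Pos U) (h : p.letter.1 = v.1) :
    ltr (p.letter.2 == v.2) p = v := by
  unfold ltr bar
  cases h1 : p.letter.2 <;> cases h2 : v.2 <;> simp <;> exact Prod.ext h (by simp [h1, h2])

private theorem edv_mem (hU : CycRed U) (v : Letter n) (p : Pos U) (h : p.letter.1 = v.1) :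
    edv v p ∈ cut (src U) (tgt U) {v} := by
  unfold edv
  rw [mem_edg hU]
  exact Or.inl (ltr_edv v p h)

private theorem edv_inj (hU : CycRed U) (v : Letter n) {p q : Pos U} (hp : p.letter.1 = v.1)
    (hq : q.letter.1 = v.1) (h : edv v p = edv v q) : p = q := by
  have h1 := ltr_edv v p hp
  have h2 := ltr_edv v q hq
  unfold edv at h
  generalize (p.letter.2 == v.2) = d at h h1
  generalize (q.letter.2 == v.2) = d' at h h2
  cases d <;> cases d'
  · have h3 : p.prev = q.prev := h
    rw [← next_prev p, h3, next_prev]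
  · exfalso
    have h3 : p.prev = q := h
    have h4 : q.letter = v := h2
    have h5 : bar p.letter = v := h1
    apply hU.2 q
    rw [← h3, next_prev, h3, h4, ← h5, bar_bar]
  · exfalso
    have h3 : p = q.prev := h
    have h4 : p.letter = v := h1
    have h5 : bar q.letter = v := h2
    apply hU.2 p
    rw [h3, next_prev, ← h3, h4, ← h5, bar_bar]
  · exact h

private theorem edv_surj (hU : CycRed U) (v : Letter n) (e : Pos U)
    (he : e ∈ cut (src U) (tgt U) {v}) : ∃ p : Pos U, p.letter.1 = v.1 ∧ edv v p = e := by
  rw [mem_star (no_loop hU)] at he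
  rcases he with h | h
  · have h1 : e.letter = v := h
    refine ⟨e, by rw [h1], ?_⟩
    unfold edv
    rw [h1, beq_self_eq_true]
    rfl
  · have h1 : bar e.next.letter = v := h
    refine ⟨e.next, by rw [← h1]; rfl, ?_⟩
    unfold edv
    have h2 : (e.next.letter.2 == v.2) = false := by
      rw [← h1]
      unfold bar
      cases e.next.letter.2 <;> rfl
    rw [h2]
    exact prev_next e

end Twins

theorem conn2_words {U : List (List (Letter n))} (hU : CycRed U)
    (hlam : ∀ v, lam U v (bar v) = (star U v).card) :
    Conn2 (src U) (tgt U) bar (conMap U) := by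
  refine ⟨no_loop hU, bar_bar, bar_ne, conMap_mem hU, ?_, ?_⟩
  · intro v e he
    rw [mem_star (no_loop hU)] at he
    by_cases h1 : tgt U e = v
    · have h2 : conMap U v e = e.next := if_pos h1
      have h3 : src U e.next = bar v := tgt_eq h1
      have h4 : ¬ tgt U e.next = bar v := fun h5 => no_loop hU e.next (h3.trans h5.symm)
      rw [h2]
      unfold conMap
      rw [if_neg h4, prev_next]
    · have h2 : conMap U v e = e.prev := if_neg h1
      have h3 : src U e = v := he.resolve_right h1
      have h4 : tgt U e.prev = bar v := src_eq h3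
      rw [h2]
      unfold conMap
      rw [if_pos h4, next_prev]
  · intro v S hv hv2
    have h1 := hlam v
    unfold lam star at h1
    unfold dg
    rw [← h1]
    exact Nat.sInf_le ⟨S, hv, hv2, rfl⟩
open Classical in
/-- The tiling theorem for words, from the star law with the exceptional generator `a₀`. -/
theorem few_readings_of_star (hn : 1 < n) (U : List (List (Letter n))) (hU : CycRed U)
    (hconn : Conn (src U) (tgt U)) (hlam : ∀ v, lam U v (bar v) = (star U v).card) (a₀ : Fin n)
    (hstar : StarX (Pos U ⊕ Fin 4) (src U) (tgt U) (conMap U)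
      (univ.filter fun v : Letter n => v.1 = a₀))
    (h : ∀ a : Fin n, a ≠ a₀ → (readings U a).card ≤ 4 ∨
      ∃ r, occ U a ≤ 2 * (univ.filter fun p : Pos U => p.letter.1 = a ∧ reading p = r).card) :
    ∃ L : List (Finset (Pos U)), (∀ C ∈ L, IsCycle (src U) (tgt U) C) ∧ (∃ C ∈ L, 3 ≤ C.card) ∧
      ∀ v, ∀ e ∈ star U v, ∀ f ∈ star U v,
        (L.countP fun C => e ∈ C ∧ f ∈ C) =
          (L.countP fun C => conMap U v e ∈ C ∧ conMap U v f ∈ C) := by
  let b : Pos U → Finset (Pos U) := fun e => univ.filter fun f => Twin e f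
  have hbt : ∀ e f, b e = b f → Twin e f := by
    intro e f hef
    have h1 : f ∈ b f := by
      rw [Finset.mem_filter]
      exact ⟨Finset.mem_univ _, Twin.refl f⟩
    rw [← hef, Finset.mem_filter] at h1
    exact h1.2
  have htb : ∀ e f, Twin e f → b e = b f := by
    intro e f hef
    ext g
    rw [Finset.mem_filter, Finset.mem_filter]
    exact ⟨fun hg => ⟨hg.1, (hef.symm hU).trans hg.2⟩, fun hg => ⟨hg.1, hef.trans hg.2⟩⟩
  have hC : Conn2 (src U) (tgt U) bar (conMap U) := conn2_words hU hlam
  have hcls : ∀ v, v ∉ (univ.filter fun v : Letter n => v.1 = a₀) →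
      ((cut (src U) (tgt U) {v}).image b).card ≤ 4 ∨
      ∃ e ∈ cut (src U) (tgt U) {v},
        dg (src U) (tgt U) v ≤ 2 * ((cut (src U) (tgt U) {v}).filter fun f => b f = b e).card := by
    intro v hv
    have hva : v.1 ≠ a₀ := fun h1 => hv (Finset.mem_filter.2 ⟨Finset.mem_univ _, h1⟩)
    rcases h v.1 hva with h1 | ⟨r, h1⟩
    · left
      refine le_trans ?_ h1
      have h2 : ∀ c ∈ (cut (src U) (tgt U) {v}).image b, ∃ p : Pos U, p.letter.1 = v.1 ∧
          b (edv v p) = c := by
        intro c hc
        obtain ⟨e, he, hec⟩ := Finset.mem_image.mp hc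
        obtain ⟨p, hp, hpe⟩ := edv_surj hU v e he
        exact ⟨p, hp, by rw [hpe, hec]⟩
      rcases isEmpty_or_nonempty (Pos U) with h0 | h0
      · rw [Finset.eq_empty_of_isEmpty (cut (src U) (tgt U) {v}), Finset.image_empty,
          Finset.card_empty]
        exact Nat.zero_le _
      choose! g hg using h2
      apply Finset.card_le_card_of_injOn (fun c => reading (g c))
      · intro c hc
        unfold readings
        rw [Finset.mem_coe, Finset.mem_image]
        exact ⟨g c, Finset.mem_filter.mpr ⟨Finset.mem_univ _, (hg c hc).1⟩, rfl⟩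
      · intro c hc c' hc' hcc
        rw [← (hg c hc).2, ← (hg c' hc').2]
        exact htb _ _ (twin_edv hU v hcc)
    · by_cases h3 : ∃ p : Pos U, p.letter.1 = v.1 ∧ reading p = r
      · right
        obtain ⟨p, hp, hpr⟩ := h3
        refine ⟨edv v p, edv_mem hU v p hp, ?_⟩
        rw [dg_eq hU]
        refine le_trans h1 (Nat.mul_le_mul_left 2 ?_)
        apply Finset.card_le_card_of_injOn (edv v)
        · intro q hq
          rw [Finset.mem_coe, Finset.mem_filter] at hq
          rw [Finset.mem_coe, Finset.mem_filter]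
          exact ⟨edv_mem hU v q hq.2.1, htb _ _ (twin_edv hU v (hq.2.2.trans hpr.symm))⟩
        · intro q hq q' hq' hqq
          rw [Finset.mem_coe, Finset.mem_filter] at hq hq'
          exact edv_inj hU v hq.2.1 hq'.2.1 hqq
      · left
        have h4 : (univ.filter fun p : Pos U => p.letter.1 = v.1 ∧ reading p = r).card = 0 := by
          rw [Finset.card_eq_zero, Finset.filter_eq_empty_iff]
          intro p _ hp
          exact h3 ⟨p, hp⟩
        rw [h4, ← dg_eq hU] at h1
        have h5 : cut (src U) (tgt U) {v} = ∅ := by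
          rw [← Finset.card_eq_zero]
          exact Nat.le_zero.mp h1
        rw [h5, Finset.image_empty, Finset.card_empty]
        exact Nat.zero_le _
  refine tiling_of_star hC ?_ hconn (fun v => v.2) (fun v => rfl) (b := b) ?_ ?_ ?_ ?_ hstar hcls
  · rw [Fintype.card_prod, Fintype.card_fin, Fintype.card_bool]
    omega
  · exact ⟨fun e f hef v he => (hbt e f hef).mem he,
      fun v e he f _ hef => htb _ _ ((hbt e f hef).con he)⟩
  · intro R hR e f hef
    exact htb e f ⟨R, hR, hef⟩
  · intro v hv
    rw [Finset.mem_filter] at hv ⊢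
    exact ⟨Finset.mem_univ _, hv.2⟩
  · intro v hv w hw
    rw [Finset.mem_filter] at hv hw
    rcases v with ⟨v1, v2⟩
    rcases w with ⟨w1, w2⟩
    have h1 : w1 = v1 := hw.2.trans hv.2.symm
    subst h1
    unfold bar
    cases v2 <;> cases w2 <;> simp

end Pool.Agent.Lib.MP_95bb8c_al.BU
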